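import Pool.Agent.H103.OS.Defs

/-!
JOB J2 (MP_d12cfa_co, frozen S11587): counting off-diagonally symmetric alternating sign matrices by the transfer recursion.

PLAIN WORDS. `Z t n l` (definitions below, given) processes the rows of the upper triangle of a symmetric matrix. At the parameters `x = 0`
all allowed moves have weight 1: `W 0 0 r c r' c' = 1` iff there is an entry a ∈ {-1,0,1} with r' = r + a, c' = c + a (bits read as 0/1),
and `K t 0 c r = 1` if r = c and `t` if r ≠ c (diagonal entry r - c). For bits `c : Fin m → Bool` let X(m,c) be the set of symmetric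
integer m×m matrices A such that for every row i and every k: c_i + Σ_{j ≤ k} A i j ∈ {0,1} and c_i + Σ_j A i j = 1.
Deleting the first row and column of A ∈ X(m+1,c) gives A' ∈ X(m,c') with c'_j = c_{j+1} + A 0 (j+1) (by symmetry the deleted column
contributes A (j+1) 0 = A 0 (j+1) to the running sums of row j+1), and (first row, A') determine A. So
  Z t m ((0,c_0),...,(0,c_{m-1})) = Σ_{A ∈ X(m,c)} t^{number of nonzero diagonal entries of A}     (*)
by induction on m (inner induction over the columns for the first row; entries are automatically in {-1,0,1} as differences of bits).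
For all bits 0, X(m,0) is the set of symmetric alternating sign matrices (column conditions follow from the row conditions by symmetry).
With t = ε (ε² = 0) the second component counts the A with exactly one nonzero diagonal entry. For m = 2n+1 there is no A with zero
diagonal (the sum of all entries is m, odd, but would be 2·Σ_{i<j} A i j), so `∃ d, ∀ i ≠ d, A i i = 0` means exactly one.
(Instead of polynomials in t one may count separately X₀ = zero diagonal, X₁ = exactly one nonzero diagonal entry.)
-/

set_option autoImplicit false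
set_option maxHeartbeats 4000000

namespace Pool.Agent.H103.OS

variable {R : Type*} [CommRing R]




/-! ### Bits and row conditions -/

/-- the bit as an integer -/
def J2b (x : Bool) : ℤ := if x then 1 else 0

theorem J2b_inj {x y : Bool} (h : J2b x = J2b y) : x = y := by
  revert h; cases x <;> cases y <;> simp [J2b]

theorem J2b_cases (x : Bool) : J2b x = 0 ∨ J2b x = 1 := by
  cases x <;> simp [J2b]

theorem J2b_ex {z : ℤ} (h : z = 0 ∨ z = 1) : ∃ x, J2b x = z := by
  rcases h with rfl | rfl
  · exact ⟨false, rfl⟩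
  · exact ⟨true, rfl⟩

/-- row condition -/
def J2R {m : ℕ} (z : ℤ) (g : Fin m → ℤ) : Prop :=
  (∀ k, z + ∑ j ∈ Finset.Iic k, g j = 0 ∨ z + ∑ j ∈ Finset.Iic k, g j = 1) ∧ z + ∑ j, g j = 1

theorem J2_sum_zero {m : ℕ} (g : Fin (m + 1) → ℤ) : ∑ j ∈ Finset.Iic (0 : Fin (m + 1)), g j = g 0 := by
  have : Finset.Iic (0 : Fin (m + 1)) = {0} := by
    ext j
    simp
  rw [this, Finset.sum_singleton]

theorem J2_sum_succ {m : ℕ} (g : Fin (m + 1) → ℤ) (k : Fin m) :
    ∑ j ∈ Finset.Iic k.succ, g j = g 0 + ∑ j ∈ Finset.Iic k, g j.succ := by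
  have h : ∀ (n : ℕ) (f : Fin n → ℤ) (k : Fin n),
      ∑ j ∈ Finset.Iic k, f j = ∑ j, if j ≤ k then f j else 0 := by
    intro n f k
    rw [← Finset.sum_filter]
    congr 1
    ext j
    simp
  rw [h, h, Fin.sum_univ_succ]
  simp

theorem J2R_succ {m : ℕ} (z : ℤ) (g : Fin (m + 1) → ℤ) :
    J2R z g ↔ (z + g 0 = 0 ∨ z + g 0 = 1) ∧ J2R (z + g 0) (fun j => g j.succ) := by
  unfold J2R
  rw [Fin.forall_fin_succ, J2_sum_zero, Fin.sum_univ_succ]
  simp only [J2_sum_succ, add_assoc, and_assoc]

theorem J2R_zero (z : ℤ) (g : Fin 0 → ℤ) : J2R z g ↔ z = 1 := by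
  unfold J2R
  simp

instance {m : ℕ} (z : ℤ) (g : Fin m → ℤ) : Decidable (J2R z g) := by
  unfold J2R
  infer_instance

/-- the list with parameters zero -/
def J2l (R : Type*) [CommRing R] {m : ℕ} (c : Fin m → Bool) : List (R × Bool) :=
  List.ofFn fun i => ((0 : R), c i)

theorem J2l_succ {m : ℕ} (c : Fin (m + 1) → Bool) :
    J2l R c = ((0 : R), c 0) :: J2l R (fun j => c j.succ) := by
  unfold J2l
  rw [List.ofFn_succ]

theorem J2l_zero (c : Fin 0 → Bool) : J2l R c = [] := by
  unfold J2l
  simp

theorem J2_W (r c r' c' : Bool) : W (0 : R) 0 r c r' c' =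
    if J2b r + (J2b c' - J2b c) = J2b r' then 1 else 0 := by
  cases r <;> cases c <;> cases r' <;> cases c' <;> simp [W, NN, J2b]

theorem J2_K (t : R) (c r : Bool) : K t (0 : R) c r = if J2b r - J2b c = 0 then 1 else t := by
  cases c <;> cases r <;> simp [K, NN, J2b]

theorem J2_row {m : ℕ} : ∀ (f : List (R × Bool) → R) (r : Bool) (c : Fin m → Bool),
    row (0 : R) f r (J2l R c) =
      ∑ c' : Fin m → Bool, if J2R (J2b r) (fun j => J2b (c' j) - J2b (c j)) then f (J2l R c') else 0 := by
  induction m with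
  | zero =>
    intro f r c
    rw [J2l_zero, row, Fintype.sum_unique, J2l_zero]
    simp only [J2R_zero]
    cases r <;> simp [J2b]
  | succ m ih =>
    intro f r c
    rw [J2l_succ, row]
    simp only [ih]
    rw [← (Fin.consEquiv (fun _ : Fin (m + 1) => Bool)).sum_comp, Fintype.sum_prod_type,
      Finset.sum_comm]
    refine Finset.sum_congr rfl fun c0 _ => ?_
    simp only [J2_W, Finset.mul_sum]
    rw [Finset.sum_comm]
    refine Finset.sum_congr rfl fun c' _ => ?_
    simp only [Fin.consEquiv_apply, J2R_succ, Fin.cons_zero, Fin.cons_succ, J2l_succ]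
    by_cases h : J2b r + (J2b c0 - J2b (c 0)) = 0 ∨ J2b r + (J2b c0 - J2b (c 0)) = 1
    · obtain ⟨x, hx⟩ := J2b_ex h
      rw [Finset.sum_eq_single x]
      · rw [if_pos hx.symm, one_mul, ← hx]
        have : J2b x = 0 ∨ J2b x = 1 := J2b_cases x
        simp only [this, true_and]
      · intro y _ hy
        rw [if_neg (fun h' => hy (J2b_inj (h'.symm.trans hx.symm))), zero_mul]
      · simp
    · rw [if_neg (fun h' => h h'.1)]
      refine Finset.sum_eq_zero fun y _ => ?_
      rw [if_neg (fun h' => h (by rw [h']; exact J2b_cases y)), zero_mul]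

/-! ### The matrices -/

/-- symmetric matrices with the row conditions -/
def J2X {m : ℕ} (c : Fin m → Bool) (A : Matrix (Fin m) (Fin m) ℤ) : Prop :=
  (∀ i j, A i j = A j i) ∧ ∀ i, J2R (J2b (c i)) (A i)

/-- the matrix with given first row and submatrix -/
def J2mk {m : ℕ} (c : Fin (m + 1) → Bool)
    (x : (_ : Bool × (Fin m → Bool)) × Matrix (Fin m) (Fin m) ℤ) :
    Matrix (Fin (m + 1)) (Fin (m + 1)) ℤ := fun i j =>
  Fin.cases (motive := fun _ => ℤ)
    (Fin.cases (motive := fun _ => ℤ) (J2b x.1.1 - J2b (c 0))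
      (fun j => J2b (x.1.2 j) - J2b (c j.succ)) j)
    (fun i => Fin.cases (motive := fun _ => ℤ) (J2b (x.1.2 i) - J2b (c i.succ))
      (fun j => x.2 i j) j) i

theorem J2mk_inj {m : ℕ} (c : Fin (m + 1) → Bool) : Function.Injective (J2mk c) := by
  rintro ⟨⟨r, d⟩, A⟩ ⟨⟨r', d'⟩, A'⟩ h
  have h1 : r = r' := by
    have := congrFun (congrFun h 0) 0
    simp only [J2mk, Fin.cases_zero] at this
    exact J2b_inj (by linarith)
  have h2 : d = d' := by
    funext j
    have := congrFun (congrFun h 0) j.succ
    simp only [J2mk, Fin.cases_zero, Fin.cases_succ] at this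
    exact J2b_inj (by linarith)
  have h3 : A = A' := by
    funext i j
    have := congrFun (congrFun h i.succ) j.succ
    simpa only [J2mk, Fin.cases_succ] using this
  subst h1 h2 h3
  rfl

/-- the finite set of the matrices -/
def J2F : (m : ℕ) → (Fin m → Bool) → Finset (Matrix (Fin m) (Fin m) ℤ)
  | 0, _ => {0}
  | m + 1, c => (Finset.sigma (Finset.univ : Finset (Bool × (Fin m → Bool)))
      (fun x => if J2R (J2b x.1) (fun j => J2b (x.2 j) - J2b (c j.succ)) then J2F m x.2
        else ∅)).map ⟨J2mk c, J2mk_inj c⟩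

theorem mem_J2F {m : ℕ} : ∀ (c : Fin m → Bool) (A : Matrix (Fin m) (Fin m) ℤ),
    A ∈ J2F m c ↔ J2X c A := by
  induction m with
  | zero =>
    intro c A
    have : A = 0 := by
      funext i
      exact i.elim0
    subst this
    simp [J2F, J2X]
  | succ m ih =>
    intro c A
    simp only [J2F, Finset.mem_map, Finset.mem_sigma, Finset.mem_univ, true_and,
      Function.Embedding.coeFn_mk]
    constructor
    · rintro ⟨⟨⟨r, d⟩, B⟩, h, rfl⟩
      simp only at h
      by_cases h1 : J2R (J2b r) (fun j => J2b (d j) - J2b (c j.succ))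
      · rw [if_pos h1, ih] at h
        refine ⟨fun i j => ?_, fun i => ?_⟩
        · refine Fin.cases ?_ (fun i => ?_) i
          · refine Fin.cases ?_ (fun j => ?_) j
            · rfl
            · simp [J2mk]
          · refine Fin.cases ?_ (fun j => ?_) j
            · simp [J2mk]
            · simpa [J2mk] using h.1 i j
        · rw [J2R_succ]
          refine Fin.cases ?_ (fun i => ?_) i
          · simp only [J2mk, Fin.cases_zero, Fin.cases_succ, add_sub_cancel]
            exact ⟨J2b_cases r, h1⟩
          · simp only [J2mk, Fin.cases_zero, Fin.cases_succ, add_sub_cancel]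
            exact ⟨J2b_cases (d i), h.2 i⟩
      · rw [if_neg h1] at h
        simp at h
    · rintro ⟨h1, h2⟩
      have h3 := fun i => (J2R_succ _ _).1 (h2 i)
      obtain ⟨r, hr⟩ := J2b_ex (h3 0).1
      choose d hd using fun i : Fin m => J2b_ex (h3 i.succ).1
      refine ⟨⟨⟨r, d⟩, fun i j => A i.succ j.succ⟩, ?_, ?_⟩
      · simp only
        rw [if_pos]
        · refine (ih d _).2 ⟨fun i j => h1 _ _, fun i => ?_⟩
          rw [hd]
          exact (h3 i.succ).2
        · rw [hr]
          have : (fun j => J2b (d j) - J2b (c j.succ)) = fun j : Fin m => A 0 j.succ := by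
            funext j
            rw [hd, h1 j.succ 0]
            ring
          rw [this]
          exact (h3 0).2
      · funext i j
        refine Fin.cases ?_ (fun i => ?_) i
        · refine Fin.cases ?_ (fun j => ?_) j
          · simp only [J2mk, Fin.cases_zero]
            rw [hr]
            ring
          · simp only [J2mk, Fin.cases_zero, Fin.cases_succ]
            rw [hd, h1 j.succ 0]
            ring
        · refine Fin.cases ?_ (fun j => ?_) j
          · simp only [J2mk, Fin.cases_zero, Fin.cases_succ]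
            rw [hd]
            ring
          · simp only [J2mk, Fin.cases_succ]

/-- the weight of a matrix -/
def J2w (t : R) {m : ℕ} (A : Matrix (Fin m) (Fin m) ℤ) : R := ∏ i, if A i i = 0 then 1 else t

theorem J2_Z (t : R) {m : ℕ} : ∀ c : Fin m → Bool, Z t m (J2l R c) = ∑ A ∈ J2F m c, J2w t A := by
  induction m with
  | zero =>
    intro c
    simp [Z, J2F, J2w]
  | succ m ih =>
    intro c
    rw [J2l_succ, Z]
    simp only [J2_row, ih]
    rw [J2F, Finset.sum_map, Finset.sum_sigma, Fintype.sum_prod_type]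
    refine Finset.sum_congr rfl fun r _ => ?_
    rw [Finset.mul_sum]
    refine Finset.sum_congr rfl fun d _ => ?_
    simp only [Function.Embedding.coeFn_mk]
    by_cases h : J2R (J2b r) (fun j => J2b (d j) - J2b (c j.succ))
    · rw [if_pos h, if_pos h, Finset.mul_sum]
      refine Finset.sum_congr rfl fun A _ => ?_
      rw [J2_K, J2w, J2w, Fin.prod_univ_succ]
      simp only [J2mk, Fin.cases_zero, Fin.cases_succ]
      rfl
    · rw [if_neg h, if_neg h]
      simp


theorem J2_snd {m : ℕ} (A : Matrix (Fin m) (Fin m) ℤ) :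
    TrivSqZeroExt.snd (J2w (DualNumber.eps : DualNumber ℤ) A) =
      if (Finset.univ.filter fun i => ¬ A i i = 0).card = 1 then 1 else 0 := by
  unfold J2w
  rw [Finset.prod_ite, Finset.prod_const_one, one_mul, Finset.prod_const]
  generalize (Finset.univ.filter fun i => ¬ A i i = 0).card = k
  match k with
  | 0 => simp
  | 1 => simp
  | k + 2 => 
    rw [pow_add, pow_two, DualNumber.eps_mul_eps, mul_zero]
    simp

theorem J2_entries {m : ℕ} (A : Matrix (Fin m) (Fin m) ℤ)
    (h : ∀ i k, (∑ j ∈ Finset.Iic k, A i j) = 0 ∨ (∑ j ∈ Finset.Iic k, A i j) = 1) :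
    ∀ i j, A i j = -1 ∨ A i j = 0 ∨ A i j = 1 := by
  intro i j
  have h1 := h i j
  have h2 : (∑ k ∈ Finset.Iio j, A i k) = 0 ∨ (∑ k ∈ Finset.Iio j, A i k) = 1 := by
    rcases m with _ | m
    · exact j.elim0
    · refine Fin.cases ?_ (fun j => ?_) j
      · left
        have : Finset.Iio (0 : Fin (m + 1)) = ∅ := by
          ext k
          simp
        rw [this, Finset.sum_empty]
      · have : Finset.Iio j.succ = Finset.Iic j.castSucc := by
          ext k
          simp [Fin.le_castSucc_iff]
        rw [this]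
        exact h i _
  have h3 : ∑ k ∈ Finset.Iic j, A i k = A i j + ∑ k ∈ Finset.Iio j, A i k := by
    rw [← Finset.Iio_insert, Finset.sum_insert (by simp)]
  omega

theorem J2_parity {n : ℕ} (A : Matrix (Fin (2 * n + 1)) (Fin (2 * n + 1)) ℤ)
    (h1 : ∀ i j, A i j = A j i) (h2 : ∀ i, (∑ j, A i j) = 1) (h3 : ∀ i, A i i = 0) : False := by
  have e1 : (∑ i, ∑ j, (A i j : ZMod 2)) = 0 := by
    rw [← Fintype.sum_prod_type' (f := fun i j => (A i j : ZMod 2))]
    refine Finset.sum_involution (fun x _ => (x.2, x.1)) ?_ ?_ ?_ ?_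
    · rintro ⟨i, j⟩ _
      simp only
      rw [h1 j i]
      exact CharTwo.add_self_eq_zero _
    · rintro ⟨i, j⟩ _ h4 h5
      simp only [Prod.mk.injEq] at h5
      apply h4
      rw [h5.1, h3]
      simp
    · intro _ _
      exact Finset.mem_univ _
    · intro _ _
      rfl
  have e2 : (∑ i, ∑ j, (A i j : ZMod 2)) = ((∑ i, ∑ j, A i j : ℤ) : ZMod 2) := by
    push_cast
    rfl
  rw [e2] at e1
  simp only [h2] at e1
  rw [Finset.sum_const, Finset.card_univ, Fintype.card_fin, nsmul_eq_mul, mul_one] at e1
  push_cast at e1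
  have : (2 : ZMod 2) = 0 := by decide
  rw [this] at e1
  simp at e1

theorem J2_Z0 (t : R) (m : ℕ) : Z0 t (List.replicate m (0 : R)) =
    Z t m (J2l R (fun _ : Fin m => false)) := by
  unfold Z0 J2l
  rw [List.length_replicate, List.map_replicate, List.ofFn_const]

/-- TARGET -/
theorem count_eq (n : ℕ) :
    ((Nat.card {A : Matrix (Fin (2 * n + 1)) (Fin (2 * n + 1)) ℤ //
          (∀ i j, A i j = -1 ∨ A i j = 0 ∨ A i j = 1) ∧
          (∀ i k, (∑ j ∈ Finset.Iic k, A i j) = 0 ∨ (∑ j ∈ Finset.Iic k, A i j) = 1) ∧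
          (∀ i, (∑ j, A i j) = 1) ∧
          (∀ j k, (∑ i ∈ Finset.Iic k, A i j) = 0 ∨ (∑ i ∈ Finset.Iic k, A i j) = 1) ∧
          (∀ j, (∑ i, A i j) = 1) ∧
          (∀ i j, A i j = A j i) ∧
          (∃ d : Fin (2 * n + 1), ∀ i, i ≠ d → A i i = 0)} : ℕ) : ℤ)
      = TrivSqZeroExt.snd (Z0 (DualNumber.eps : DualNumber ℤ) (List.replicate (2 * n + 1) 0)) := by
  rw [J2_Z0, J2_Z, TrivSqZeroExt.snd_sum]
  have h1 : ∀ A : Matrix (Fin (2 * n + 1)) (Fin (2 * n + 1)) ℤ,
      TrivSqZeroExt.snd (J2w (DualNumber.eps : DualNumber ℤ) A) =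
        if (Finset.univ.filter fun i => ¬ A i i = 0).card = 1 then 1 else 0 := J2_snd
  simp only [h1]
  rw [Finset.sum_ite, Finset.sum_const_zero, add_zero, Finset.sum_const, nsmul_eq_mul, mul_one]
  congr 1
  refine Nat.subtype_card _ fun A => ?_
  rw [Finset.mem_filter, mem_J2F]
  constructor
  · rintro ⟨⟨h2, h3⟩, h4⟩
    have h5 : ∀ i k, (∑ j ∈ Finset.Iic k, A i j) = 0 ∨ (∑ j ∈ Finset.Iic k, A i j) = 1 := by
      intro i k
      have := (h3 i).1 k
      simpa [J2b] using this
    have h6 : ∀ i, (∑ j, A i j) = 1 := by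
      intro i
      have := (h3 i).2
      simpa [J2b] using this
    refine ⟨J2_entries A h5, h5, h6, fun j k => ?_, fun j => ?_, h2, ?_⟩
    · have := h5 j k
      simpa only [h2 j] using this
    · have := h6 j
      simpa only [h2 j] using this
    · rw [Finset.card_eq_one] at h4
      obtain ⟨d, hd⟩ := h4
      refine ⟨d, fun i hi => ?_⟩
      by_contra h7
      have h8 : i ∈ Finset.univ.filter fun i => ¬ A i i = 0 := by simp [h7]
      rw [hd, Finset.mem_singleton] at h8
      exact hi h8
  · rintro ⟨-, h2, h3, -, -, h4, d, hd⟩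
    refine ⟨⟨h4, fun i => ⟨fun k => ?_, ?_⟩⟩, ?_⟩
    · simpa [J2b] using h2 i k
    · simpa [J2b] using h3 i
    · have h5 : (Finset.univ.filter fun i => ¬ A i i = 0) = {d} := by
        ext i
        rw [Finset.mem_filter, Finset.mem_singleton]
        constructor
        · rintro ⟨-, h6⟩
          by_contra h7
          exact h6 (hd i h7)
        · rintro rfl
          refine ⟨Finset.mem_univ _, fun h6 => ?_⟩
          refine J2_parity A h4 h3 fun j => ?_
          by_cases h7 : j = i
          · rw [h7]; exact h6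
          · exact hd j h7
      rw [h5, Finset.card_singleton]

end Pool.Agent.H103.OS
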