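import Mathlib

/-!
JOB J5 (MP_d12cfa_co, frozen S11587): a determinant and its limit as t → 1.

PLAIN WORDS. Let μ : Fin (N+1) → ℤ and w : Fin (N+1) → ℝ be arbitrary, z_i = t^(i+1) for i < N. Expand the (N+1)×(N+1) determinant with rows
(z_i^{μ_k} - z_i^{-μ_k})_k, i < N, and last row w along the last row. The minor without column k is
det[t^{(i+1) μ_l} - t^{-(i+1) μ_l}]_{i<N, l≠k} = ∏_{l≠k} (t^{μ_l} - t^{-μ_l}) ∏_{l<l', ≠k} (T_{l'} - T_l), T_l = t^{μ_l} + t^{-μ_l}: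
y^{i+1} - y^{-(i+1)} = (y - y⁻¹) U_i(y + y⁻¹) with U_i monic of degree i (Chebyshev), and det [U_i(T_l)] is the Vandermonde determinant
(Mathlib: Matrix.det_eval_matrixOfPolynomials_eq_det_vandermonde, Matrix.det_vandermonde).
As t → 1: (t^m - t^{-m})/(t-1) → 2m and (t^a + t^{-a} - t^b - t^{-b})/(t-1)² → a² - b²  (t^a+t^{-a}-t^b-t^{-b} = t^{-a} (t^{a-b} - 1)(t^{a+b} - 1)).
Numerator and denominator have the same number of factors of each kind.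
`sa k = Fin.succAbove k : Fin N → Fin (N+1)` enumerates the l ≠ k in increasing order.
-/

set_option autoImplicit false
set_option maxHeartbeats 4000000

open Filter Topology

namespace Pool.Agent.H103.OS

/-- monic polynomials with `(y - y⁻¹) U_n (y + y⁻¹) = y^(n+1) - y^(-(n+1))` -/
noncomputable def J5U : ℕ → Polynomial ℝ
  | 0 => 1
  | 1 => Polynomial.X
  | n + 2 => Polynomial.X * J5U (n + 1) - J5U n

theorem J5U_deg : ∀ n, (J5U n).natDegree = n ∧ (J5U n).Monic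
  | 0 => by simp [J5U, Polynomial.monic_one]
  | 1 => by simp [J5U, Polynomial.monic_X]
  | n + 2 => by
    obtain ⟨h1, h2⟩ := J5U_deg n
    obtain ⟨h3, h4⟩ := J5U_deg (n + 1)
    have h5 : (Polynomial.X * J5U (n + 1)).Monic := Polynomial.monic_X.mul h4
    have h6 : (Polynomial.X * J5U (n + 1)).natDegree = n + 2 := by
      rw [Polynomial.monic_X.natDegree_mul h4, h3, Polynomial.natDegree_X]
      ring
    have h7 : (J5U n).degree < (Polynomial.X * J5U (n + 1)).degree := by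
      rw [Polynomial.degree_eq_natDegree h2.ne_zero, Polynomial.degree_eq_natDegree h5.ne_zero,
        h1, h6]
      exact_mod_cast Nat.lt_add_of_pos_right (by norm_num)
    refine ⟨?_, ?_⟩
    · rw [J5U, Polynomial.natDegree_sub_eq_left_of_natDegree_lt, h6]
      rw [h1, h6]
      omega
    · rw [J5U]
      exact h5.sub_of_left h7

theorem J5U_eval (y : ℝ) (hy : y ≠ 0) : ∀ n, (y - y⁻¹) * (J5U n).eval (y + y⁻¹) =
    y ^ (n + 1) - (y⁻¹) ^ (n + 1)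
  | 0 => by simp [J5U]
  | 1 => by
    simp only [J5U, Polynomial.eval_X]
    ring
  | n + 2 => by
    have h1 := J5U_eval y hy n
    have h2 := J5U_eval y hy (n + 1)
    have h3 : y * y⁻¹ = 1 := mul_inv_cancel₀ hy
    rw [J5U, Polynomial.eval_sub, Polynomial.eval_mul, Polynomial.eval_X, mul_sub, h1]
    have h4 : (y - y⁻¹) * ((y + y⁻¹) * (J5U (n + 1)).eval (y + y⁻¹)) =
        (y + y⁻¹) * ((y - y⁻¹) * (J5U (n + 1)).eval (y + y⁻¹)) := by ring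
    rw [h4, h2]
    have h5 : y⁻¹ * y ^ (n + 1 + 1) = y ^ (n + 1) := by
      rw [pow_succ y (n + 1), mul_comm (y ^ (n + 1)) y, ← mul_assoc, inv_mul_cancel₀ hy, one_mul]
    have h6 : y * y⁻¹ ^ (n + 1 + 1) = y⁻¹ ^ (n + 1) := by
      rw [pow_succ y⁻¹ (n + 1), mul_comm (y⁻¹ ^ (n + 1)) y⁻¹, ← mul_assoc, h3, one_mul]
    have h7 : y ^ (n + 2 + 1) = y * y ^ (n + 1 + 1) := by ring
    have h8 : y⁻¹ ^ (n + 2 + 1) = y⁻¹ * y⁻¹ ^ (n + 1 + 1) := by ring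
    rw [h7, h8]
    linear_combination h5 - h6

/-- the product formula -/
noncomputable def J5P {N : ℕ} (y : Fin N → ℝ) : ℝ :=
  (∏ l, (y l - (y l)⁻¹)) * ∏ l, ∏ l' ∈ Finset.Ioi l, ((y l' + (y l')⁻¹) - (y l + (y l)⁻¹))

theorem J5_det {N : ℕ} (y : Fin N → ℝ) (hy : ∀ l, y l ≠ 0) :
    Matrix.det (Matrix.of fun i l : Fin N => y l ^ ((i : ℕ) + 1) - (y l)⁻¹ ^ ((i : ℕ) + 1)) =
      J5P y := by
  have h1 : (Matrix.of fun i l : Fin N => y l ^ ((i : ℕ) + 1) - (y l)⁻¹ ^ ((i : ℕ) + 1)) =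
      Matrix.of fun i l : Fin N => (y l - (y l)⁻¹) *
        (Matrix.of fun i l : Fin N => (J5U i).eval (y l + (y l)⁻¹)) i l := by
    ext i l
    simp only [Matrix.of_apply]
    rw [J5U_eval _ (hy l)]
  rw [h1, Matrix.det_mul_row]
  unfold J5P
  congr 1
  rw [← Matrix.det_transpose]
  have h2 := Matrix.det_eval_matrixOfPolynomials_eq_det_vandermonde (R := ℝ)
    (fun l : Fin N => y l + (y l)⁻¹) (fun i : Fin N => J5U i) (fun i => (J5U_deg i).1)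
    (fun i => (J5U_deg i).2)
  rw [Matrix.det_vandermonde] at h2
  rw [h2]
  rfl

/-- the limit of the product -/
noncomputable def J5Q {N : ℕ} (ν : Fin N → ℤ) : ℝ :=
  (∏ l, (2 * (ν l : ℝ))) * ∏ l, ∏ l' ∈ Finset.Ioi l, ((ν l' : ℝ) ^ 2 - (ν l : ℝ) ^ 2)

/-- the normalizing factor -/
noncomputable def J5D (N : ℕ) (t : ℝ) : ℝ :=
  (∏ _l : Fin N, (t - 1)) * ∏ l : Fin N, ∏ _l' ∈ Finset.Ioi l, (t - 1) ^ 2

theorem J5_lim1 (c : ℤ) : Tendsto (fun t : ℝ => (t ^ c - 1) / (t - 1)) (𝓝[≠] 1) (𝓝 (c : ℝ)) := by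
  have h := (hasDerivAt_zpow c (1 : ℝ) (Or.inl one_ne_zero))
  rw [one_zpow, mul_one, hasDerivAt_iff_tendsto_slope] at h
  refine h.congr fun t => ?_
  rw [slope_def_field, one_zpow]

theorem J5_lim2 (c : ℤ) :
    Tendsto (fun t : ℝ => (t ^ c - (t ^ c)⁻¹) / (t - 1)) (𝓝[≠] 1) (𝓝 (2 * (c : ℝ))) := by
  have h1 := J5_lim1 c
  have h2 := J5_lim1 (-c)
  have h3 := h1.sub h2
  have h4 : (c : ℝ) - ((-c : ℤ) : ℝ) = 2 * (c : ℝ) := by push_cast; ring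
  rw [h4] at h3
  refine h3.congr fun t => ?_
  rw [zpow_neg]
  ring

theorem J5_lim3 (a b : ℤ) :
    Tendsto (fun t : ℝ => ((t ^ a + (t ^ a)⁻¹) - (t ^ b + (t ^ b)⁻¹)) / (t - 1) ^ 2) (𝓝[≠] 1)
      (𝓝 ((a : ℝ) ^ 2 - (b : ℝ) ^ 2)) := by
  have h1 := J5_lim1 (a - b)
  have h2 := J5_lim1 (a + b)
  have h0 : Tendsto (fun t : ℝ => (t ^ a)⁻¹) (𝓝[≠] 1) (𝓝 1) := by
    have h := (hasDerivAt_zpow a (1 : ℝ) (Or.inl one_ne_zero)).continuousAt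
    have h' : Tendsto (fun t : ℝ => t ^ a) (𝓝[≠] 1) (𝓝 1) := by
      have := h.tendsto
      rw [one_zpow] at this
      exact this.mono_left nhdsWithin_le_nhds
    have := h'.inv₀ one_ne_zero
    rwa [inv_one] at this
  have h3 := (h0.mul h1).mul h2
  have h4 : (1 : ℝ) * ((a - b : ℤ) : ℝ) * ((a + b : ℤ) : ℝ) = (a : ℝ) ^ 2 - (b : ℝ) ^ 2 := by
    push_cast; ring
  rw [h4] at h3
  refine h3.congr' ?_
  have h5 : ∀ᶠ t : ℝ in 𝓝[≠] 1, t ≠ 0 :=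
    (eventually_ne_nhds one_ne_zero).filter_mono nhdsWithin_le_nhds
  filter_upwards [h5] with t ht
  have e1 : t ^ (a - b) = t ^ a * (t ^ b)⁻¹ := by rw [zpow_sub₀ ht, div_eq_mul_inv]
  have e2 : t ^ (a + b) = t ^ a * t ^ b := zpow_add₀ ht a b
  have e3 : t ^ a ≠ 0 := zpow_ne_zero _ ht
  have e4 : t ^ b ≠ 0 := zpow_ne_zero _ ht
  rw [e1, e2]
  have e5 : (t ^ a)⁻¹ * (t ^ a * (t ^ b)⁻¹ - 1) * (t ^ a * t ^ b - 1) =
      ((t ^ a + (t ^ a)⁻¹) - (t ^ b + (t ^ b)⁻¹)) := by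
    field_simp
    ring
  rw [← e5, div_eq_mul_inv, div_eq_mul_inv, div_eq_mul_inv, ← inv_pow]
  ring

theorem J5_limP {N : ℕ} (ν : Fin N → ℤ) :
    Tendsto (fun t : ℝ => J5P (fun l => t ^ ν l) / J5D N t) (𝓝[≠] 1) (𝓝 (J5Q ν)) := by
  have h1 : Tendsto (fun t : ℝ => (∏ l, ((t ^ ν l - (t ^ ν l)⁻¹) / (t - 1))) *
      ∏ l, ∏ l' ∈ Finset.Ioi l,
        (((t ^ ν l' + (t ^ ν l')⁻¹) - (t ^ ν l + (t ^ ν l)⁻¹)) / (t - 1) ^ 2)) (𝓝[≠] 1)
      (𝓝 (J5Q ν)) := by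
    unfold J5Q
    refine Tendsto.mul ?_ ?_
    · exact tendsto_finsetProd _ fun l _ => J5_lim2 (ν l)
    · exact tendsto_finsetProd _ fun l _ => tendsto_finsetProd _ fun l' _ =>
        J5_lim3 (ν l') (ν l)
  refine h1.congr fun t => ?_
  unfold J5P J5D
  simp only [Finset.prod_div_distrib]
  rw [div_mul_div_comm]

theorem J5D_ne {N : ℕ} {t : ℝ} (ht : t ≠ 1) : J5D N t ≠ 0 := by
  have h := sub_ne_zero.2 ht
  unfold J5D
  refine mul_ne_zero (Finset.prod_ne_zero_iff.2 fun _ _ => h)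
    (Finset.prod_ne_zero_iff.2 fun _ _ => Finset.prod_ne_zero_iff.2 fun _ _ => pow_ne_zero _ h)

theorem J5Q_ne (N : ℕ) : J5Q (fun i : Fin N => (((i : ℕ) + 1 : ℕ) : ℤ)) ≠ 0 := by
  unfold J5Q
  refine mul_ne_zero (Finset.prod_ne_zero_iff.2 fun i _ => ?_)
    (Finset.prod_ne_zero_iff.2 fun i _ => Finset.prod_ne_zero_iff.2 fun j hj => ?_)
  · push_cast
    positivity
  · have h0 : i < j := Finset.mem_Ioi.1 hj
    have h1 : (i : ℕ) < (j : ℕ) := h0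
    have h2 : ((i : ℕ) : ℝ) < ((j : ℕ) : ℝ) := by exact_mod_cast h1
    have h3 : (0 : ℝ) ≤ ((i : ℕ) : ℝ) := Nat.cast_nonneg _
    push_cast
    nlinarith

theorem J5_mat {N : ℕ} (μ : Fin (N + 1) → ℤ) (w : Fin (N + 1) → ℝ) (t : ℝ) (ht : t ≠ 0) :
    Matrix.det (Matrix.of (fun (i k : Fin (N + 1)) =>
        if (i : ℕ) < N then (t ^ ((i : ℕ) + 1)) ^ (μ k) - (t ^ ((i : ℕ) + 1)) ^ (-(μ k)) else w k)) =
      ∑ k : Fin (N + 1), (-1) ^ ((k : ℕ) + N) * w k *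
        J5P (fun l : Fin N => t ^ (μ (k.succAbove l))) := by
  rw [Matrix.det_succ_row _ (Fin.last N)]
  refine Finset.sum_congr rfl fun k _ => ?_
  have h1 : ((Matrix.of (fun (i k : Fin (N + 1)) =>
        if (i : ℕ) < N then (t ^ ((i : ℕ) + 1)) ^ (μ k) - (t ^ ((i : ℕ) + 1)) ^ (-(μ k))
        else w k)).submatrix (Fin.last N).succAbove k.succAbove) =
      Matrix.of fun i l : Fin N => (t ^ (μ (k.succAbove l))) ^ ((i : ℕ) + 1) -
        (t ^ (μ (k.succAbove l)))⁻¹ ^ ((i : ℕ) + 1) := by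
    ext i l
    simp only [Matrix.submatrix_apply, Matrix.of_apply, Fin.succAbove_last, Fin.val_castSucc,
      i.isLt, if_true]
    rw [zpow_neg, inv_pow, ← zpow_natCast (t ^ μ (k.succAbove l)), ← zpow_mul,
      ← zpow_natCast t, ← zpow_mul, mul_comm]
  rw [h1, J5_det _ fun l => zpow_ne_zero _ ht]
  simp only [Matrix.of_apply, Fin.val_last, lt_irrefl, if_false]
  rw [add_comm N]

/-- TARGET -/
theorem lim_det (N : ℕ) (μ : Fin (N + 1) → ℤ) (w : Fin (N + 1) → ℝ) :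
    Tendsto (fun t : ℝ =>
      Matrix.det (Matrix.of (fun (i k : Fin (N + 1)) =>
        if (i : ℕ) < N then (t ^ ((i : ℕ) + 1)) ^ (μ k) - (t ^ ((i : ℕ) + 1)) ^ (-(μ k)) else w k)) /
      ((∏ i : Fin N, (t ^ ((i : ℕ) + 1) - (t ^ ((i : ℕ) + 1))⁻¹)) *
        ∏ i : Fin N, ∏ j ∈ Finset.Ioi i,
          ((t ^ ((j : ℕ) + 1) + (t ^ ((j : ℕ) + 1))⁻¹) - (t ^ ((i : ℕ) + 1) + (t ^ ((i : ℕ) + 1))⁻¹))))
      (𝓝[>] 1)
      (𝓝 ((∑ k : Fin (N + 1), (-1) ^ ((k : ℕ) + N) * w k *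
          ((∏ l : Fin N, (2 * (μ (k.succAbove l) : ℝ))) *
            ∏ l : Fin N, ∏ l' ∈ Finset.Ioi l,
              ((μ (k.succAbove l') : ℝ) ^ 2 - (μ (k.succAbove l) : ℝ) ^ 2))) /
        ((∏ i : Fin N, (2 * ((i : ℕ) + 1 : ℝ))) *
          ∏ i : Fin N, ∏ j ∈ Finset.Ioi i, (((j : ℕ) + 1 : ℝ) ^ 2 - ((i : ℕ) + 1 : ℝ) ^ 2)))) := by
  have h0 : ∀ t : ℝ, ((∏ i : Fin N, (t ^ ((i : ℕ) + 1) - (t ^ ((i : ℕ) + 1))⁻¹)) *
        ∏ i : Fin N, ∏ j ∈ Finset.Ioi i,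
          ((t ^ ((j : ℕ) + 1) + (t ^ ((j : ℕ) + 1))⁻¹) -
            (t ^ ((i : ℕ) + 1) + (t ^ ((i : ℕ) + 1))⁻¹))) =
      J5P (fun i : Fin N => t ^ (((i : ℕ) + 1 : ℕ) : ℤ)) := by
    intro t
    unfold J5P
    simp only [zpow_natCast]
  have h1 : (∏ i : Fin N, (2 * ((i : ℕ) + 1 : ℝ))) *
          ∏ i : Fin N, ∏ j ∈ Finset.Ioi i, (((j : ℕ) + 1 : ℝ) ^ 2 - ((i : ℕ) + 1 : ℝ) ^ 2) =
      J5Q (fun i : Fin N => (((i : ℕ) + 1 : ℕ) : ℤ)) := by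
    unfold J5Q
    push_cast
    rfl
  rw [h1]
  simp only [h0]
  have h2 : Tendsto (fun t : ℝ => (∑ k : Fin (N + 1), (-1) ^ ((k : ℕ) + N) * w k *
        (J5P (fun l : Fin N => t ^ (μ (k.succAbove l))) / J5D N t)) /
      (J5P (fun i : Fin N => t ^ (((i : ℕ) + 1 : ℕ) : ℤ)) / J5D N t)) (𝓝[≠] 1)
      (𝓝 ((∑ k : Fin (N + 1), (-1) ^ ((k : ℕ) + N) * w k *
        J5Q (fun l : Fin N => μ (k.succAbove l))) /
        J5Q (fun i : Fin N => (((i : ℕ) + 1 : ℕ) : ℤ)))) := by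
    refine Tendsto.div (tendsto_finsetSum _ fun k _ => Tendsto.const_mul _ ?_) ?_ (J5Q_ne N)
    · exact J5_limP _
    · exact J5_limP _
  have h3 : 𝓝[>] (1 : ℝ) ≤ 𝓝[≠] 1 := nhdsWithin_mono _ fun t ht => ne_of_gt ht
  have h4 := h2.mono_left h3
  refine Tendsto.congr' ?_ h4
  filter_upwards [self_mem_nhdsWithin] with t ht
  have ht1 : (1 : ℝ) < t := ht
  have ht0 : t ≠ 0 := by positivity
  have hD := J5D_ne (N := N) (ne_of_gt ht1)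
  rw [J5_mat μ w t ht0, div_div_eq_mul_div]
  congr 1
  rw [Finset.sum_mul]
  refine Finset.sum_congr rfl fun k _ => ?_
  field_simp

end Pool.Agent.H103.OS
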