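import Mathlib

set_option autoImplicit false
set_option maxHeartbeats 4000000

namespace Pool.Agent.H103.OS

/-! ### the hypergeometric sum -/

/-- the product of the shifted arguments -/
noncomputable def j6P (a : ℝ) (N k : ℕ) : ℝ := ∏ l ∈ Finset.range (N + 1), ((k : ℝ) + l + a)

theorem j6P_ne (a : ℝ) (ha : ∀ j : ℕ, a + j ≠ 0) (N k : ℕ) : j6P a N k ≠ 0 := by
  unfold j6P
  rw [Finset.prod_ne_zero_iff]
  intro l _
  have := ha (k + l)
  push_cast at this
  intro h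
  apply this
  linarith

theorem j6P_succ (a : ℝ) (N k : ℕ) : j6P a (N + 1) k = j6P a N k * ((k : ℝ) + N + 1 + a) := by
  unfold j6P
  rw [Finset.prod_range_succ]
  congr 1
  push_cast
  ring

theorem j6P_shift (a : ℝ) (N k : ℕ) :
    j6P a N (k + 1) * ((k : ℝ) + a) = j6P a N k * ((k : ℝ) + N + 1 + a) := by
  rw [← j6P_succ]
  unfold j6P
  rw [Finset.prod_range_succ' _ (N + 1)]
  congr 1
  · apply Finset.prod_congr rfl
    intro l _
    push_cast
    ring
  · simp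

/-- binomial coefficient with shifted lower index -/
def j6c (N : ℕ) : ℕ → ℕ
  | 0 => 0
  | k + 1 => N.choose k

theorem j6c_rel (N k : ℕ) : ((N : ℝ) + 1 - k) * j6c N k = k * N.choose k := by
  rcases k with _ | k
  · simp [j6c]
  · simp only [j6c]
    have h := Nat.choose_succ_right_eq N k
    rcases le_or_gt k N with hk | hk
    · have h2 : ((N.choose (k + 1) : ℕ) : ℝ) * (k + 1) = N.choose k * ((N : ℝ) - k) := by
        have := congrArg (fun x : ℕ => (x : ℝ)) h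
        push_cast [Nat.cast_sub hk] at this
        exact this
      push_cast
      linarith
    · rw [Nat.choose_eq_zero_of_lt hk, Nat.choose_eq_zero_of_lt (by omega)]
      simp

theorem j6c_add (N k : ℕ) : (N + 1).choose k = N.choose k + j6c N k := by
  rcases k with _ | k
  · simp [j6c]
  · simp only [j6c]
    rw [Nat.choose_succ_succ]
    ring

theorem j6_tel (a : ℝ) (ha : ∀ j : ℕ, a + j ≠ 0) (N k : ℕ) :
    (1 + a + 2 * N) / 2 * (((N + 1).choose k : ℝ) * (2 * k + a) / j6P a (N + 1) k) -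
      (N.choose k : ℝ) * (2 * k + a) / j6P a N k =
    -((j6c N (k + 1) : ℝ) * (2 * ((k + 1 : ℕ) : ℝ) + a - 1) / (2 * j6P a N (k + 1))) -
      -((j6c N k : ℝ) * (2 * (k : ℝ) + a - 1) / (2 * j6P a N k)) := by
  have h1 := j6P_ne a ha N k
  have h2 : (k : ℝ) + N + 1 + a ≠ 0 := by
    have := ha (k + N + 1)
    push_cast at this
    intro h
    apply this
    linarith
  have h3 : (k : ℝ) + a ≠ 0 := by
    have := ha k
    intro h
    apply this
    linarith
  have h4 : j6P a N (k + 1) = j6P a N k * ((k : ℝ) + N + 1 + a) / ((k : ℝ) + a) := by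
    rw [← j6P_shift]
    field_simp
  have h5 := j6c_rel N k
  have h6 : j6c N (k + 1) = N.choose k := rfl
  rw [h4, j6P_succ, j6c_add, h6]
  push_cast
  field_simp
  linear_combination ((2 : ℝ) * k + a + 1) * h5

theorem j6_S (a : ℝ) (ha : ∀ j : ℕ, a + j ≠ 0) (N : ℕ) :
    ∑ k ∈ Finset.range (N + 1), (N.choose k : ℝ) * (2 * k + a) / j6P a N k =
      2 ^ N / ∏ i ∈ Finset.range N, (1 + a + 2 * (i : ℝ)) := by
  induction N with
  | zero =>
    simp [j6P]
    simpa using ha 0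
  | succ N ih =>
    have hs := Finset.sum_congr rfl (fun k (_ : k ∈ Finset.range (N + 2)) => j6_tel a ha N k)
    rw [Finset.sum_sub_distrib, Finset.sum_range_sub (fun k =>
      -((j6c N k : ℝ) * (2 * (k : ℝ) + a - 1) / (2 * j6P a N k))), ← Finset.mul_sum] at hs
    have e0 : (j6c N 0 : ℝ) = 0 := by simp [j6c]
    have e1 : (j6c N (N + 2) : ℝ) = 0 := by
      simp only [j6c]
      rw [Nat.choose_eq_zero_of_lt (by omega)]
      simp
    rw [e0, e1] at hs
    rw [Finset.sum_range_succ (fun k => (N.choose k : ℝ) * (2 * (k : ℝ) + a) / j6P a N k) (N + 1),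
      Nat.choose_eq_zero_of_lt (show N < N + 1 by omega), ih] at hs
    have h7 : 1 + a + 2 * (N : ℝ) ≠ 0 := by
      have := ha (2 * N + 1)
      push_cast at this
      intro h
      apply this
      linarith
    have h8 : ∏ i ∈ Finset.range N, (1 + a + 2 * (i : ℝ)) ≠ 0 := by
      rw [Finset.prod_ne_zero_iff]
      intro i _
      have := ha (2 * i + 1)
      push_cast at this
      intro h
      apply this
      linarith
    rw [Finset.prod_range_succ, pow_succ]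
    simp only [Nat.cast_zero, zero_mul, zero_div, neg_zero, add_zero, sub_zero] at hs
    have h9 : ∑ i ∈ Finset.range (N + 2), ((N + 1).choose i : ℝ) * (2 * (i : ℝ) + a) /
        j6P a (N + 1) i = 2 / (1 + a + 2 * N) * (2 ^ N / ∏ i ∈ Finset.range N, (1 + a + 2 * (i : ℝ))) := by
      have h10 := sub_eq_zero.1 hs
      rw [← h10]
      field_simp
    rw [h9]
    field_simp

/-! ### Vandermonde products -/

/-- products over the indices different from `k` -/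
theorem j6_prod_sA (N : ℕ) (k : Fin (N + 1)) (F : ℕ → ℝ) :
    ∏ l : Fin N, F ((k.succAbove l : Fin (N + 1)) : ℕ) =
      (∏ j ∈ Finset.range k, F j) * ∏ j ∈ Finset.range (N - k), F (k + 1 + j) := by
  have h1 : ∀ l : Fin N, ((k.succAbove l : Fin (N + 1)) : ℕ) =
      if (l : ℕ) < k then (l : ℕ) else l + 1 := by
    intro l
    by_cases h : (l : ℕ) < k
    · rw [if_pos h, Fin.succAbove_of_castSucc_lt _ _ (by simpa [Fin.lt_def] using h)]
      rfl
    · rw [if_neg h, Fin.succAbove_of_le_castSucc _ _ (by simpa [Fin.le_def] using h)]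
      rfl
  simp only [h1]
  rw [Fin.prod_univ_eq_prod_range (fun l : ℕ => F (if l < (k : ℕ) then l else l + 1)) N]
  have hk : (k : ℕ) ≤ N := Nat.lt_succ_iff.1 k.2
  clear h1
  generalize (k : ℕ) = q at *
  have hN : N = q + (N - q) := by omega
  conv_lhs => rw [hN]
  rw [Finset.prod_range_add]
  congr 1
  · apply Finset.prod_congr rfl
    intro j hj
    rw [if_pos (Finset.mem_range.1 hj)]
  · apply Finset.prod_congr rfl
    intro j _
    rw [if_neg (by omega)]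
    congr 1
    omega

theorem j6_Ioi {m : ℕ} (i : Fin m) (g : Fin m → ℝ) :
    ∏ j ∈ Finset.Ioi i, g j = ∏ j, if i < j then g j else 1 := by
  rw [← Finset.prod_filter]
  apply Finset.prod_congr _ (fun _ _ => rfl)
  ext j
  simp

theorem j6_remove (N : ℕ) (f : ℕ → ℝ) (k : Fin (N + 1)) :
    (∏ i : Fin (N + 1), ∏ j ∈ Finset.Ioi i, (f j - f i)) =
      (∏ l : Fin N, ∏ l' ∈ Finset.Ioi l, (f (k.succAbove l') - f (k.succAbove l))) *
      ∏ l : Fin N, (if ((k.succAbove l : Fin (N + 1)) : ℕ) < k then f k - f (k.succAbove l)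
        else f (k.succAbove l) - f k) := by
  rw [Fin.prod_univ_succAbove _ k, j6_Ioi, Fin.prod_univ_succAbove _ k, if_neg (lt_irrefl _),
    one_mul]
  have h1 : ∀ l : Fin N, (∏ j ∈ Finset.Ioi (k.succAbove l), (f j - f (k.succAbove l))) =
      (if k.succAbove l < k then f k - f (k.succAbove l) else 1) *
        ∏ l' ∈ Finset.Ioi l, (f (k.succAbove l') - f (k.succAbove l)) := by
    intro l
    rw [j6_Ioi, Fin.prod_univ_succAbove _ k, j6_Ioi]
    simp only [Fin.succAbove_lt_succAbove_iff]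
  simp only [h1]
  rw [Finset.prod_mul_distrib, ← mul_assoc, ← Finset.prod_mul_distrib, mul_comm]
  congr 1
  apply Finset.prod_congr rfl
  intro l _
  have hne : k.succAbove l ≠ k := Fin.succAbove_ne k l
  rcases lt_or_gt_of_ne hne with h | h
  · rw [if_neg (not_lt.2 h.le), if_pos h, if_pos (Fin.lt_def.1 h), one_mul]
  · rw [if_pos h, if_neg (not_lt.2 h.le), if_neg (not_lt.2 (Fin.lt_def.1 h).le), mul_one]

/-- the Vandermonde product -/
noncomputable def j6V (m : ℕ) (f : ℕ → ℝ) : ℝ :=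
  ∏ j ∈ Finset.range m, ∏ i ∈ Finset.range j, (f j - f i)

theorem j6V_succ (m : ℕ) (f : ℕ → ℝ) :
    j6V (m + 1) f = j6V m f * ∏ i ∈ Finset.range m, (f m - f i) := by
  unfold j6V
  rw [Finset.prod_range_succ]

theorem j6V_first (m : ℕ) (f : ℕ → ℝ) :
    j6V (m + 1) f = j6V m (fun i => f (i + 1)) * ∏ j ∈ Finset.range m, (f (j + 1) - f 0) := by
  unfold j6V
  rw [Finset.prod_range_succ', Finset.prod_range_zero, mul_one, ← Finset.prod_mul_distrib]
  apply Finset.prod_congr rfl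
  intro j _
  rw [Finset.prod_range_succ']

theorem j6V_fin (m : ℕ) (f : ℕ → ℝ) :
    (∏ i : Fin m, ∏ j ∈ Finset.Ioi i, (f j - f i)) = j6V m f := by
  induction m generalizing f with
  | zero => simp [j6V]
  | succ m ih =>
    rw [j6V_first, Fin.prod_univ_succ, mul_comm]
    congr 1
    · rw [← ih]
      apply Finset.prod_congr rfl
      intro i _
      rw [j6_Ioi, Fin.prod_univ_succ, j6_Ioi, if_neg (by simp), one_mul]
      apply Finset.prod_congr rfl
      intro j _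
      simp
    · rw [j6_Ioi, Fin.prod_univ_succ, if_neg (lt_irrefl _), one_mul]
      rw [← Fin.prod_univ_eq_prod_range (fun j : ℕ => f (j + 1) - f 0) m]
      apply Finset.prod_congr rfl
      intro j _
      simp

/-! ### the numerator -/

/-- the exponents -/
noncomputable def j6mu (n k : ℕ) : ℝ := 3 * k - 3 * n - 2

theorem j6mu_ne (n k : ℕ) : j6mu n k ≠ 0 := by
  unfold j6mu
  intro h
  have h1 : ((3 * (k : ℤ) - 3 * n - 2 : ℤ) : ℝ) = 0 := by push_cast; exact h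
  have h2 : (3 * (k : ℤ) - 3 * n - 2 : ℤ) = 0 := by exact_mod_cast h1
  omega

theorem j6_diff (n i j : ℕ) : j6mu n j ^ 2 - j6mu n i ^ 2 =
    9 * (((j : ℝ) - i) * ((i : ℝ) + j + (-2 * n - 4 / 3))) := by
  unfold j6mu
  ring

theorem j6_a (n : ℕ) (j : ℕ) : (-2 * (n : ℝ) - 4 / 3) + j ≠ 0 := by
  intro h
  have h1 : ((3 * (j : ℤ) - 6 * n - 4 : ℤ) : ℝ) = 0 := by push_cast; linarith
  have h2 : (3 * (j : ℤ) - 6 * n - 4 : ℤ) = 0 := by exact_mod_cast h1
  omega

theorem j6_fact (k : ℕ) : ∏ j ∈ Finset.range k, ((k : ℝ) - j) = (k.factorial : ℝ) := by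
  rw [← Finset.prod_range_reflect]
  have : ∀ j ∈ Finset.range k, ((k : ℝ) - ((k - 1 - j : ℕ) : ℝ)) = ((j + 1 : ℕ) : ℝ) := by
    intro j hj
    have := Finset.mem_range.1 hj
    have e : k = (k - 1 - j) + (j + 1) := by omega
    have e2 : (k : ℝ) = ((k - 1 - j : ℕ) : ℝ) + ((j + 1 : ℕ) : ℝ) := by exact_mod_cast e
    linarith
  rw [Finset.prod_congr rfl this]
  have h := Finset.prod_range_add_one_eq_factorial k
  exact_mod_cast h

/-- the Vandermonde product with one point removed -/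
theorem j6_Dk (n N : ℕ) (k : Fin (N + 1)) :
    (∏ l : Fin N, ∏ l' ∈ Finset.Ioi l,
      (j6mu n (k.succAbove l') ^ 2 - j6mu n (k.succAbove l) ^ 2)) =
    j6V (N + 1) (fun i => j6mu n i ^ 2) / (9 ^ N * N.factorial) *
      ((N.choose k : ℝ) * (2 * ((k : ℕ) : ℝ) + (-2 * n - 4 / 3)) / j6P (-2 * n - 4 / 3) N k) := by
  have h1 := j6_remove N (fun i => j6mu n i ^ 2) k
  have h0 := j6V_fin (N + 1) (fun i => j6mu n i ^ 2)
  rw [h0] at h1
  have h2 : (∏ l : Fin N, (if ((k.succAbove l : Fin (N + 1)) : ℕ) < k then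
      j6mu n k ^ 2 - j6mu n (k.succAbove l) ^ 2
        else j6mu n (k.succAbove l) ^ 2 - j6mu n k ^ 2)) =
      9 ^ N * ((k : ℕ).factorial * (N - k).factorial) *
        ∏ l : Fin N, (((k : ℕ) : ℝ) + ((k.succAbove l : Fin (N + 1)) : ℕ) + (-2 * n - 4 / 3)) := by
    have e1 : ∀ l : Fin N, (if ((k.succAbove l : Fin (N + 1)) : ℕ) < k then
      j6mu n k ^ 2 - j6mu n (k.succAbove l) ^ 2
        else j6mu n (k.succAbove l) ^ 2 - j6mu n k ^ 2) =
        9 * ((fun j : ℕ => if j < (k : ℕ) then ((k : ℕ) : ℝ) - j else (j : ℝ) - (k : ℕ))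
          ((k.succAbove l : Fin (N + 1)) : ℕ) *
          (((k : ℕ) : ℝ) + ((k.succAbove l : Fin (N + 1)) : ℕ) + (-2 * n - 4 / 3))) := by
      intro l
      simp only
      split_ifs
      · rw [j6_diff]; ring
      · rw [j6_diff]
    rw [Finset.prod_congr rfl (fun l _ => e1 l), Finset.prod_mul_distrib, Finset.prod_mul_distrib,
      Finset.prod_const, Finset.card_univ, Fintype.card_fin, j6_prod_sA N k
      (fun j : ℕ => if j < (k : ℕ) then ((k : ℕ) : ℝ) - j else (j : ℝ) - (k : ℕ))]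
    have e2 : ∏ j ∈ Finset.range (k : ℕ), (if j < (k : ℕ) then ((k : ℕ) : ℝ) - j else
        (j : ℝ) - (k : ℕ)) = ((k : ℕ).factorial : ℝ) := by
      rw [← j6_fact]
      apply Finset.prod_congr rfl
      intro j hj
      rw [if_pos (Finset.mem_range.1 hj)]
    have e3 : ∏ j ∈ Finset.range (N - (k : ℕ)), (if (k : ℕ) + 1 + j < (k : ℕ) then
        ((k : ℕ) : ℝ) - (((k : ℕ) + 1 + j : ℕ) : ℝ) else
        (((k : ℕ) + 1 + j : ℕ) : ℝ) - (k : ℕ)) = ((N - (k : ℕ)).factorial : ℝ) := by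
      have h := Finset.prod_range_add_one_eq_factorial (N - (k : ℕ))
      rw [← h]
      push_cast
      apply Finset.prod_congr rfl
      intro j _
      rw [if_neg (by omega)]
      ring
    rw [e2, e3]
    ring
  have h3 : (2 * ((k : ℕ) : ℝ) + (-2 * n - 4 / 3)) *
      ∏ l : Fin N, (((k : ℕ) : ℝ) + ((k.succAbove l : Fin (N + 1)) : ℕ) + (-2 * n - 4 / 3)) =
      j6P (-2 * n - 4 / 3) N k := by
    unfold j6P
    rw [← Fin.prod_univ_eq_prod_range (fun l : ℕ => (((k : ℕ) : ℝ) + l + (-2 * (n : ℝ) - 4 / 3))) (N + 1),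
      Fin.prod_univ_succAbove _ k]
    congr 1
    ring
  have h4 := j6P_ne _ (j6_a n) N k
  have hk : (k : ℕ) ≤ N := Nat.lt_succ_iff.1 k.2
  have h5 : ((N.choose k : ℕ) : ℝ) * ((k : ℕ).factorial * (N - k).factorial) = N.factorial := by
    have := Nat.choose_mul_factorial_mul_factorial hk
    have h := congrArg (fun x : ℕ => (x : ℝ)) this
    push_cast at h
    linarith
  rw [h1, h2, ← h5, ← h3]
  rw [← h3] at h4
  have h6 := right_ne_zero_of_mul h4
  have h7 := left_ne_zero_of_mul h4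
  have h8 : ((N.choose k : ℕ) : ℝ) ≠ 0 := by
    have := Nat.choose_pos hk
    positivity
  have h9 : (((k : ℕ).factorial : ℕ) : ℝ) ≠ 0 := by positivity
  have h10 : (((N - (k : ℕ)).factorial : ℕ) : ℝ) ≠ 0 := by positivity
  clear h0 h1 h2 h3 h4 h5
  generalize (∏ l : Fin N, ∏ l' ∈ Finset.Ioi l,
      (j6mu n (k.succAbove l') ^ 2 - j6mu n (k.succAbove l) ^ 2)) = A at *
  generalize (∏ l : Fin N, (((k : ℕ) : ℝ) + ((k.succAbove l : Fin (N + 1)) : ℕ) +
    (-2 * (n : ℝ) - 4 / 3))) = B at *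
  generalize 2 * ((k : ℕ) : ℝ) + (-2 * (n : ℝ) - 4 / 3) = C at *
  field_simp


/-- the numerator in closed form -/
theorem j6_num (n N : ℕ) :
    (∑ k : Fin (N + 1), (-1) ^ ((k : ℕ) + N) *
          (j6mu n k * (-1) ^ ((k : ℕ) + n)) *
          ((∏ l : Fin N, (2 * j6mu n (k.succAbove l))) *
            ∏ l : Fin N, ∏ l' ∈ Finset.Ioi l,
              (j6mu n (k.succAbove l') ^ 2 - j6mu n (k.succAbove l) ^ 2))) =
    (-1) ^ (N + n) * 2 ^ N * (∏ l ∈ Finset.range (N + 1), j6mu n l) *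
      (j6V (N + 1) (fun i => j6mu n i ^ 2) / (9 ^ N * N.factorial)) *
      (2 ^ N / ∏ i ∈ Finset.range N, (1 + (-2 * (n : ℝ) - 4 / 3) + 2 * (i : ℝ))) := by
  rw [← j6_S _ (j6_a n), ← Fin.sum_univ_eq_sum_range (fun k : ℕ => (N.choose k : ℝ) *
    (2 * (k : ℝ) + (-2 * (n : ℝ) - 4 / 3)) / j6P (-2 * (n : ℝ) - 4 / 3) N k), Finset.mul_sum]
  apply Finset.sum_congr rfl
  intro k _
  rw [j6_Dk, Finset.prod_mul_distrib, Finset.prod_const, Finset.card_univ, Fintype.card_fin,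
    ← Fin.prod_univ_eq_prod_range (fun l : ℕ => j6mu n l) (N + 1), Fin.prod_univ_succAbove _ k]
  have e : (-1 : ℝ) ^ ((k : ℕ) + N) * (-1) ^ ((k : ℕ) + n) = (-1) ^ (N + n) := by
    rw [← pow_add, show (k : ℕ) + N + (k + n) = 2 * k + (N + n) by ring, pow_add, pow_mul]
    simp
  rw [← e]
  ring

/-! ### the recursions -/

theorem j6mu_shift (n k : ℕ) : j6mu (n + 1) (k + 1) = j6mu n k := by
  unfold j6mu
  push_cast
  ring

theorem j6_P_rec (n : ℕ) : ∏ l ∈ Finset.range (2 * (n + 1) + 1 + 1), j6mu (n + 1) l =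
    -((3 * (n : ℝ) + 5) * (3 * n + 4)) * ∏ l ∈ Finset.range (2 * n + 1 + 1), j6mu n l := by
  have e : 2 * (n + 1) + 1 + 1 = (2 * n + 1 + 1) + 1 + 1 := by ring
  rw [e, Finset.prod_range_succ, Finset.prod_range_succ']
  simp only [j6mu_shift]
  unfold j6mu
  push_cast
  ring

theorem j6_prod3 (m : ℕ) : ∏ j ∈ Finset.range m, (3 * (j : ℝ) + 3) = 3 ^ m * (m.factorial : ℝ) := by
  induction m with
  | zero => simp
  | succ m ih =>
    rw [Finset.prod_range_succ, ih, Nat.factorial_succ]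
    push_cast
    ring

theorem j6_prod234 (m : ℕ) :
    ∏ j ∈ Finset.range m, ((3 * (j : ℝ) + 2) * (3 * j + 3) * (3 * j + 4)) =
      ((3 * m + 1).factorial : ℝ) := by
  induction m with
  | zero => simp
  | succ m ih =>
    have h := Nat.factorial_succ (3 * m + 1 + 1 + 1)
    rw [Nat.factorial_succ (3 * m + 1 + 1), Nat.factorial_succ (3 * m + 1)] at h
    have h' := congrArg (fun x : ℕ => (x : ℝ)) h
    simp only [Nat.cast_mul] at h'
    rw [Finset.prod_range_succ, ih, show 3 * (m + 1) + 1 = 3 * m + 1 + 1 + 1 + 1 by ring, h']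
    push_cast
    ring

theorem j6_D_rec (n : ℕ) : j6V (2 * (n + 1) + 1 + 1) (fun i => j6mu (n + 1) i ^ 2) =
    -((6 * (n : ℝ) + 9) * (3 ^ (2 * n + 2) * ((2 * n + 2).factorial : ℝ)) *
      ((6 * n + 7).factorial : ℝ)) * j6V (2 * n + 1 + 1) (fun i => j6mu n i ^ 2) := by
  have e : 2 * (n + 1) + 1 + 1 = (2 * n + 1 + 1) + 1 + 1 := by ring
  rw [e, j6V_succ, j6V_first, Finset.prod_range_succ'
    (fun i => j6mu (n + 1) (2 * n + 1 + 1 + 1) ^ 2 - j6mu (n + 1) i ^ 2) (2 * n + 1 + 1)]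
  simp only [j6mu_shift]
  have e0 : j6mu (n + 1) 0 = -(3 * (n : ℝ) + 5) := by unfold j6mu; push_cast; ring
  have e1 : j6mu n (2 * n + 1 + 1) = 3 * (n : ℝ) + 4 := by unfold j6mu; push_cast; ring
  rw [e0, e1]
  have h1 : ∏ j ∈ Finset.range (2 * n + 1 + 1), (j6mu n j ^ 2 - (-(3 * (n : ℝ) + 5)) ^ 2) =
      ∏ j ∈ Finset.range (2 * n + 1 + 1), ((3 * (j : ℝ) + 3) * (-1 * (3 * (j : ℝ) + 4))) := by
    rw [Finset.prod_mul_distrib]
    have r : ∏ j ∈ Finset.range (2 * n + 1 + 1), (-1 * (3 * (j : ℝ) + 4)) =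
        ∏ j ∈ Finset.range (2 * n + 1 + 1), (3 * (j : ℝ) - 6 * n - 7) := by
      rw [← Finset.prod_range_reflect]
      apply Finset.prod_congr rfl
      intro j hj
      have hj' := Finset.mem_range.1 hj
      have e2 : 2 * n + 1 + 1 = (2 * n + 1 + 1 - 1 - j) + (j + 1) := by omega
      have e3 : 2 * (n : ℝ) + 1 + 1 = ((2 * n + 1 + 1 - 1 - j : ℕ) : ℝ) + (j + 1) := by
        exact_mod_cast e2
      linarith
    rw [r, ← Finset.prod_mul_distrib]
    apply Finset.prod_congr rfl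
    intro j _
    unfold j6mu
    ring
  have h2 : ∏ j ∈ Finset.range (2 * n + 1 + 1), ((3 * (n : ℝ) + 4) ^ 2 - j6mu n j ^ 2) =
      ∏ j ∈ Finset.range (2 * n + 1 + 1), ((3 * (j : ℝ) + 2) * (3 * (j : ℝ) + 3)) := by
    rw [Finset.prod_mul_distrib]
    have r : ∏ j ∈ Finset.range (2 * n + 1 + 1), (3 * (j : ℝ) + 3) =
        ∏ j ∈ Finset.range (2 * n + 1 + 1), (6 * (n : ℝ) + 6 - 3 * j) := by
      rw [← Finset.prod_range_reflect]
      apply Finset.prod_congr rfl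
      intro j hj
      have hj' := Finset.mem_range.1 hj
      have e2 : 2 * n + 1 + 1 = (2 * n + 1 + 1 - 1 - j) + (j + 1) := by omega
      have e3 : 2 * (n : ℝ) + 1 + 1 = ((2 * n + 1 + 1 - 1 - j : ℕ) : ℝ) + (j + 1) := by
        exact_mod_cast e2
      linarith
    rw [r, ← Finset.prod_mul_distrib]
    apply Finset.prod_congr rfl
    intro j _
    unfold j6mu
    ring
  rw [h1, h2]
  have h3 := j6_prod3 (2 * n + 2)
  have h4 := j6_prod234 (2 * n + 2)
  have h5 : 3 * (2 * n + 2) + 1 = 6 * n + 7 := by ring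
  rw [h5] at h4
  have h6 : (∏ j ∈ Finset.range (2 * n + 1 + 1), ((3 * (j : ℝ) + 3) * (-1 * (3 * (j : ℝ) + 4)))) *
      ∏ j ∈ Finset.range (2 * n + 1 + 1), ((3 * (j : ℝ) + 2) * (3 * (j : ℝ) + 3)) =
      3 ^ (2 * n + 2) * ((2 * n + 2).factorial : ℝ) * ((6 * n + 7).factorial : ℝ) := by
    rw [← h3, ← h4, ← Finset.prod_mul_distrib, ← Finset.prod_mul_distrib]
    have h7 : ∏ j ∈ Finset.range (2 * n + 1 + 1),
        ((3 * (j : ℝ) + 3) * (-1 * (3 * (j : ℝ) + 4)) * ((3 * (j : ℝ) + 2) * (3 * (j : ℝ) + 3))) =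
        (∏ j ∈ Finset.range (2 * n + 1 + 1), (-1 : ℝ)) * ∏ j ∈ Finset.range (2 * n + 1 + 1),
          ((3 * (j : ℝ) + 3) * ((3 * (j : ℝ) + 2) * (3 * j + 3) * (3 * j + 4))) := by
      rw [← Finset.prod_mul_distrib]
      apply Finset.prod_congr rfl
      intro j _
      ring
    rw [h7, Finset.prod_const, Finset.card_range]
    have h8 : (-1 : ℝ) ^ (2 * n + 1 + 1) = 1 := by
      rw [show 2 * n + 1 + 1 = 2 * (n + 1) by ring, pow_mul]
      simp
    rw [h8, one_mul]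
  linear_combination (j6V (2 * n + 2) (fun i => j6mu n i ^ 2) *
    ((3 * (n : ℝ) + 4) ^ 2 - (-(3 * (n : ℝ) + 5)) ^ 2)) * h6

theorem j6_Q_rec (n : ℕ) : ∏ i ∈ Finset.range (2 * (n + 1) + 1),
    (1 + (-2 * ((n + 1 : ℕ) : ℝ) - 4 / 3) + 2 * (i : ℝ)) =
    (-2 * (n : ℝ) - 7 / 3) * (2 * n + 5 / 3) *
      ∏ i ∈ Finset.range (2 * n + 1), (1 + (-2 * (n : ℝ) - 4 / 3) + 2 * (i : ℝ)) := by
  have e : 2 * (n + 1) + 1 = (2 * n + 1) + 1 + 1 := by ring
  rw [e, Finset.prod_range_succ, Finset.prod_range_succ']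
  have h : ∀ i : ℕ, (1 + (-2 * ((n + 1 : ℕ) : ℝ) - 4 / 3) + 2 * ((i + 1 : ℕ) : ℝ)) =
      (1 + (-2 * (n : ℝ) - 4 / 3) + 2 * (i : ℝ)) := by
    intro i
    push_cast
    ring
  simp only [h]
  push_cast
  ring

theorem j6_W1_rec (n : ℕ) : ∏ i ∈ Finset.range (2 * (n + 1) + 1), (2 * ((i : ℝ) + 1)) =
    (2 * (2 * (n : ℝ) + 2)) * (2 * (2 * n + 3)) *
      ∏ i ∈ Finset.range (2 * n + 1), (2 * ((i : ℝ) + 1)) := by
  have e : 2 * (n + 1) + 1 = (2 * n + 1) + 1 + 1 := by ring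
  rw [e, Finset.prod_range_succ, Finset.prod_range_succ]
  push_cast
  ring

theorem j6_asc (m k : ℕ) : (∏ i ∈ Finset.range k, ((m : ℝ) + 2 + i)) * ((m + 1).factorial : ℝ) =
    ((m + 1 + k).factorial : ℝ) := by
  induction k with
  | zero => simp
  | succ k ih =>
    have h := congrArg (fun x : ℕ => (x : ℝ)) (Nat.factorial_succ (m + 1 + k))
    simp only [Nat.cast_mul] at h
    rw [Finset.prod_range_succ, show m + 1 + (k + 1) = m + 1 + k + 1 by ring, h, ← ih]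
    push_cast
    ring

theorem j6_sqdiff (m : ℕ) : (∏ i ∈ Finset.range m, (((m : ℝ) + 1) ^ 2 - ((i : ℝ) + 1) ^ 2)) *
    ((m + 1).factorial : ℝ) = (m.factorial : ℝ) * ((2 * m + 1).factorial : ℝ) := by
  have h1 : ∏ i ∈ Finset.range m, (((m : ℝ) + 1) ^ 2 - ((i : ℝ) + 1) ^ 2) =
      (∏ i ∈ Finset.range m, ((m : ℝ) - i)) * ∏ i ∈ Finset.range m, ((m : ℝ) + 2 + i) := by
    rw [← Finset.prod_mul_distrib]
    apply Finset.prod_congr rfl
    intro i _
    ring
  rw [h1, mul_assoc, j6_asc, j6_fact, show m + 1 + m = 2 * m + 1 by ring]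

theorem j6_W2_rec (n : ℕ) : j6V (2 * (n + 1) + 1) (fun i => ((i : ℝ) + 1) ^ 2) *
      ((2 * n + 3).factorial : ℝ) =
    j6V (2 * n + 1) (fun i => ((i : ℝ) + 1) ^ 2) * ((2 * n + 1).factorial : ℝ) *
      ((4 * n + 3).factorial : ℝ) * ((4 * n + 5).factorial : ℝ) := by
  have e : 2 * (n + 1) + 1 = (2 * n + 1) + 1 + 1 := by ring
  rw [e, j6V_succ, j6V_succ]
  have h1 := j6_sqdiff (2 * n + 1)
  have h2 := j6_sqdiff (2 * n + 1 + 1)
  rw [show 2 * (2 * n + 1) + 1 = 4 * n + 3 by ring] at h1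
  rw [show 2 * (2 * n + 1 + 1) + 1 = 4 * n + 5 by ring, show 2 * n + 1 + 1 + 1 = 2 * n + 3 by ring]
    at h2
  have h3 : ((2 * n + 1 + 1).factorial : ℝ) ≠ 0 := by positivity
  have h4 : (∏ i ∈ Finset.range (2 * n + 1), ((((2 * n + 1 : ℕ) : ℝ) + 1) ^ 2 -
      ((i : ℝ) + 1) ^ 2)) = ((2 * n + 1).factorial : ℝ) * ((4 * n + 3).factorial : ℝ) /
      ((2 * n + 1 + 1).factorial : ℝ) := by
    rw [eq_div_iff h3, h1]
  rw [h4, mul_assoc (j6V _ _ * _), h2]
  field_simp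

theorem j6_E_rec (n : ℕ) : (∏ i ∈ Finset.range (n + 1), ((2 * (n + 1) + 2 * i + 3).factorial : ℝ)) *
      ((2 * n + 3).factorial : ℝ) =
    (∏ i ∈ Finset.range n, ((2 * n + 2 * i + 3).factorial : ℝ)) *
      ((4 * n + 3).factorial : ℝ) * ((4 * n + 5).factorial : ℝ) := by
  have h1 : (∏ i ∈ Finset.range n, ((2 * n + 2 * i + 3).factorial : ℝ)) *
      ((4 * n + 3).factorial : ℝ) =
      (∏ i ∈ Finset.range n, ((2 * (n + 1) + 2 * i + 3).factorial : ℝ)) *
      ((2 * n + 3).factorial : ℝ) := by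
    have h2 := Finset.prod_range_succ (fun i : ℕ => ((2 * n + 2 * i + 3).factorial : ℝ)) n
    rw [Finset.prod_range_succ'] at h2
    rw [show 2 * n + 2 * n + 3 = 4 * n + 3 by ring] at h2
    rw [← h2]
    congr 1
    apply Finset.prod_congr rfl
    intro i _
    congr 2
    ring
  rw [h1, Finset.prod_range_succ, show 2 * (n + 1) + 2 * n + 3 = 4 * n + 5 by ring]
  ring

/-! ### the closed form -/

/-- the left side, numerator -/
noncomputable def j6T (n : ℕ) : ℝ :=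
  3 ^ (n * (2 * n + 1)) * (-1) ^ (n * (2 * n + 1)) * ((-1) ^ (2 * n + 1 + n) * 2 ^ (2 * n + 1) *
    (∏ l ∈ Finset.range (2 * n + 1 + 1), j6mu n l) *
    j6V (2 * n + 1 + 1) (fun i => j6mu n i ^ 2) * 2 ^ (2 * n + 1))

/-- the left side, denominator -/
noncomputable def j6U (n : ℕ) : ℝ :=
  (-1) ^ n * 3 ^ (3 * n ^ 2 + n) * 2 ^ (2 * n + 1) * (9 ^ (2 * n + 1) * ((2 * n + 1).factorial : ℝ)) *
    (∏ i ∈ Finset.range (2 * n + 1), (1 + (-2 * (n : ℝ) - 4 / 3) + 2 * (i : ℝ))) *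
    ((∏ i ∈ Finset.range (2 * n + 1), (2 * ((i : ℝ) + 1))) *
      j6V (2 * n + 1) (fun i => ((i : ℝ) + 1) ^ 2))

/-- denominators of the product formula -/
noncomputable def j6E (n : ℕ) : ℝ := ∏ i ∈ Finset.range n, ((2 * n + 2 * i + 3).factorial : ℝ)

/-- numerators of the product formula -/
noncomputable def j6G (n : ℕ) : ℝ := ∏ i ∈ Finset.range n, ((6 * i + 4).factorial : ℝ)

theorem j6_closed (n : ℕ) : j6T n * (((2 * n + 1).factorial : ℝ) * j6E n) =
    j6U n * (2 ^ n * ((3 * n + 2).factorial : ℝ) * j6G n) := by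
  induction n with
  | zero =>
    simp [j6T, j6U, j6E, j6G, j6V, j6mu, Finset.prod_range_succ]
    norm_num
  | succ n ih =>
    have f1 : ((2 * (n + 1) + 1).factorial : ℝ) =
        (2 * (n : ℝ) + 3) * (2 * n + 2) * ((2 * n + 1).factorial : ℝ) := by
      have h := Nat.factorial_succ (2 * n + 1 + 1)
      rw [Nat.factorial_succ (2 * n + 1)] at h
      have h' := congrArg (fun x : ℕ => (x : ℝ)) h
      simp only [Nat.cast_mul] at h'
      rw [show 2 * (n + 1) + 1 = 2 * n + 1 + 1 + 1 by ring, h']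
      push_cast
      ring
    have f1' : ((2 * n + 3).factorial : ℝ) =
        (2 * (n : ℝ) + 3) * (2 * n + 2) * ((2 * n + 1).factorial : ℝ) := f1
    have f2 : ((3 * (n + 1) + 2).factorial : ℝ) =
        (3 * (n : ℝ) + 5) * (3 * n + 4) * (3 * n + 3) * ((3 * n + 2).factorial : ℝ) := by
      have h := Nat.factorial_succ (3 * n + 2 + 1 + 1)
      rw [Nat.factorial_succ (3 * n + 2 + 1), Nat.factorial_succ (3 * n + 2)] at h
      have h' := congrArg (fun x : ℕ => (x : ℝ)) h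
      simp only [Nat.cast_mul] at h'
      rw [show 3 * (n + 1) + 2 = 3 * n + 2 + 1 + 1 + 1 by ring, h']
      push_cast
      ring
    have f3 : ((6 * n + 7).factorial : ℝ) =
        (6 * (n : ℝ) + 7) * (6 * n + 6) * (6 * n + 5) * ((6 * n + 4).factorial : ℝ) := by
      have h := Nat.factorial_succ (6 * n + 4 + 1 + 1)
      rw [Nat.factorial_succ (6 * n + 4 + 1), Nat.factorial_succ (6 * n + 4)] at h
      have h' := congrArg (fun x : ℕ => (x : ℝ)) h
      simp only [Nat.cast_mul] at h'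
      rw [show 6 * n + 7 = 6 * n + 4 + 1 + 1 + 1 by ring, h']
      push_cast
      ring
    have f4 : ((2 * n + 2).factorial : ℝ) = (2 * (n : ℝ) + 2) * ((2 * n + 1).factorial : ℝ) := by
      have h' := congrArg (fun x : ℕ => (x : ℝ)) (Nat.factorial_succ (2 * n + 1))
      simp only [Nat.cast_mul] at h'
      rw [show 2 * n + 2 = 2 * n + 1 + 1 by ring, h']
      push_cast
      ring
    have g1 : (3 : ℝ) ^ ((n + 1) * (2 * (n + 1) + 1)) = 3 ^ (n * (2 * n + 1)) * 3 ^ (4 * n + 3) := by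
      rw [← pow_add]; congr 1; ring
    have g2 : (-1 : ℝ) ^ ((n + 1) * (2 * (n + 1) + 1)) = -(-1) ^ (n * (2 * n + 1)) := by
      rw [show (n + 1) * (2 * (n + 1) + 1) = n * (2 * n + 1) + 2 * (2 * n + 1) + 1 by ring, pow_add,
        pow_add, pow_mul]
      simp
    have g3 : (-1 : ℝ) ^ (2 * (n + 1) + 1 + (n + 1)) = -(-1) ^ (2 * n + 1 + n) := by
      rw [show 2 * (n + 1) + 1 + (n + 1) = (2 * n + 1 + n) + 2 + 1 by ring, pow_add, pow_add]
      simp
    have g4 : (2 : ℝ) ^ (2 * (n + 1) + 1) = 4 * 2 ^ (2 * n + 1) := by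
      rw [show 2 * (n + 1) + 1 = (2 * n + 1) + 2 by ring, pow_add]
      ring
    have g5 : (-1 : ℝ) ^ (n + 1) = -(-1) ^ n := by rw [pow_succ]; ring
    have g6 : (3 : ℝ) ^ (3 * (n + 1) ^ 2 + (n + 1)) = 3 ^ (3 * n ^ 2 + n) * 3 ^ (6 * n + 4) := by
      rw [← pow_add]; congr 1; ring
    have g7 : (9 : ℝ) ^ (2 * (n + 1) + 1) = 81 * 9 ^ (2 * n + 1) := by
      rw [show 2 * (n + 1) + 1 = (2 * n + 1) + 2 by ring, pow_add]
      ring
    have g8 : (2 : ℝ) ^ (n + 1) = 2 * 2 ^ n := by rw [pow_succ]; ring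
    have g9 : (3 : ℝ) ^ (4 * n + 3) * 3 ^ (2 * n + 2) = 3 * 3 ^ (6 * n + 4) := by
      rw [← pow_add, ← pow_succ']; congr 1; ring
    have k1 := j6_P_rec n
    have k2 := j6_D_rec n
    have k3 := j6_Q_rec n
    have k4 := j6_W1_rec n
    have k5 := j6_W2_rec n
    have k6 := j6_E_rec n
    have hpos : ((2 * n + 3).factorial : ℝ) ≠ 0 := by positivity
    obtain ⟨ρ, hρ⟩ : ∃ ρ : ℝ, ((4 * n + 3).factorial : ℝ) * ((4 * n + 5).factorial : ℝ) =
        ρ * ((2 * n + 3).factorial : ℝ) :=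
      ⟨((4 * n + 3).factorial : ℝ) * ((4 * n + 5).factorial : ℝ) / ((2 * n + 3).factorial : ℝ),
        by field_simp⟩
    have k5' : j6V (2 * (n + 1) + 1) (fun i => ((i : ℝ) + 1) ^ 2) =
        j6V (2 * n + 1) (fun i => ((i : ℝ) + 1) ^ 2) * ((2 * n + 1).factorial : ℝ) * ρ := by
      apply mul_right_cancel₀ hpos
      rw [k5]
      linear_combination (j6V (2 * n + 1) (fun i => ((i : ℝ) + 1) ^ 2) *
        ((2 * n + 1).factorial : ℝ)) * hρ
    have k6' : j6E (n + 1) = j6E n * ρ := by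
      apply mul_right_cancel₀ hpos
      unfold j6E
      rw [k6]
      linear_combination (∏ i ∈ Finset.range n, ((2 * n + 2 * i + 3).factorial : ℝ)) * hρ
    have k7 : j6G (n + 1) = j6G n * ((6 * n + 4).factorial : ℝ) := by
      unfold j6G
      rw [Finset.prod_range_succ]
    unfold j6T j6U at ih ⊢
    rw [k1, k2, k3, k4, k5', k6', k7, g1, g2, g3, g4, g5, g6, g7, g8, f1, f2, f3, f4]
    generalize (∏ l ∈ Finset.range (2 * n + 1 + 1), j6mu n l) = P at *
    generalize j6V (2 * n + 1 + 1) (fun i => j6mu n i ^ 2) = D at *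
    generalize (∏ i ∈ Finset.range (2 * n + 1), (1 + (-2 * (n : ℝ) - 4 / 3) + 2 * (i : ℝ))) = Q at *
    generalize (∏ i ∈ Finset.range (2 * n + 1), (2 * ((i : ℝ) + 1))) = W1 at *
    generalize j6V (2 * n + 1) (fun i => ((i : ℝ) + 1) ^ 2) = W2 at *
    generalize ((2 * n + 1).factorial : ℝ) = F1 at *
    generalize ((3 * n + 2).factorial : ℝ) = F2 at *
    generalize ((6 * n + 4).factorial : ℝ) = F3 at *
    generalize j6E n = E at *
    generalize j6G n = GG at *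
    generalize (3 : ℝ) ^ (n * (2 * n + 1)) = p1 at *
    generalize (-1 : ℝ) ^ (n * (2 * n + 1)) = p2 at *
    generalize (-1 : ℝ) ^ (2 * n + 1 + n) = p3 at *
    generalize (2 : ℝ) ^ (2 * n + 1) = p4 at *
    generalize (-1 : ℝ) ^ n = p5 at *
    generalize (3 : ℝ) ^ (3 * n ^ 2 + n) = p6 at *
    generalize (9 : ℝ) ^ (2 * n + 1) = p7 at *
    generalize (2 : ℝ) ^ n = p8 at *
    generalize (3 : ℝ) ^ (4 * n + 3) = t1 at *
    generalize (3 : ℝ) ^ (2 * n + 2) = t2 at *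
    generalize (3 : ℝ) ^ (6 * n + 4) = t3 at *
    generalize (n : ℝ) = x at *
    clear k1 k2 k3 k4 k5 k6 k5' k6' k7 g1 g2 g3 g4 g5 g6 g7 g8 f1 f1' f2 f3 f4 hρ hpos
    linear_combination (t1 * t2 * 16 * (3 * x + 5) * (3 * x + 4) * (6 * x + 9) * (2 * x + 2) * F1 *
        (6 * x + 7) * (6 * x + 6) * (6 * x + 5) * F3 * (2 * x + 3) * (2 * x + 2) * ρ) * ih +
      (p5 * p6 * p4 * (p7 * F1) * Q * (W1 * W2) * (p8 * F2 * GG)) *
        (16 * (3 * x + 5) * (3 * x + 4) * (6 * x + 9) * (2 * x + 2) * F1 *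
        (6 * x + 7) * (6 * x + 6) * (6 * x + 5) * F3 * (2 * x + 3) * (2 * x + 2) * ρ) * g9


theorem j6U_ne (n : ℕ) : j6U n ≠ 0 := by
  have h1 : (∏ i ∈ Finset.range (2 * n + 1), (1 + (-2 * (n : ℝ) - 4 / 3) + 2 * (i : ℝ))) ≠ 0 := by
    rw [Finset.prod_ne_zero_iff]
    intro i _
    have := j6_a n (2 * i + 1)
    push_cast at this
    intro h
    apply this
    linarith
  have h2 : (∏ i ∈ Finset.range (2 * n + 1), (2 * ((i : ℝ) + 1))) ≠ 0 := by
    rw [Finset.prod_ne_zero_iff]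
    intro i _
    positivity
  have h3 : j6V (2 * n + 1) (fun i => ((i : ℝ) + 1) ^ 2) ≠ 0 := by
    unfold j6V
    rw [Finset.prod_ne_zero_iff]
    intro j _
    rw [Finset.prod_ne_zero_iff]
    intro i hi
    have h4 : (i : ℝ) < j := by exact_mod_cast Finset.mem_range.1 hi
    have h5 : (0 : ℝ) ≤ i := Nat.cast_nonneg i
    have h6 : (0 : ℝ) < ((j : ℝ) - i) * (j + i + 2) := mul_pos (by linarith) (by linarith)
    intro h
    simp only at h
    nlinarith
  unfold j6U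
  refine mul_ne_zero (mul_ne_zero (mul_ne_zero (mul_ne_zero (mul_ne_zero ?_ ?_) ?_) ?_) h1)
    (mul_ne_zero h2 h3)
  · exact pow_ne_zero _ (by norm_num)
  · exact pow_ne_zero _ (by norm_num)
  · exact pow_ne_zero _ (by norm_num)
  · positivity

/-- TARGET -/
theorem value_eq (n : ℕ) :
    (3 : ℝ) ^ (n * (2 * n + 1)) * (-1) ^ (n * (2 * n + 1)) /
        ((-1) ^ n * 3 ^ (3 * n ^ 2 + n) * 2 ^ (2 * n + 1)) *
      ((∑ k : Fin (2 * n + 1 + 1), (-1) ^ ((k : ℕ) + (2 * n + 1)) *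
          (((3 * ((k : ℕ) : ℤ) - 3 * n - 2 : ℤ) : ℝ) * (-1) ^ ((k : ℕ) + n)) *
          ((∏ l : Fin (2 * n + 1), (2 * ((3 * (((k.succAbove l : Fin _) : ℕ) : ℤ) - 3 * n - 2 : ℤ) : ℝ))) *
            ∏ l : Fin (2 * n + 1), ∏ l' ∈ Finset.Ioi l,
              (((3 * (((k.succAbove l' : Fin _) : ℕ) : ℤ) - 3 * n - 2 : ℤ) : ℝ) ^ 2 -
                ((3 * (((k.succAbove l : Fin _) : ℕ) : ℤ) - 3 * n - 2 : ℤ) : ℝ) ^ 2))) /
        ((∏ i : Fin (2 * n + 1), (2 * ((i : ℕ) + 1 : ℝ))) *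
          ∏ i : Fin (2 * n + 1), ∏ j ∈ Finset.Ioi i, (((j : ℕ) + 1 : ℝ) ^ 2 - ((i : ℕ) + 1 : ℝ) ^ 2)))
    = 2 * ((2 : ℝ) ^ ((n : ℤ) - 1) * ((Nat.factorial (3 * n + 2) : ℕ) : ℝ)
            / ((Nat.factorial (2 * n + 1) : ℕ) : ℝ)
          * ∏ i ∈ Finset.Icc 1 n,
              (((Nat.factorial (6 * i - 2) : ℕ) : ℝ)
                / ((Nat.factorial (2 * n + 2 * i + 1) : ℕ) : ℝ))) := by
  have hnum := j6_num n (2 * n + 1)
  have hmu : ∀ k : ℕ, ((3 * (k : ℤ) - 3 * n - 2 : ℤ) : ℝ) = j6mu n k := by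
    intro k
    unfold j6mu
    push_cast
    ring
  simp only [hmu]
  rw [hnum]
  have hW1 : (∏ i : Fin (2 * n + 1), (2 * ((i : ℕ) + 1 : ℝ))) =
      ∏ i ∈ Finset.range (2 * n + 1), (2 * ((i : ℝ) + 1)) :=
    Fin.prod_univ_eq_prod_range (fun i : ℕ => 2 * ((i : ℝ) + 1)) (2 * n + 1)
  have hW2 := j6V_fin (2 * n + 1) (fun i => ((i : ℝ) + 1) ^ 2)
  rw [hW1, hW2]
  have hE : (∏ i ∈ Finset.Icc 1 n, (((Nat.factorial (6 * i - 2) : ℕ) : ℝ)
                / ((Nat.factorial (2 * n + 2 * i + 1) : ℕ) : ℝ))) = j6G n / j6E n := by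
    unfold j6G j6E
    rw [← Finset.prod_div_distrib, ← Finset.Ico_succ_right_eq_Icc, Finset.prod_Ico_eq_prod_range]
    apply Finset.prod_congr rfl
    intro i _
    congr 3 <;> omega
  rw [hE]
  have hc := j6_closed n
  have hU := j6U_ne n
  have hF : ((2 * n + 1).factorial : ℝ) ≠ 0 := by positivity
  have hEne : j6E n ≠ 0 := by
    unfold j6E
    rw [Finset.prod_ne_zero_iff]
    intro i _
    positivity
  have h2 : (2 : ℝ) ^ ((n : ℤ) - 1) = 2 ^ n / 2 := by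
    rw [zpow_sub₀ (by norm_num), zpow_natCast, zpow_one]
  rw [h2]
  have hA : (3 : ℝ) ^ (n * (2 * n + 1)) * (-1) ^ (n * (2 * n + 1)) /
        ((-1) ^ n * 3 ^ (3 * n ^ 2 + n) * 2 ^ (2 * n + 1)) *
      (((-1) ^ (2 * n + 1 + n) * 2 ^ (2 * n + 1) *
        (∏ l ∈ Finset.range (2 * n + 1 + 1), j6mu n l) *
        (j6V (2 * n + 1 + 1) (fun i => j6mu n i ^ 2) / (9 ^ (2 * n + 1) * ((2 * n + 1).factorial : ℝ))) *
        (2 ^ (2 * n + 1) / ∏ i ∈ Finset.range (2 * n + 1), (1 + (-2 * (n : ℝ) - 4 / 3) + 2 * (i : ℝ)))) /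
        ((∏ i ∈ Finset.range (2 * n + 1), (2 * ((i : ℝ) + 1))) *
          j6V (2 * n + 1) (fun i => ((i : ℝ) + 1) ^ 2))) = j6T n / j6U n := by
    unfold j6T j6U
    generalize (∏ l ∈ Finset.range (2 * n + 1 + 1), j6mu n l) = P
    generalize j6V (2 * n + 1 + 1) (fun i => j6mu n i ^ 2) = D
    generalize (∏ i ∈ Finset.range (2 * n + 1), (1 + (-2 * (n : ℝ) - 4 / 3) + 2 * (i : ℝ))) = Q
    generalize (∏ i ∈ Finset.range (2 * n + 1), (2 * ((i : ℝ) + 1))) = W1
    generalize j6V (2 * n + 1) (fun i => ((i : ℝ) + 1) ^ 2) = W2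
    generalize ((2 * n + 1).factorial : ℝ) = F1
    simp only [div_eq_mul_inv, mul_inv]
    ring
  rw [hA, div_eq_iff hU]
  have h5 : j6T n = j6U n * (2 ^ n * ((3 * n + 2).factorial : ℝ) * j6G n) /
      (((2 * n + 1).factorial : ℝ) * j6E n) := by
    rw [eq_div_iff (mul_ne_zero hF hEne), hc]
  rw [h5]
  field_simp

end Pool.Agent.H103.OS
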