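import Pool.Agent.H103.OS.Gen2
import Pool.Agent.H103.OS.Count
import Pool.Agent.H103.OS.LimDet
import Pool.Agent.H103.OS.Value

/-!
# The value at zero
-/

set_option autoImplicit false
set_option linter.unusedSectionVars false
set_option maxHeartbeats 4000000

open Filter Topology

namespace Pool.Agent.H103.OS

section cont

variable {R : Type*} [CommRing R] [TopologicalSpace R] [IsTopologicalRing R]
variable {X : Type*} [TopologicalSpace X]

/-- evaluate a list of parameter functions -/
def ev (a : X) (l : List ((X → R) × Bool)) : List (R × Bool) := l.map (fun p => (p.1 a, p.2))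

theorem NN_cont {x : X → R} {a0 : X} (hx : ContinuousAt x a0) :
    ContinuousAt (fun a => NN (x a)) a0 := by
  unfold NN
  fun_prop

theorem W_cont {x y : X → R} {a0 : X} (hx : ContinuousAt x a0) (hy : ContinuousAt y a0)
    (r c r' c' : Bool) : ContinuousAt (fun a => W (x a) (y a) r c r' c') a0 := by
  have h1 := NN_cont hx
  have h2 := NN_cont hy
  cases r <;> cases c <;> cases r' <;> cases c' <;>
    simp only [W_ffff, W_ffft, W_fftf, W_fftt, W_ftff, W_ftft, W_fttf, W_fttt, W_tfff, W_tfft,
      W_tftf, W_tftt, W_ttff, W_ttft, W_tttf, W_tttt] <;> fun_prop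

theorem K_cont (t : R) {x : X → R} {a0 : X} (hx : ContinuousAt x a0)
    (c r : Bool) : ContinuousAt (fun a => K t (x a) c r) a0 := by
  have h1 := NN_cont hx
  cases r <;> cases c <;> simp only [K_ff, K_ft, K_tf, K_tt] <;> fun_prop

theorem row_cont {x : X → R} {a0 : X} (hx : ContinuousAt x a0)
    (f : X → List (R × Bool) → R) (r : Bool) (l : List ((X → R) × Bool))
    (hl : ∀ p ∈ l, ContinuousAt p.1 a0)
    (hf : ∀ l' : List ((X → R) × Bool), (∀ p ∈ l', ContinuousAt p.1 a0) →
      ContinuousAt (fun a => f a (ev a l')) a0) :
    ContinuousAt (fun a => row (x a) (f a) r (ev a l)) a0 := by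
  induction l generalizing f r with
  | nil =>
    have := hf [] (by simp)
    cases r
    · simpa [ev, row_nil] using continuousAt_const
    · simpa [ev, row_nil] using this
  | cons p l ih =>
    obtain ⟨y, c⟩ := p
    have hy : ContinuousAt y a0 := hl (y, c) (by simp)
    have e : (fun a => row (x a) (f a) r (ev a ((y, c) :: l))) = fun a =>
        ∑ r' : Bool, ∑ c' : Bool, W (x a) (y a) r c r' c' *
          row (x a) (fun l' => f a ((y a, c') :: l')) r' (ev a l) := by
      funext a
      simp only [ev, List.map_cons, row_cons]
    rw [e]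
    refine tendsto_finset_sum _ fun r' _ => tendsto_finset_sum _ fun c' _ => ?_
    refine ContinuousAt.mul (W_cont hx hy r c r' c') ?_
    refine ih (fun a l' => f a ((y a, c') :: l')) r' (fun p hp => hl p (by simp [hp])) ?_
    intro l' hl'
    have := hf ((y, c') :: l') (by
      intro p hp
      rcases List.mem_cons.mp hp with rfl | hp
      · exact hy
      · exact hl' p hp)
    simpa [ev] using this

theorem Z_cont (t : R) (n : ℕ) {a0 : X} (l : List ((X → R) × Bool))
    (hl : ∀ p ∈ l, ContinuousAt p.1 a0) :
    ContinuousAt (fun a => Z t n (ev a l)) a0 := by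
  induction n generalizing l with
  | zero => simpa [Z] using continuousAt_const
  | succ n ih =>
    cases l with
    | nil => simpa [ev, Z] using continuousAt_const
    | cons p l =>
      obtain ⟨y, c⟩ := p
      have hy : ContinuousAt y a0 := hl (y, c) (by simp)
      have e : (fun a => Z t (n + 1) (ev a ((y, c) :: l))) = fun a =>
          ∑ r : Bool, K t (y a) c r * row (y a) (Z t n) r (ev a l) := by
        funext a
        simp only [ev, List.map_cons, Z_succ]
      rw [e]
      refine tendsto_finset_sum _ fun r _ => ?_
      refine ContinuousAt.mul (K_cont t hy c r) ?_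
      exact row_cont hy (fun _ => Z t n) r l (fun p hp => hl p (by simp [hp])) fun l' hl' =>
        ih l' hl'

end cont

noncomputable section

theorem Q_cont {X : Type*} [TopologicalSpace X] {a0 : X} (l : List (X → ℂ))
    (hl : ∀ p ∈ l, ContinuousAt p a0) :
    ContinuousAt (fun a => Q (l.map (fun p => p a))) a0 := by
  have h := Z_cont (DualNumber.eps : DualNumber ℂ) l.length
    (l.map (fun p => ((fun a => inl' (p a)), false))) (a0 := a0) (by
      intro p hp
      obtain ⟨q, hq, rfl⟩ := List.mem_map.mp hp
      exact (TrivSqZeroExt.continuous_inl.continuousAt).comp (hl q hq))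
  have e : (fun a => Q (l.map (fun p => p a))) = fun a => TrivSqZeroExt.snd
      (Z (DualNumber.eps : DualNumber ℂ) l.length
        (ev a (l.map (fun p => ((fun a => inl' (p a)), false))))) := by
    funext a
    simp [Q, Z0, ev, List.map_map, Function.comp_def]
  rw [e]
  exact (TrivSqZeroExt.continuous_snd.continuousAt).comp h

theorem list_prod_cont {X : Type*} [TopologicalSpace X] {a0 : X} (l : List (X → ℂ))
    (g : ℂ → ℂ) (hl : ∀ p ∈ l, ContinuousAt (fun a => g (p a)) a0) :
    ContinuousAt (fun a => ((l.map (fun p => p a)).map g).prod) a0 := by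
  induction l with
  | nil => simpa using continuousAt_const
  | cons p l ih =>
    simp only [List.map_cons, List.prod_cons]
    exact (hl p (by simp)).mul (ih fun q hq => hl q (by simp [hq]))

theorem S_cont {X : Type*} [TopologicalSpace X] {a0 : X} (l : List (X → ℂ))
    (hl : ∀ p ∈ l, ContinuousAt p a0) (h1 : ∀ p ∈ l, p a0 ≠ 1) :
    ContinuousAt (fun a => S (l.map (fun p => p a))) a0 := by
  unfold S
  refine ContinuousAt.add (ContinuousAt.mul ?_ (Q_cont l hl)) (ContinuousAt.mul ?_ ?_)
  · refine list_prod_cont l (fun x => 1 - 2 * x) fun p hp => ?_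
    have := hl p hp
    fun_prop
  · have : ∀ a, (l.map (fun p => p a)).length = l.length := by simp
    simp only [this]
    refine list_prod_cont l (fun x => (1 + x) * (1 - x) ^ (l.length - 1)) fun p hp => ?_
    have := hl p hp
    fun_prop
  · have := Q_cont (a0 := a0) (l.map (fun p => fun a => tau (p a))) (by
      intro q hq
      obtain ⟨p, hp, rfl⟩ := List.mem_map.mp hq
      have h2 := hl p hp
      have h3 := h1 p hp
      unfold tau
      exact h2.div (h2.sub continuousAt_const) (sub_ne_zero.mpr h3))
    simpa [List.map_map, Function.comp_def] using this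

end

end Pool.Agent.H103.OS
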