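import Mathlib

/-!
# A six-vertex model for off-diagonally symmetric alternating sign matrices (definitions)

The bulk weight `W`, the diagonal weight `K`, the transfer through one row `row`, and the partition
function `Z` of the triangle. All weights are polynomials with integer coefficients in the
parameters of the lines.
-/

set_option autoImplicit false

namespace Pool.Agent.H103.OS

variable {R : Type*} [CommRing R]

/-- `N(x) = 1 - x + x^2` -/
def NN (x : R) : R := 1 - x + x ^ 2

/-- bulk weight: `W x y r c r' c'`, incoming bits `r` (horizontal), `c` (vertical). -/
def W (x y : R) : Bool → Bool → Bool → Bool → R
  | false, false, false, false => 1 - x * y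
  | true, true, true, true => 1 - x * y
  | false, false, true, true => 1
  | true, true, false, false => NN x * NN y
  | true, false, true, false => 1 - x - y
  | false, true, false, true => 1 - x - y
  | _, _, _, _ => 0

/-- diagonal weight: `K t x c r`, incoming vertical bit `c`, outgoing horizontal bit `r`. -/
def K (t x : R) : Bool → Bool → R
  | false, false => 1 + x
  | true, true => 1 + x
  | false, true => t
  | true, false => t * NN x

/-- crossing of two parallel lines -/
def V (x y : R) : Bool → Bool → Bool → Bool → R
  | false, false, false, false => 1 - x + x * y
  | true, true, true, true => 1 - x + x * y
  | false, true, false, true => NN y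
  | true, false, true, false => NN x
  | false, true, true, false => y - x
  | true, false, false, true => y - x
  | _, _, _, _ => 0

/-- Pass the horizontal line with parameter `x` and incoming bit `r` through the columns of the
list; the last horizontal bit must be `true`; `f` is evaluated at the list with the new bits. -/
def row (x : R) : (List (R × Bool) → R) → Bool → List (R × Bool) → R
  | f, r, [] => if r then f [] else 0
  | f, r, (y, c) :: l =>
      ∑ r' : Bool, ∑ c' : Bool, W x y r c r' c' * row x (fun l' => f ((y, c') :: l')) r' l

/-- partition function of the triangle with `n` lines (on lists of length `n`) -/
def Z (t : R) : ℕ → List (R × Bool) → R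
  | 0, _ => 1
  | _ + 1, [] => 0
  | n + 1, (x, c) :: l => ∑ r : Bool, K t x c r * row x (Z t n) r l

/-- partition function with all top bits `0` -/
def Z0 (t : R) (xs : List R) : R := Z t xs.length (xs.map (fun x => (x, false)))

end Pool.Agent.H103.OS
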