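import Mathlib

/-!
JOB J4 (MP_d12cfa_co, frozen S11587): recursion of the determinants.

PLAIN WORDS. Rows ρ_i : ℤ → ℂ with ρ_i(μ+3) + ρ_i(μ-3) = κ_i ρ_i(μ), κ_0 = κ_1. Matrix M with columns k = 0..2n+3 at the nodes
3k - 3n - 5. Multiply M on the right by the upper unitriangular matrix U (det 1) whose columns are e_0, e_1 and, for k = 1..2n+2,
column k+1 = e_{k-1} - κ_0 e_k + e_{k+1}. Then M U has columns col_0, col_1, and (κ_i - κ_0) ρ_i(3k-3n-5) for k = 1..2n+2, so rows 0, 1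
vanish there: block lower triangular, det = 2×2 minor times det of the (κ_i-κ_0) ρ_i(3k-3n-5), i ≥ 2, k = 1..2n+2 (nodes 3(k-1)-3n-2).
-/

set_option autoImplicit false
set_option maxHeartbeats 4000000

namespace Pool.Agent.H103.OS

/-- The unitriangular matrix of the column operations. -/
def UU4 (m : ℕ) (c : ℂ) : Matrix (Fin (m + 2)) (Fin (m + 2)) ℂ :=
  Matrix.of fun j k => (if j = k then 1 else 0) +
    (if (j : ℕ) + 1 = k ∧ 2 ≤ (k : ℕ) then -c else 0) + (if (j : ℕ) + 2 = k then 1 else 0)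

theorem UU4_det (m : ℕ) (c : ℂ) : (UU4 m c).det = 1 := by
  rw [Matrix.det_of_upperTriangular]
  · refine Finset.prod_eq_one fun i _ => ?_
    simp [UU4]
  · intro i j hij
    have h1 : (j : ℕ) < i := hij
    have h2 : i ≠ j := by rintro rfl; omega
    have h3 : ¬ ((i : ℕ) + 1 = j ∧ 2 ≤ (j : ℕ)) := by omega
    have h4 : ¬ ((i : ℕ) + 2 = j) := by omega
    simp only [UU4, Matrix.of_apply, if_neg h2, if_neg h3, if_neg h4, add_zero]

theorem mul_UU4_zero (m : ℕ) (c : ℂ) (M : Matrix (Fin (m + 2)) (Fin (m + 2)) ℂ)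
    (i k : Fin (m + 2)) (hk : (k : ℕ) < 2) : (M * UU4 m c) i k = M i k := by
  rw [Matrix.mul_apply, Finset.sum_eq_single k]
  · have h3 : ¬ ((k : ℕ) + 1 = k ∧ 2 ≤ (k : ℕ)) := by omega
    have h4 : ¬ ((k : ℕ) + 2 = k) := by omega
    simp only [UU4, Matrix.of_apply, if_neg h3, if_neg h4, add_zero, if_true, mul_one]
  · intro j _ hj
    have h3 : ¬ ((j : ℕ) + 1 = k ∧ 2 ≤ (k : ℕ)) := by omega
    have h4 : ¬ ((j : ℕ) + 2 = k) := by omega
    simp only [UU4, Matrix.of_apply, if_neg hj, if_neg h3, if_neg h4, add_zero, mul_zero]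
  · intro h
    exact absurd (Finset.mem_univ _) h

theorem mul_UU4_succ (m : ℕ) (c : ℂ) (M : Matrix (Fin (m + 2)) (Fin (m + 2)) ℂ)
    (i : Fin (m + 2)) (k : Fin m) : (M * UU4 m c) i k.succ.succ =
      M i k.succ.succ - c * M i k.succ.castSucc + M i k.castSucc.castSucc := by
  rw [Matrix.mul_apply]
  simp only [UU4, Matrix.of_apply, mul_add, Finset.sum_add_distrib]
  have h1 : ∑ j, M i j * (if j = k.succ.succ then 1 else 0) = M i k.succ.succ := by
    rw [Finset.sum_eq_single k.succ.succ]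
    · simp
    · intro j _ hj
      simp [hj]
    · intro h
      exact absurd (Finset.mem_univ _) h
  have h2 : ∑ j, M i j * (if (j : ℕ) + 1 = (k.succ.succ : Fin (m + 2)) ∧
      2 ≤ ((k.succ.succ : Fin (m + 2)) : ℕ) then -c else 0) = - (c * M i k.succ.castSucc) := by
    rw [Finset.sum_eq_single k.succ.castSucc]
    · simp [mul_comm]
    · intro j _ hj
      have h3 : ¬ ((j : ℕ) + 1 = (k.succ.succ : Fin (m + 2)) ∧
          2 ≤ ((k.succ.succ : Fin (m + 2)) : ℕ)) := by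
        rintro ⟨h, -⟩
        apply hj
        ext
        simpa using h
      rw [if_neg h3, mul_zero]
    · intro h
      exact absurd (Finset.mem_univ _) h
  have h3 : ∑ j, M i j * (if (j : ℕ) + 2 = (k.succ.succ : Fin (m + 2)) then 1 else 0) =
      M i k.castSucc.castSucc := by
    rw [Finset.sum_eq_single k.castSucc.castSucc]
    · simp
    · intro j _ hj
      have h3 : ¬ ((j : ℕ) + 2 = (k.succ.succ : Fin (m + 2))) := by
        intro h
        apply hj
        ext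
        simpa using h
      rw [if_neg h3, mul_zero]
    · intro h
      exact absurd (Finset.mem_univ _) h
  rw [h1, h2, h3]
  ring

theorem det_block2 (m : ℕ) (M : Matrix (Fin (m + 2)) (Fin (m + 2)) ℂ)
    (h0 : ∀ k : Fin m, M 0 k.succ.succ = 0) (h1 : ∀ k : Fin m, M 1 k.succ.succ = 0) :
    M.det = (M 0 0 * M 1 1 - M 0 1 * M 1 0) *
      (Matrix.of fun i k : Fin m => M i.succ.succ k.succ.succ).det := by
  rw [Matrix.det_succ_row_zero, Fin.sum_univ_succ, Fin.sum_univ_succ]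
  have h2 : ∑ k : Fin m, (-1 : ℂ) ^ ((k.succ.succ : Fin (m + 2)) : ℕ) * M 0 k.succ.succ *
      (M.submatrix Fin.succ (Fin.succAbove k.succ.succ)).det = 0 :=
    Finset.sum_eq_zero fun k _ => by rw [h0]; ring
  rw [h2]
  have h3 : (M.submatrix Fin.succ (Fin.succAbove 0)).det =
      M 1 1 * (Matrix.of fun i k : Fin m => M i.succ.succ k.succ.succ).det := by
    rw [Matrix.det_succ_row_zero, Fin.sum_univ_succ, Finset.sum_eq_zero]
    · simp
      left
      rfl
    · intro k _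
      have : (M.submatrix Fin.succ (Fin.succAbove 0)) 0 k.succ = 0 := h1 k
      rw [this]
      ring
  have h4 : (M.submatrix Fin.succ (Fin.succAbove (Fin.succ 0))).det =
      M 1 0 * (Matrix.of fun i k : Fin m => M i.succ.succ k.succ.succ).det := by
    rw [Matrix.det_succ_row_zero, Fin.sum_univ_succ, Finset.sum_eq_zero]
    · simp
      left
      rfl
    · intro k _
      have : (M.submatrix Fin.succ (Fin.succAbove (Fin.succ 0))) 0 k.succ = 0 := h1 k
      rw [this]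
      ring
  rw [h3, h4]
  simp
  ring

theorem det_rec_aux (m : ℕ) (ρ : Fin (m + 2) → ℤ → ℂ) (κ : Fin (m + 2) → ℂ)
    (h : ∀ i μ, ρ i (μ + 3) + ρ i (μ - 3) = κ i * ρ i μ) (h01 : κ 1 = κ 0) (b : ℤ) :
    Matrix.det (Matrix.of (fun (i k : Fin (m + 2)) => ρ i (3 * ((k : ℕ) : ℤ) + b))) =
      (ρ 0 b * ρ 1 (b + 3) - ρ 0 (b + 3) * ρ 1 b) *
      (∏ i : Fin m, (κ i.succ.succ - κ 0)) *
      Matrix.det (Matrix.of (fun (i k : Fin m) =>
        ρ i.succ.succ (3 * ((k : ℕ) : ℤ) + (b + 3)))) := by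
  set M : Matrix (Fin (m + 2)) (Fin (m + 2)) ℂ :=
    Matrix.of (fun (i k : Fin (m + 2)) => ρ i (3 * ((k : ℕ) : ℤ) + b)) with hM
  have hd : M.det = (M * UU4 m (κ 0)).det := by rw [Matrix.det_mul, UU4_det, mul_one]
  have hc : ∀ (i : Fin (m + 2)) (k : Fin m), (M * UU4 m (κ 0)) i k.succ.succ =
      (κ i - κ 0) * ρ i (3 * ((k : ℕ) : ℤ) + (b + 3)) := by
    intro i k
    rw [mul_UU4_succ]
    have h1 := h i (3 * ((k : ℕ) : ℤ) + (b + 3))
    have e1 : M i k.succ.succ = ρ i (3 * ((k : ℕ) : ℤ) + (b + 3) + 3) := by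
      rw [hM, Matrix.of_apply]
      congr 1
      push_cast [Fin.val_succ]
      ring
    have e2 : M i k.castSucc.castSucc = ρ i (3 * ((k : ℕ) : ℤ) + (b + 3) - 3) := by
      rw [hM, Matrix.of_apply]
      congr 1
      push_cast [Fin.val_castSucc]
      ring
    have e3 : M i k.succ.castSucc = ρ i (3 * ((k : ℕ) : ℤ) + (b + 3)) := by
      rw [hM, Matrix.of_apply]
      congr 1
      push_cast [Fin.val_succ, Fin.val_castSucc]
      ring
    rw [e1, e2, e3]
    linear_combination h1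
  rw [hd, det_block2]
  · have e00 : (M * UU4 m (κ 0)) 0 0 = ρ 0 b := by
      rw [mul_UU4_zero _ _ _ _ _ (by simp), hM, Matrix.of_apply]
      simp
    have e01 : (M * UU4 m (κ 0)) 0 1 = ρ 0 (b + 3) := by
      rw [mul_UU4_zero _ _ _ _ _ (by simp), hM, Matrix.of_apply]
      simp [add_comm]
    have e10 : (M * UU4 m (κ 0)) 1 0 = ρ 1 b := by
      rw [mul_UU4_zero _ _ _ _ _ (by simp), hM, Matrix.of_apply]
      simp
    have e11 : (M * UU4 m (κ 0)) 1 1 = ρ 1 (b + 3) := by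
      rw [mul_UU4_zero _ _ _ _ _ (by simp), hM, Matrix.of_apply]
      simp [add_comm]
    rw [e00, e01, e10, e11, mul_assoc]
    congr 1
    have hN : (Matrix.of fun i k : Fin m => (M * UU4 m (κ 0)) i.succ.succ k.succ.succ) =
        Matrix.of fun i k : Fin m => (κ i.succ.succ - κ 0) *
          (Matrix.of (fun (i k : Fin m) => ρ i.succ.succ (3 * ((k : ℕ) : ℤ) + (b + 3)))) i k := by
      ext i k
      simp only [Matrix.of_apply]
      exact hc i.succ.succ k
    rw [hN, Matrix.det_mul_column]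
  · intro k
    rw [hc]
    ring
  · intro k
    rw [hc, h01]
    ring

/-- TARGET -/
theorem det_rec (n : ℕ) (ρ : Fin (2 * n + 4) → ℤ → ℂ) (κ : Fin (2 * n + 4) → ℂ)
    (h : ∀ i μ, ρ i (μ + 3) + ρ i (μ - 3) = κ i * ρ i μ) (h01 : κ 1 = κ 0) :
    Matrix.det (Matrix.of (fun (i k : Fin (2 * n + 4)) => ρ i (3 * ((k : ℕ) : ℤ) - 3 * n - 5))) =
      (ρ 0 (-3 * n - 5) * ρ 1 (-3 * n - 2) - ρ 0 (-3 * n - 2) * ρ 1 (-3 * n - 5)) *
      (∏ i : Fin (2 * n + 2), (κ i.succ.succ - κ 0)) *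
      Matrix.det (Matrix.of (fun (i k : Fin (2 * n + 2)) =>
        ρ i.succ.succ (3 * ((k : ℕ) : ℤ) - 3 * n - 2))) := by
  have h1 := det_rec_aux (2 * n + 2) ρ κ h h01 (-3 * n - 5)
  have e1 : (-3 * n - 5 + 3 : ℤ) = -3 * n - 2 := by ring
  have e2 : ∀ k : ℤ, 3 * k - 3 * n - 5 = 3 * k + (-3 * n - 5) := fun k => by ring
  have e3 : ∀ k : ℤ, 3 * k - 3 * n - 2 = 3 * k + (-3 * n - 2) := fun k => by ring
  rw [e1] at h1
  simp only [e2, e3]
  exact h1

end Pool.Agent.H103.OS
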