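import Pool.Agent.H103.OS.QS
import Pool.Agent.H103.OS.DetRec

/-!
# The symmetrised partition function is a determinant
-/

set_option autoImplicit false
set_option linter.unusedSectionVars false
set_option maxHeartbeats 4000000

namespace Pool.Agent.H103.OS

noncomputable section

/-- Chebyshev functions `(z^μ - z^{-μ})/(z - z⁻¹)` of `Y = z + z⁻¹` -/
def sv (Y : ℂ) (μ : ℤ) : ℂ := (Polynomial.Chebyshev.S ℂ (μ - 1)).eval Y

theorem sv_rec (Y : ℂ) (μ : ℤ) : sv Y (μ + 1) + sv Y (μ - 1) = Y * sv Y μ := by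
  unfold sv
  have h := Polynomial.Chebyshev.S_add_one ℂ (μ - 1)
  have h2 := congrArg (Polynomial.eval Y) h
  rw [show μ + 1 - 1 = μ - 1 + 1 by ring, h2]
  simp

theorem sv_rec3 (Y : ℂ) (μ : ℤ) :
    sv Y (μ + 3) + sv Y (μ - 3) = (Y ^ 3 - 3 * Y) * sv Y μ := by
  have h1 := sv_rec Y (μ + 2)
  have h2 := sv_rec Y (μ - 2)
  have h3 := sv_rec Y (μ + 1)
  have h4 := sv_rec Y (μ - 1)
  have h5 := sv_rec Y μ
  rw [show μ + 2 + 1 = μ + 3 by ring, show μ + 2 - 1 = μ + 1 by ring] at h1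
  rw [show μ - 2 + 1 = μ - 1 by ring, show μ - 2 - 1 = μ - 3 by ring] at h2
  rw [show μ + 1 + 1 = μ + 2 by ring, show μ + 1 - 1 = μ by ring] at h3
  rw [show μ - 1 + 1 = μ by ring, show μ - 1 - 1 = μ - 2 by ring] at h4
  linear_combination h1 + h2 + Y * h3 + Y * h4 + (Y ^ 2 - 1) * h5

theorem sv_one (Y : ℂ) : sv Y 1 = 1 := by simp [sv]
theorem sv_two (Y : ℂ) : sv Y 2 = Y := by simp [sv]
theorem sv_zero (Y : ℂ) : sv Y 0 = 0 := by simp [sv]

theorem sv_neg_two (Y : ℂ) : sv Y (-2) = -Y := by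
  have h1 := sv_rec Y (-1)
  have h2 := sv_rec Y 0
  norm_num at h1 h2
  rw [sv_zero] at h1 h2
  rw [sv_one] at h2
  linear_combination h1 + Y * h2

theorem sv_four (Y : ℂ) : sv Y 4 = Y ^ 3 - 2 * Y := by
  have h := sv_rec3 Y 1
  norm_num at h
  rw [sv_neg_two, sv_one] at h
  linear_combination h

/-- the Casoratian -/
theorem cas (a b : ℂ) (h : a ^ 3 - 3 * a = b ^ 3 - 3 * b) (n : ℕ) :
    sv a (-3 * n - 5) * sv b (-3 * n - 5 + 3) - sv a (-3 * n - 5 + 3) * sv b (-3 * n - 5)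
      = b - a := by
  have step : ∀ μ : ℤ, sv a (μ - 3) * sv b (μ - 3 + 3) - sv a (μ - 3 + 3) * sv b (μ - 3) =
      sv a μ * sv b (μ + 3) - sv a (μ + 3) * sv b μ := by
    intro μ
    have h1 := sv_rec3 a μ
    have h2 := sv_rec3 b μ
    rw [sub_add_cancel]
    have e1 : sv a (μ - 3) = (a ^ 3 - 3 * a) * sv a μ - sv a (μ + 3) := by linear_combination h1
    have e2 : sv b (μ - 3) = (b ^ 3 - 3 * b) * sv b μ - sv b (μ + 3) := by linear_combination h2
    rw [e1, e2, h]; ring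
  have base : sv a 1 * sv b (1 + 3) - sv a (1 + 3) * sv b 1 = b - a := by
    norm_num
    rw [sv_one, sv_one, sv_four, sv_four]
    linear_combination -h
  have main : ∀ k : ℕ, sv a (1 - 3 * k) * sv b (1 - 3 * k + 3) -
      sv a (1 - 3 * k + 3) * sv b (1 - 3 * k) = b - a := by
    intro k
    induction k with
    | zero => simpa using base
    | succ k ih =>
      have := step (1 - 3 * k)
      rw [show (1 : ℤ) - 3 * ((k + 1 : ℕ) : ℤ) = 1 - 3 * k - 3 by push_cast; ring, this, ih]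
  have := main (n + 2)
  rw [show (1 : ℤ) - 3 * ((n + 2 : ℕ) : ℤ) = -3 * n - 5 by push_cast; ring] at this
  exact this

/-- the determinant -/
def detM (m : ℕ) (b : ℤ) (Ys : List ℂ) : ℂ :=
  Matrix.det (Matrix.of (fun (i k : Fin m) => sv (Ys.getD i 0) (3 * ((k : ℕ) : ℤ) + b)))

theorem detM_rec (m n : ℕ) (a b : ℂ) (l : List ℂ) (hl : l.length = m)
    (h : a ^ 3 - 3 * a = b ^ 3 - 3 * b) :
    detM (m + 2) (-3 * n - 5) (a :: b :: l) =
      (b - a) * (l.map (fun c => (c ^ 3 - 3 * c) - (a ^ 3 - 3 * a))).prod *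
        detM m (-3 * n - 2) l := by
  unfold detM
  have h1 := det_rec_aux m (fun i μ => sv ((a :: b :: l).getD i 0) μ)
    (fun i => ((a :: b :: l).getD i 0) ^ 3 - 3 * ((a :: b :: l).getD i 0))
    (fun i μ => sv_rec3 _ μ) (by simp [h]) (-3 * n - 5)
  rw [h1]
  have e1 : (-3 * n - 5 + 3 : ℤ) = -3 * n - 2 := by ring
  have hc := cas a b h n
  rw [e1] at hc ⊢
  have e0 : (∏ i : Fin m, (((a :: b :: l).getD (i.succ.succ : Fin (m + 2)) 0) ^ 3 -
      3 * ((a :: b :: l).getD (i.succ.succ : Fin (m + 2)) 0) -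
      (((a :: b :: l).getD (0 : Fin (m + 2)) 0) ^ 3 -
        3 * ((a :: b :: l).getD (0 : Fin (m + 2)) 0)))) =
      (l.map (fun c => (c ^ 3 - 3 * c) - (a ^ 3 - 3 * a))).prod := by
    subst hl
    have : (l.map (fun c => (c ^ 3 - 3 * c) - (a ^ 3 - 3 * a))).prod =
        ∏ i : Fin l.length, ((l.get i) ^ 3 - 3 * (l.get i) - (a ^ 3 - 3 * a)) := by
      rw [← List.prod_ofFn]
      congr 1
      apply List.ext_getElem
      · simp
      · intro i h1 h2; simp
    rw [this]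
    refine Finset.prod_congr rfl fun i _ => ?_
    simp [List.getD_eq_getElem?_getD]
  rw [e0]
  have e2 : sv ((a :: b :: l).getD (0 : Fin (m + 2)) 0) (-3 * n - 5) *
      sv ((a :: b :: l).getD (1 : Fin (m + 2)) 0) (-3 * n - 2) -
      sv ((a :: b :: l).getD (0 : Fin (m + 2)) 0) (-3 * n - 2) *
      sv ((a :: b :: l).getD (1 : Fin (m + 2)) 0) (-3 * n - 5) = b - a := by
    simpa using hc
  rw [e2]
  congr 1

theorem detM_swap (m : ℕ) (b : ℤ) (l1 : List ℂ) (x y : ℂ) (l2 : List ℂ)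
    (hm : l1.length + l2.length + 2 = m) :
    detM m b (l1 ++ x :: y :: l2) = - detM m b (l1 ++ y :: x :: l2) := by
  have h1 : l1.length < m := by omega
  have h2 : l1.length + 1 < m := by omega
  set i : Fin m := ⟨l1.length, h1⟩
  set j : Fin m := ⟨l1.length + 1, h2⟩
  have hij : i ≠ j := by
    intro h; have := congrArg Fin.val h; simp [i, j] at this
  unfold detM
  have hM : (Matrix.of (fun (i k : Fin m) =>
      sv ((l1 ++ x :: y :: l2).getD i 0) (3 * ((k : ℕ) : ℤ) + b))) =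
      (Matrix.of (fun (i k : Fin m) =>
      sv ((l1 ++ y :: x :: l2).getD i 0) (3 * ((k : ℕ) : ℤ) + b))).submatrix
        (Equiv.swap i j) id := by
    ext p q
    simp only [Matrix.of_apply, Matrix.submatrix_apply, id]
    congr 1
    rcases eq_or_ne p i with rfl | hpi
    · rw [Equiv.swap_apply_left]
      simp [i, j, List.getD_eq_getElem?_getD]
    · rcases eq_or_ne p j with rfl | hpj
      · rw [Equiv.swap_apply_right]
        simp [i, j, List.getD_eq_getElem?_getD]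
      · rw [Equiv.swap_apply_of_ne_of_ne hpi hpj]
        have hp1 : (p : ℕ) ≠ l1.length := fun h => hpi (Fin.ext h)
        have hp2 : (p : ℕ) ≠ l1.length + 1 := fun h => hpj (Fin.ext h)
        rcases lt_or_gt_of_ne hp1 with h | h
        · simp [List.getD_eq_getElem?_getD, List.getElem?_append_left h]
        · have h3 : l1.length ≤ (p : ℕ) := h.le
          obtain ⟨c, hc⟩ : ∃ c, (p : ℕ) - l1.length = c + 2 := ⟨(p : ℕ) - l1.length - 2, by omega⟩
          simp [List.getD_eq_getElem?_getD, List.getElem?_append_right h3, hc]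
  rw [hM, Matrix.det_permute, Equiv.Perm.sign_swap hij]
  simp

theorem detM_eq_rows (m : ℕ) (b : ℤ) (a : ℂ) (l : List ℂ) (hm : 2 ≤ m) :
    detM m b (a :: a :: l) = 0 := by
  unfold detM
  refine Matrix.det_zero_of_row_eq (i := ⟨0, by omega⟩) (j := ⟨1, by omega⟩) ?_ ?_
  · intro h; have := congrArg Fin.val h; simp at this
  · funext k; simp

theorem detM_eq_first_last (m : ℕ) (b : ℤ) (a : ℂ) (l : List ℂ) (hm : l.length + 2 = m) :
    detM m b (a :: (l ++ [a])) = 0 := by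
  unfold detM
  refine Matrix.det_zero_of_row_eq (i := ⟨0, by omega⟩) (j := ⟨l.length + 1, by omega⟩) ?_ ?_
  · intro h; have := congrArg Fin.val h; simp at this
  · funext k; simp [List.getD_eq_getElem?_getD]

end

end Pool.Agent.H103.OS
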