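import Pool.Agent.H103.OS.Lim

/-!
# The value of `S` at zero and the number of odd-order OSASMs
-/

set_option autoImplicit false
set_option linter.unusedSectionVars false
set_option maxHeartbeats 4000000

open Filter Topology

namespace Pool.Agent.H103.OS

noncomputable section

/-- the parameters on the path -/
def px (n : ℕ) (t : ℝ) : List ℂ :=
  (List.ofFn (fun i : Fin (2 * n + 1) => fun t : ℝ => xz ((t ^ ((i : ℕ) + 1) : ℝ) : ℂ))).map
    (fun p => p t)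

theorem px_eq (n : ℕ) (t : ℝ) :
    px n t = List.ofFn (fun i : Fin (2 * n + 1) => xz ((t ^ ((i : ℕ) + 1) : ℝ) : ℂ)) := by
  unfold px
  rw [List.map_ofFn]
  rfl

theorem px_len (n : ℕ) (t : ℝ) : (px n t).length = 2 * n + 1 := by
  rw [px_eq]; simp

theorem px_cont (i : ℕ) : ContinuousAt (fun t : ℝ => xz ((t ^ (i + 1) : ℝ) : ℂ)) 1 := by
  refine xz_cont ?_ ?_
  · exact (Complex.continuous_ofReal.comp (continuous_pow (i + 1))).continuousAt
  · simpa using den_ne 1 one_pos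

theorem S_lim (n : ℕ) :
    Tendsto (fun t : ℝ => S (px n t)) (𝓝[>] 1) (𝓝 (2 * Q (List.replicate (2 * n + 1) 0))) := by
  have h := S_cont (X := ℝ) (a0 := 1)
    (List.ofFn (fun i : Fin (2 * n + 1) => fun t : ℝ => xz ((t ^ ((i : ℕ) + 1) : ℝ) : ℂ))) (by
      intro p hp
      obtain ⟨i, rfl⟩ := (List.mem_ofFn' _ _).mp hp
      exact px_cont i) (by
      intro p hp
      obtain ⟨i, rfl⟩ := (List.mem_ofFn' _ _).mp hp
      simp [xz_one])
  have h1 : px n 1 = List.replicate (2 * n + 1) 0 := by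
    rw [px_eq]
    simp [xz_one, List.ofFn_const]
    rfl
  have h2 : ContinuousAt (fun t : ℝ => S (px n t)) 1 := h
  have h3 := h2.tendsto.mono_left (nhdsWithin_le_nhds (s := Set.Ioi (1 : ℝ)))
  rwa [h1, S_zero] at h3

theorem yv_strict {t : ℝ} (ht : 1 < t) {i j : ℕ} (hij : i < j) :
    t ^ (i + 1) + (t ^ (i + 1))⁻¹ < t ^ (j + 1) + (t ^ (j + 1))⁻¹ := by
  have h1 : t ^ (i + 1) < t ^ (j + 1) := pow_lt_pow_right₀ ht (by omega)
  have h2 : 1 < t ^ (i + 1) := one_lt_pow₀ ht (by omega)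
  have h3 : 1 < t ^ (j + 1) := one_lt_pow₀ ht (by omega)
  set a := t ^ (i + 1)
  set b := t ^ (j + 1)
  have ha : 0 < a := by linarith
  have hb : 0 < b := by linarith
  have : b + b⁻¹ - (a + a⁻¹) = (b - a) * (a * b - 1) / (a * b) := by
    field_simp; ring
  have h4 : 0 < (b - a) * (a * b - 1) / (a * b) := by
    apply div_pos (mul_pos (by linarith) (by nlinarith)) (by positivity)
  linarith

theorem px_gen (n : ℕ) : ∀ᶠ t in 𝓝[>] (1 : ℝ), Gen (px n t) := by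
  have h1 : ∀ i : Fin (2 * n + 1), ∀ᶠ t in 𝓝[>] (1 : ℝ),
      ‖xz ((t ^ ((i : ℕ) + 1) : ℝ) : ℂ)‖ < 1 / 3 := by
    intro i
    have h := (px_cont i).norm
    have h2 : ‖xz (((1 : ℝ) ^ ((i : ℕ) + 1) : ℝ) : ℂ)‖ < 1 / 3 := by simp [xz_one]
    have h3 := h.tendsto.mono_left (nhdsWithin_le_nhds (s := Set.Ioi (1 : ℝ)))
    exact h3.eventually (gt_mem_nhds h2)
  have h2 := Filter.eventually_all.mpr h1
  filter_upwards [h2, self_mem_nhdsWithin] with t ht ht1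
  have ht1' : (1 : ℝ) < t := ht1
  have hpos : ∀ i : ℕ, 0 < t ^ (i + 1) := fun i => by positivity
  have hne : ∀ i : ℕ, ((t ^ (i + 1) : ℝ) : ℂ) ≠ 0 := fun i => by
    exact_mod_cast (hpos i).ne'
  have hy : ∀ i : ℕ, yv (xz ((t ^ (i + 1) : ℝ) : ℂ)) =
      ((t ^ (i + 1) + (t ^ (i + 1))⁻¹ : ℝ) : ℂ) := by
    intro i
    rw [yv_xz _ (hne i) (den_ne _ (hpos i))]
    push_cast; ring
  refine ⟨?_, ?_⟩
  · intro x hx
    rw [px_eq, List.mem_ofFn'] at hx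
    obtain ⟨i, rfl⟩ := hx
    refine ⟨xz_ne_zero _ ?_ (den_ne _ (hpos i)), ht i⟩
    have : 1 < t ^ ((i : ℕ) + 1) := one_lt_pow₀ ht1' (by omega)
    exact_mod_cast this.ne'
  · rw [px_eq, List.map_ofFn, List.nodup_ofFn]
    intro i j hij
    simp only [Function.comp] at hij
    rw [hy, hy] at hij
    have hij' : t ^ ((i : ℕ) + 1) + (t ^ ((i : ℕ) + 1))⁻¹ =
      t ^ ((j : ℕ) + 1) + (t ^ ((j : ℕ) + 1))⁻¹ := by exact_mod_cast hij
    rcases lt_trichotomy (i : ℕ) (j : ℕ) with h | h | h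
    · exact absurd hij' (yv_strict ht1' h).ne
    · exact Fin.ext h
    · exact absurd hij' (yv_strict ht1' h).ne'

theorem neg_one_node (n k : ℕ) :
    (-1 : ℂ) ^ (3 * (k : ℤ) + (-3 * n - 2)) = (-1) ^ (k + n) := by
  rw [show 3 * (k : ℤ) + (-3 * n - 2) = ((k + n : ℕ) : ℤ) + 2 * ((k : ℤ) - 2 * n - 1) by
    push_cast; ring, zpow_add₀ (by norm_num), zpow_mul, zpow_natCast]
  norm_num

/-- the determinant in terms of `z` -/
theorem det_z (n : ℕ) (t : ℝ) (ht : 1 < t) :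
    ((Matrix.det (Matrix.of (fun (i k : Fin (2 * n + 1 + 1)) =>
        if (i : ℕ) < 2 * n + 1 then
          (t ^ ((i : ℕ) + 1)) ^ (3 * ((k : ℕ) : ℤ) - 3 * n - 2) -
          (t ^ ((i : ℕ) + 1)) ^ (-(3 * ((k : ℕ) : ℤ) - 3 * n - 2))
        else (((3 * ((k : ℕ) : ℤ) - 3 * n - 2 : ℤ) : ℝ) * (-1) ^ ((k : ℕ) + n)))) : ℝ) : ℂ) =
      -((∏ i : Fin (2 * n + 1), (t ^ ((i : ℕ) + 1) - (t ^ ((i : ℕ) + 1))⁻¹) : ℝ) : ℂ) *
        detM (2 * n + 2) (-3 * n - 2) ((px n t).map yv ++ [-2]) := by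
  have hpos : ∀ i : ℕ, 0 < t ^ (i + 1) := fun i => by positivity
  have hne : ∀ i : ℕ, ((t ^ (i + 1) : ℝ) : ℂ) ≠ 0 := fun i => by
    exact_mod_cast (hpos i).ne'
  have e0 := RingHom.map_det (Complex.ofRealHom) (Matrix.of (fun (i k : Fin (2 * n + 1 + 1)) =>
        if (i : ℕ) < 2 * n + 1 then
          (t ^ ((i : ℕ) + 1)) ^ (3 * ((k : ℕ) : ℤ) - 3 * n - 2) -
          (t ^ ((i : ℕ) + 1)) ^ (-(3 * ((k : ℕ) : ℤ) - 3 * n - 2))
        else (((3 * ((k : ℕ) : ℤ) - 3 * n - 2 : ℤ) : ℝ) * (-1) ^ ((k : ℕ) + n))))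
  rw [Complex.ofRealHom_eq_coe] at e0
  rw [e0]
  have e1 : (Complex.ofRealHom.mapMatrix (Matrix.of (fun (i k : Fin (2 * n + 1 + 1)) =>
        if (i : ℕ) < 2 * n + 1 then
          (t ^ ((i : ℕ) + 1)) ^ (3 * ((k : ℕ) : ℤ) - 3 * n - 2) -
          (t ^ ((i : ℕ) + 1)) ^ (-(3 * ((k : ℕ) : ℤ) - 3 * n - 2))
        else (((3 * ((k : ℕ) : ℤ) - 3 * n - 2 : ℤ) : ℝ) * (-1) ^ ((k : ℕ) + n))))) =
      Matrix.of (fun (i k : Fin (2 * n + 1 + 1)) =>
        (if (i : ℕ) < 2 * n + 1 then (((t ^ ((i : ℕ) + 1) - (t ^ ((i : ℕ) + 1))⁻¹ : ℝ)) : ℂ)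
          else -1) *
        (Matrix.of (fun (i k : Fin (2 * n + 2)) =>
          sv (((px n t).map yv ++ [-2]).getD i 0) (3 * ((k : ℕ) : ℤ) + (-3 * n - 2)))) i k) := by
    ext i k
    simp only [RingHom.mapMatrix_apply, Matrix.map_apply, Matrix.of_apply,
      Complex.ofRealHom_eq_coe]
    have e2 : (3 * ((k : ℕ) : ℤ) - 3 * n - 2) = 3 * ((k : ℕ) : ℤ) + (-3 * n - 2) := by ring
    by_cases hi : (i : ℕ) < 2 * n + 1
    · rw [if_pos hi, if_pos hi]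
      have e3 : ((px n t).map yv ++ [-2]).getD i 0 =
          ((t ^ ((i : ℕ) + 1) : ℝ) : ℂ) + ((t ^ ((i : ℕ) + 1) : ℝ) : ℂ)⁻¹ := by
        rw [← yv_xz _ (hne i) (den_ne _ (hpos i)), px_eq]
        rw [List.getD_eq_getElem?_getD, List.getElem?_append_left (by simpa using hi),
          List.getElem?_eq_getElem (by simpa using hi)]
        simp only [List.getElem_map, List.getElem_ofFn, Option.getD_some]
      rw [e3, e2]
      have := sv_z ((t ^ ((i : ℕ) + 1) : ℝ) : ℂ) (hne i) (3 * ((k : ℕ) : ℤ) + (-3 * n - 2))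
      push_cast at this ⊢
      rw [← this]; ring
    · rw [if_neg hi, if_neg hi]
      have hi' : (i : ℕ) = 2 * n + 1 := by have := i.isLt; omega
      have e3 : ((px n t).map yv ++ [-2]).getD i 0 = -2 := by
        rw [hi', List.getD_eq_getElem?_getD, List.getElem?_append_right (by simp [px_len])]
        simp [px_len]
      rw [e3, sv_neg_two_eval, neg_one_node, e2]
      push_cast
      ring
  rw [e1, Matrix.det_mul_column, Fin.prod_univ_castSucc]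
  unfold detM
  congr 1
  rw [Complex.ofReal_prod]
  have e4 : ∀ i : Fin (2 * n + 1), (if ((Fin.castSucc i : Fin (2 * n + 1 + 1)) : ℕ) < 2 * n + 1 then
      (((t ^ (((Fin.castSucc i : Fin (2 * n + 1 + 1)) : ℕ) + 1) -
        (t ^ (((Fin.castSucc i : Fin (2 * n + 1 + 1)) : ℕ) + 1))⁻¹ : ℝ)) : ℂ)
          else -1) = (((t ^ ((i : ℕ) + 1) - (t ^ ((i : ℕ) + 1))⁻¹ : ℝ)) : ℂ) := by
    intro i
    rw [if_pos (show ((Fin.castSucc i : Fin (2 * n + 1 + 1)) : ℕ) < 2 * n + 1 from i.isLt)]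
    rfl
  rw [Finset.prod_congr rfl fun i _ => e4 i]
  simp

theorem prod_Ioi_const (c : ℂ) (m : ℕ) :
    (∏ i : Fin (m + 1), ∏ _j ∈ Finset.Ioi i, c) = c ^ m * ∏ i : Fin m, ∏ _j ∈ Finset.Ioi i, c := by
  rw [Fin.prod_univ_succ]
  congr 1
  · simp
  · refine Finset.prod_congr rfl fun i _ => ?_
    rw [Fin.prod_Ioi_succ]

theorem prod_Ioi_const_odd (c : ℂ) (n : ℕ) :
    (∏ i : Fin (2 * n + 1), ∏ _j ∈ Finset.Ioi i, c) = c ^ (n * (2 * n + 1)) := by
  induction n with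
  | zero => simp
  | succ n ih =>
    rw [show 2 * (n + 1) + 1 = (2 * n + 1 + 1) + 1 by ring, prod_Ioi_const, prod_Ioi_const, ih,
      ← pow_add, ← pow_add]
    congr 1
    ring

end

end Pool.Agent.H103.OS
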