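import Pool.Agent.H103.OS.Uni

/-!
# The determinant formula for generic arguments
-/

set_option autoImplicit false
set_option linter.unusedSectionVars false
set_option maxHeartbeats 4000000

namespace Pool.Agent.H103.OS

noncomputable section

/-- polynomial function of degree at most `d` away from the bad points -/
def POn (d : ℕ) (g : ℂ → ℂ) : Prop :=
  ∃ p : Polynomial ℂ, p.natDegree ≤ d ∧ ∀ x, x ≠ 1 → NN x ≠ 0 → g x = p.eval x

theorem POn.add {d : ℕ} {g h : ℂ → ℂ} (hg : POn d g) (hh : POn d h) :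
    POn d (fun x => g x + h x) := by
  obtain ⟨p, hp, hp'⟩ := hg
  obtain ⟨q, hq, hq'⟩ := hh
  exact ⟨p + q, (Polynomial.natDegree_add_le _ _).trans (max_le hp hq), fun x h1 h2 => by
    simp [hp' x h1 h2, hq' x h1 h2]⟩

theorem POn.mul {d e : ℕ} {g h : ℂ → ℂ} (hg : POn d g) (hh : POn e h) :
    POn (d + e) (fun x => g x * h x) := by
  obtain ⟨p, hp, hp'⟩ := hg
  obtain ⟨q, hq, hq'⟩ := hh
  exact ⟨p * q, (Polynomial.natDegree_mul_le).trans (by omega), fun x h1 h2 => by
    simp [hp' x h1 h2, hq' x h1 h2]⟩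

theorem POn.const (d : ℕ) (a : ℂ) : POn d (fun _ => a) :=
  ⟨Polynomial.C a, by simp, fun x _ _ => by simp⟩

theorem POn.mono {d e : ℕ} {g : ℂ → ℂ} (hg : POn d g) (h : d ≤ e) : POn e g := by
  obtain ⟨p, hp, hp'⟩ := hg
  exact ⟨p, hp.trans h, hp'⟩

theorem POn.quad (a b c : ℂ) : POn 2 (fun x => a + b * x + c * x ^ 2) :=
  ⟨Polynomial.C a + Polynomial.C b * Polynomial.X + Polynomial.C c * Polynomial.X ^ 2, by
    compute_degree, fun x _ _ => by simp⟩

theorem POn.lin (a b : ℂ) : POn 1 (fun x => a + b * x) :=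
  ⟨Polynomial.C a + Polynomial.C b * Polynomial.X, by
    compute_degree, fun x _ _ => by simp⟩

theorem POn.sum {ι : Type*} (s : Finset ι) (d : ℕ) (g : ι → ℂ → ℂ) (h : ∀ i ∈ s, POn d (g i)) :
    POn d (fun x => ∑ i ∈ s, g i x) := by
  classical
  induction s using Finset.induction_on with
  | empty => simpa using POn.const d 0
  | insert a s ha ih =>
    simp only [Finset.sum_insert ha]
    exact (h a (by simp)).add (ih fun i hi => h i (by simp [hi]))

theorem POn.list_prod (l : List ℂ) (d : ℕ) (g : ℂ → ℂ → ℂ) (h : ∀ i ∈ l, POn d (g i)) :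
    POn (d * l.length) (fun x => (l.map (fun i => g i x)).prod) := by
  induction l with
  | nil => simpa using POn.const 0 (1 : ℂ)
  | cons i l ih =>
    simp only [List.map_cons, List.prod_cons, List.length_cons]
    have := (h i (by simp)).mul (ih (fun j hj => h j (by simp [hj])))
    exact this.mono (by rw [Nat.mul_succ]; omega)

theorem POn.pow {d : ℕ} {g : ℂ → ℂ} (hg : POn d g) (k : ℕ) : POn (d * k) (fun x => g x ^ k) := by
  induction k with
  | zero => simpa using POn.const 0 (1 : ℂ)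
  | succ k ih =>
    simp only [pow_succ]
    exact (ih.mul hg).mono (by rw [Nat.mul_succ])

theorem POn.congr {d : ℕ} {g h : ℂ → ℂ} (hg : POn d g)
    (he : ∀ x, x ≠ 1 → NN x ≠ 0 → h x = g x) : POn d h := by
  obtain ⟨p, hp, hp'⟩ := hg
  exact ⟨p, hp, fun x h1 h2 => by rw [he x h1 h2, hp' x h1 h2]⟩

theorem POn_NN : POn 2 (fun x => NN x) := by
  refine (POn.quad 1 (-1) 1).congr fun x _ _ => ?_
  unfold NN; ring

theorem svN (j : ℕ) : POn (2 * j) (fun x => NN x ^ j * sv (yv x) (j + 1)) ∧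
    POn (2 * (j + 1)) (fun x => NN x ^ (j + 1) * sv (yv x) ((j + 1 : ℕ) + 1)) := by
  induction j with
  | zero =>
    refine ⟨?_, ?_⟩
    · simpa [sv_one] using POn.const 0 (1 : ℂ)
    · refine (POn.quad 2 (-2) (-1)).congr fun x _ h2 => ?_
      norm_num
      rw [sv_two]; unfold yv; field_simp; ring
  | succ j ih =>
    refine ⟨ih.2, ?_⟩
    have h1 := ((POn.quad 2 (-2) (-1)).mul ih.2).add
      ((((POn.const 0 (-1 : ℂ)).mul (POn_NN.pow 2)).mul ih.1).mono (e := 2 + 2 * (j + 1)) (by omega))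
    refine (h1.mono (e := 2 * (j + 1 + 1)) (by omega)).congr fun x _ h2 => ?_
    have h3 := sv_rec (yv x) ((j + 1 : ℕ) + 1)
    rw [show ((j + 1 : ℕ) : ℤ) + 1 - 1 = (j : ℤ) + 1 by push_cast; ring] at h3
    have h4 : sv (yv x) (((j + 1 + 1 : ℕ) : ℤ) + 1) =
        yv x * sv (yv x) (((j + 1 : ℕ) : ℤ) + 1) - sv (yv x) ((j : ℤ) + 1) := by
      rw [← h3]
      rw [show (((j + 1 + 1 : ℕ) : ℤ) + 1) = ((j + 1 : ℕ) : ℤ) + 1 + 1 by push_cast; ring]
      ring
    rw [h4]
    have h5 : NN x * yv x = 2 - 2 * x - x ^ 2 := by unfold yv; field_simp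
    linear_combination (NN x ^ (j + 1) * sv (yv x) (((j + 1 : ℕ) : ℤ) + 1)) * h5

theorem sv_neg (Y : ℂ) (μ : ℤ) : sv Y (-μ) = - sv Y μ := by
  unfold sv
  rw [Polynomial.Chebyshev.S_neg_sub_one]
  simp

theorem sv_deg (M : ℕ) (μ : ℤ) (h1 : μ ≤ M + 1) (h2 : -(M + 1 : ℤ) ≤ μ) :
    POn (2 * M) (fun x => NN x ^ M * sv (yv x) μ) := by
  -- the case of positive `μ`
  have pos : ∀ j : ℕ, j ≤ M → POn (2 * M) (fun x => NN x ^ M * sv (yv x) (j + 1)) := by
    intro j hj
    have h := (POn_NN.pow (M - j)).mul (svN j).1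
    refine (h.mono (e := 2 * M) (by omega)).congr fun x _ _ => ?_
    have : NN x ^ M = NN x ^ (M - j) * NN x ^ j := by rw [← pow_add]; congr 1; omega
    rw [this]; ring
  rcases lt_trichotomy μ 0 with h | h | h
  · obtain ⟨j, hj⟩ : ∃ j : ℕ, μ = -((j : ℤ) + 1) := ⟨(-μ - 1).toNat, by omega⟩
    have := (POn.const 0 (-1 : ℂ)).mul (pos j (by omega))
    refine (this.mono (e := 2 * M) (by omega)).congr fun x _ _ => ?_
    rw [hj, sv_neg]; ring
  · subst h
    refine (POn.const (2 * M) 0).congr fun x _ _ => ?_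
    rw [sv_zero]; ring
  · obtain ⟨j, hj⟩ : ∃ j : ℕ, μ = (j : ℤ) + 1 := ⟨(μ - 1).toNat, by omega⟩
    rw [hj]
    exact pos j (by omega)

theorem lhs_deg (n : ℕ) (l : List ℂ) : POn (6 * n + 2) (fun x => lhs n (x :: l)) := by
  have key : ∀ x, lhs n (x :: l) = ∑ k : Fin (2 * n + 1 + 1),
      (-((l.map NN).prod ^ (3 * n + 1)) * ((-1) ^ (k : ℕ) *
        Matrix.det ((Matrix.of (fun (i k : Fin (2 * n + 1 + 1)) =>
          sv (((0 : ℂ) :: (l.map yv ++ [-2])).getD i 0)
            (3 * ((k : ℕ) : ℤ) + (-3 * n - 2)))).submatrix Fin.succ k.succAbove))) *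
      (NN x ^ (3 * n + 1) * sv (yv x) (3 * ((k : ℕ) : ℤ) + (-3 * n - 2))) := by
    intro x
    unfold lhs detM
    rw [Matrix.det_succ_row_zero]
    simp only [List.map_cons, List.prod_cons, List.cons_append, Finset.mul_sum]
    refine Finset.sum_congr rfl fun k _ => ?_
    have : (Matrix.of (fun (i k : Fin (2 * n + 1 + 1)) =>
          sv ((yv x :: (l.map yv ++ [-2])).getD i 0)
            (3 * ((k : ℕ) : ℤ) + (-3 * n - 2)))).submatrix Fin.succ k.succAbove =
        (Matrix.of (fun (i k : Fin (2 * n + 1 + 1)) =>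
          sv (((0 : ℂ) :: (l.map yv ++ [-2])).getD i 0)
            (3 * ((k : ℕ) : ℤ) + (-3 * n - 2)))).submatrix Fin.succ k.succAbove := by
      ext i j
      simp
    rw [this]
    simp only [Matrix.of_apply, Fin.val_zero, List.getD_cons_zero]
    ring
  have : (fun x => lhs n (x :: l)) = fun x => _ := funext key
  rw [this]
  refine POn.sum _ _ _ fun k _ => ?_
  have hk := k.isLt
  have := (POn.const 0 (-((l.map NN).prod ^ (3 * n + 1)) * ((-1) ^ (k : ℕ) *
        Matrix.det ((Matrix.of (fun (i k : Fin (2 * n + 1 + 1)) =>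
          sv (((0 : ℂ) :: (l.map yv ++ [-2])).getD i 0)
            (3 * ((k : ℕ) : ℤ) + (-3 * n - 2)))).submatrix Fin.succ k.succAbove)))).mul
    (sv_deg (3 * n + 1) (3 * ((k : ℕ) : ℤ) + (-3 * n - 2)) (by push_cast; omega)
      (by push_cast; omega))
  exact this.mono (by omega)

theorem rhs_deg (n : ℕ) (l : List ℂ) (hl : l.length = 2 * n) :
    POn (6 * n + 2) (fun x => rhs n (x :: l)) := by
  have h1 : POn (2 * n + 1) (fun x => S (x :: l)) := by
    obtain ⟨p, hp, hp'⟩ := S_deg l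
    exact ⟨p, by omega, fun x hx _ => hp' x hx⟩
  have h2 : POn (2 * l.length) (fun x => (l.map (fun i => del x i)).prod) := by
    refine POn.list_prod l 2 (fun i x => del x i) fun i _ => ?_
    refine (POn.quad (i ^ 2) (i - i ^ 2 - i) (i - 1)).congr fun x _ _ => ?_
    unfold del; ring
  have h3 := (((POn.const 0 ((-1 : ℂ) ^ n * 3 ^ (3 * n ^ 2 + n))).mul h1).mul
    (h2.mul (POn.const 0 (Del l)))).mul ((POn.lin 2 (-1)).mul
      (POn.const 0 (l.map (fun x => 2 - x)).prod))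
  refine (h3.mono (e := 6 * n + 2) (by omega)).congr fun x _ _ => ?_
  simp only [rhs, Del, List.map_cons, List.prod_cons]
  ring

end

end Pool.Agent.H103.OS
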