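import Pool.Agent.H103.OS.Gen

/-!
# The determinant formula for generic arguments: induction
-/

set_option autoImplicit false
set_option linter.unusedSectionVars false
set_option maxHeartbeats 4000000

namespace Pool.Agent.H103.OS

noncomputable section

/-- generic arguments: small, nonzero, with distinct values of `yv` -/
def Gen (xs : List ℂ) : Prop :=
  (∀ x ∈ xs, x ≠ 0 ∧ ‖x‖ < 1 / 3) ∧ (xs.map yv).Nodup

theorem small_ne_one {x : ℂ} (h : ‖x‖ < 1 / 3) : x ≠ 1 := by
  rintro rfl; norm_num at h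

theorem small_NN {x : ℂ} (h : ‖x‖ < 1 / 3) : NN x ≠ 0 := by
  intro h0
  have h1 : (1 : ℂ) = x - x ^ 2 := by unfold NN at h0; linear_combination h0
  have h2 : ‖(1 : ℂ)‖ ≤ ‖x‖ + ‖x‖ ^ 2 := by
    rw [h1]
    refine (norm_sub_le _ _).trans ?_
    rw [norm_pow]
  rw [norm_one] at h2
  nlinarith [norm_nonneg x]

theorem NN_inv {x : ℂ} (hx : x ≠ 0) : NN x⁻¹ = NN x / x ^ 2 := by
  unfold NN; field_simp; ring

theorem NN_tau {x : ℂ} (hx : x ≠ 1) : NN (tau x) = NN x / (x - 1) ^ 2 := by
  have hx1 : x - 1 ≠ 0 := sub_ne_zero.mpr hx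
  unfold NN tau; field_simp; ring

theorem NN_one_sub (x : ℂ) : NN (1 - x) = NN x := by unfold NN; ring

theorem tau_tau {x : ℂ} (hx : x ≠ 1) : tau (tau x) = x := by
  have hx1 : x - 1 ≠ 0 := sub_ne_zero.mpr hx
  unfold tau
  have : x / (x - 1) - 1 = 1 / (x - 1) := by field_simp; ring
  rw [this]; field_simp

theorem norm_tau {x : ℂ} (h : ‖x‖ < 1 / 3) : ‖tau x‖ < 1 / 2 := by
  unfold tau
  rw [norm_div]
  have h1 : 2 / 3 < ‖x - 1‖ := by
    have := norm_sub_norm_le (1 : ℂ) x
    rw [norm_one, norm_sub_rev] at this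
    linarith
  rw [div_lt_iff₀ (by linarith)]
  linarith

theorem Gen.cons {x : ℂ} {xs : List ℂ} (h : Gen (x :: xs)) : Gen xs := by
  refine ⟨fun y hy => h.1 y (by simp [hy]), ?_⟩
  have := h.2
  simp only [List.map_cons, List.nodup_cons] at this
  exact this.2

theorem Gen.perm {xs ys : List ℂ} (h : Gen xs) (hp : xs.Perm ys) : Gen ys :=
  ⟨fun y hy => h.1 y (hp.mem_iff.mpr hy), (hp.map yv).nodup_iff.mp h.2⟩

theorem Gen.nodup {xs : List ℂ} (h : Gen xs) : xs.Nodup := List.Nodup.of_map yv h.2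

theorem Gen.inj {xs : List ℂ} (h : Gen xs) {a b : ℂ} (ha : a ∈ xs) (hb : b ∈ xs)
    (hab : yv a = yv b) : a = b :=
  List.inj_on_of_nodup_map h.2 ha hb hab

/-- the nodes -/
def nodes (l : List ℂ) : Finset ℂ :=
  ((l.toFinset ∪ l.toFinset.image tau) ∪ (l.toFinset.image (fun x => x⁻¹) ∪
    l.toFinset.image (fun x => 1 - x))) ∪ {2}

theorem nodes_card {l : List ℂ} (h : Gen l) : (nodes l).card = 4 * l.length + 1 := by
  have hs : ∀ x ∈ l.toFinset, x ≠ 0 ∧ ‖x‖ < 1 / 3 := fun x hx => h.1 x (List.mem_toFinset.mp hx)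
  have c0 : l.toFinset.card = l.length := List.toFinset_card_of_nodup h.nodup
  have c1 : (l.toFinset.image tau).card = l.length := by
    rw [Finset.card_image_of_injOn, c0]
    intro x hx y hy hxy
    have hx' := small_ne_one (hs x hx).2
    have hy' := small_ne_one (hs y hy).2
    have := congrArg tau hxy
    rwa [tau_tau hx', tau_tau hy'] at this
  have c2 : (l.toFinset.image (fun x => x⁻¹)).card = l.length := by
    rw [Finset.card_image_of_injective _ inv_injective, c0]
  have c3 : (l.toFinset.image (fun x => 1 - x)).card = l.length := by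
    rw [Finset.card_image_of_injective _ sub_right_injective, c0]
  have d1 : Disjoint l.toFinset (l.toFinset.image tau) := by
    rw [Finset.disjoint_left]
    intro x hx hx2
    obtain ⟨y, hy, hxy⟩ := Finset.mem_image.mp hx2
    have hy1 := hs y hy
    have h1 : yv x = yv y := by
      rw [← hxy, yv_tau y (small_ne_one hy1.2) (small_NN hy1.2)]
    have h2 := h.inj (List.mem_toFinset.mp hx) (List.mem_toFinset.mp hy) h1
    subst h2
    have hx1 : x - 1 ≠ 0 := sub_ne_zero.mpr (small_ne_one hy1.2)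
    unfold tau at hxy
    rw [div_eq_iff hx1] at hxy
    have h3 : x * (2 - x) = 0 := by linear_combination hxy
    rcases mul_eq_zero.mp h3 with h4 | h4
    · exact hy1.1 h4
    · have : x = 2 := by linear_combination -h4
      rw [this] at hy1
      norm_num at hy1
  have d2 : Disjoint (l.toFinset.image (fun x => x⁻¹)) (l.toFinset.image (fun x => 1 - x)) := by
    rw [Finset.disjoint_left]
    intro x hx hx2
    obtain ⟨y, hy, hxy⟩ := Finset.mem_image.mp hx
    obtain ⟨z, hz, hxz⟩ := Finset.mem_image.mp hx2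
    have hy1 := hs y hy
    have hz1 := hs z hz
    have h1 : 3 < ‖x‖ := by
      rw [← hxy, norm_inv, lt_inv_comm₀ (by norm_num) (norm_pos_iff.mpr hy1.1)]
      linarith
    have h2 : ‖x‖ ≤ 1 + ‖z‖ := by
      rw [← hxz]
      refine (norm_sub_le _ _).trans ?_
      rw [norm_one]
    linarith
  have d3 : Disjoint (l.toFinset ∪ l.toFinset.image tau) (l.toFinset.image (fun x => x⁻¹) ∪
      l.toFinset.image (fun x => 1 - x)) := by
    rw [Finset.disjoint_left]
    intro x hx hx2
    have h1 : ‖x‖ < 1 / 2 := by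
      rcases Finset.mem_union.mp hx with hx | hx
      · have := (hs x hx).2; linarith
      · obtain ⟨y, hy, hxy⟩ := Finset.mem_image.mp hx
        rw [← hxy]; exact norm_tau (hs y hy).2
    rcases Finset.mem_union.mp hx2 with hx2 | hx2
    · obtain ⟨y, hy, hxy⟩ := Finset.mem_image.mp hx2
      have hy1 := hs y hy
      have h2 : 3 < ‖x‖ := by
        rw [← hxy, norm_inv, lt_inv_comm₀ (by norm_num) (norm_pos_iff.mpr hy1.1)]
        linarith
      linarith
    · obtain ⟨z, hz, hxz⟩ := Finset.mem_image.mp hx2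
      have hz1 := hs z hz
      have h2 : (1 : ℝ) ≤ ‖x‖ + ‖z‖ := by
        have : (1 : ℂ) = x + z := by rw [← hxz]; ring
        calc (1 : ℝ) = ‖(1 : ℂ)‖ := by simp
          _ = ‖x + z‖ := by rw [this]
          _ ≤ _ := norm_add_le _ _
      linarith
  have d4 : Disjoint ((l.toFinset ∪ l.toFinset.image tau) ∪ (l.toFinset.image (fun x => x⁻¹) ∪
      l.toFinset.image (fun x => 1 - x))) {(2 : ℂ)} := by
    rw [Finset.disjoint_singleton_right]
    intro hx
    rcases Finset.mem_union.mp hx with hx | hx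
    · have h1 : ‖(2 : ℂ)‖ < 1 / 2 := by
        rcases Finset.mem_union.mp hx with hx | hx
        · have := (hs _ hx).2; linarith
        · obtain ⟨y, hy, hxy⟩ := Finset.mem_image.mp hx
          rw [← hxy]; exact norm_tau (hs y hy).2
      norm_num at h1
    · rcases Finset.mem_union.mp hx with hx | hx
      · obtain ⟨y, hy, hxy⟩ := Finset.mem_image.mp hx
        have hy1 := hs y hy
        have h2 : 3 < ‖(2 : ℂ)‖ := by
          rw [← hxy, norm_inv, lt_inv_comm₀ (by norm_num) (norm_pos_iff.mpr hy1.1)]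
          linarith
        norm_num at h2
      · obtain ⟨z, hz, hxz⟩ := Finset.mem_image.mp hx
        have hz1 := hs z hz
        have : z = -1 := by linear_combination -hxz
        rw [this] at hz1
        norm_num at hz1
  unfold nodes
  rw [Finset.card_union_of_disjoint d4, Finset.card_union_of_disjoint d3,
    Finset.card_union_of_disjoint d1, Finset.card_union_of_disjoint d2, c0, c1, c2, c3,
    Finset.card_singleton]
  ring

theorem PP_nodes (n : ℕ) (ih : ∀ xs : List ℂ, xs.length = 2 * n + 1 → Gen xs → PP n xs)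
    (rest : List ℂ) (hl : rest.length = 2 * n + 2) (hG : Gen rest) (y : ℂ) (hy : y ∈ nodes rest) :
    y ≠ 1 ∧ NN y ≠ 0 ∧ PP (n + 1) (y :: rest) := by
  have base : ∀ r ∈ rest, r ≠ 1 ∧ NN r ≠ 0 ∧ PP n (rest.erase r) ∧
      (rest.erase r).length = 2 * n + 1 ∧ (∀ z ∈ rest.erase r, z ≠ 1) ∧
      (∀ z ∈ rest.erase r, NN z ≠ 0) ∧
      (∀ x, PP (n + 1) (x :: r :: rest.erase r) → PP (n + 1) (x :: rest)) := by
    intro r hr
    have hp : rest.Perm (r :: rest.erase r) := List.perm_cons_erase hr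
    have hG2 := (hG.perm hp).cons
    have hr1 := hG.1 r hr
    have hlen : (rest.erase r).length = 2 * n + 1 := by
      rw [List.length_erase_of_mem hr, hl]; rfl
    refine ⟨small_ne_one hr1.2, small_NN hr1.2, ih _ hlen hG2, hlen,
      fun z hz => small_ne_one (hG2.1 z hz).2, fun z hz => small_NN (hG2.1 z hz).2, ?_⟩
    intro x hx
    exact (PP_perm (n + 1) (hp.cons x) (by simp [hl]; ring)).mpr hx
  simp only [nodes, Finset.mem_union, Finset.mem_image, List.mem_toFinset,
    Finset.mem_singleton] at hy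
  rcases hy with ((hy | ⟨r, hr, rfl⟩) | (⟨r, hr, rfl⟩ | ⟨r, hr, rfl⟩)) | rfl
  · obtain ⟨h1, h2, h3, h4, h5, h6, h7⟩ := base y hy
    exact ⟨h1, h2, h7 _ (PP_eq _ _ _ (by omega))⟩
  · obtain ⟨h1, h2, h3, h4, h5, h6, h7⟩ := base r hr
    have hr1 : r - 1 ≠ 0 := sub_ne_zero.mpr h1
    refine ⟨?_, ?_, h7 _ (PP_tau _ _ _ (by omega) h1 h2)⟩
    · intro h
      have := congrArg tau h
      rw [tau_tau h1] at this
      unfold tau at this
      norm_num at this
      exact (hG.1 r hr).1 this
    · rw [NN_tau h1]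
      exact div_ne_zero h2 (pow_ne_zero _ hr1)
  · obtain ⟨h1, h2, h3, h4, h5, h6, h7⟩ := base r hr
    have hr0 := (hG.1 r hr).1
    have h8 : r⁻¹ ≠ 1 := by
      intro h; apply h1; rw [← inv_inv r, h, inv_one]
    have h9 : NN r⁻¹ ≠ 0 := by
      rw [NN_inv hr0]; exact div_ne_zero h2 (pow_ne_zero _ hr0)
    exact ⟨h8, h9, h7 _ (PP_A n _ _ _ h4 (inv_mul_cancel₀ hr0) h8 h9 h5 h6 h3)⟩
  · obtain ⟨h1, h2, h3, h4, h5, h6, h7⟩ := base r hr
    have hr0 := (hG.1 r hr).1
    have h8 : 1 - r ≠ 1 := by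
      intro h; apply hr0; linear_combination -h
    have h9 : NN (1 - r) ≠ 0 := by rw [NN_one_sub]; exact h2
    exact ⟨h8, h9, h7 _ (PP_B n _ _ _ h4 (by ring) h8 h1 h9 h5 h6 h3)⟩
  · refine ⟨by norm_num, by unfold NN; norm_num, PP_two _ _ (by rw [hl]; ring)⟩

theorem PP_gen (n : ℕ) : ∀ xs : List ℂ, xs.length = 2 * n + 1 → Gen xs → PP n xs := by
  induction n with
  | zero =>
    intro xs hl hG
    obtain ⟨x, rfl⟩ : ∃ x, xs = [x] := List.length_eq_one_iff.mp (by simpa using hl)
    exact PP_base x (small_NN (hG.1 x (by simp)).2)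
  | succ n ih =>
    intro xs hl hG
    cases xs with
    | nil => simp at hl
    | cons x rest =>
      have hl' : rest.length = 2 * n + 2 := by simp at hl; omega
      have hG' := hG.cons
      obtain ⟨p, hp, hp'⟩ := lhs_deg (n + 1) rest
      obtain ⟨q, hq, hq'⟩ := rhs_deg (n + 1) rest (by rw [hl']; ring)
      have hz : p - q = 0 := by
        refine Polynomial.eq_zero_of_natDegree_lt_card_of_eval_eq_zero' (p - q) (nodes rest) ?_ ?_
        · intro y hy
          obtain ⟨h1, h2, h3⟩ := PP_nodes n ih rest hl' hG' y hy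
          have h4 : lhs (n + 1) (y :: rest) = rhs (n + 1) (y :: rest) := h3
          rw [Polynomial.eval_sub, ← hp' y h1 h2, ← hq' y h1 h2]
          simp only
          rw [h4, sub_self]
        · rw [nodes_card hG', hl']
          have := Polynomial.natDegree_sub_le p q
          omega
      have hx := hG.1 x (by simp)
      have h1 := small_ne_one hx.2
      have h2 := small_NN hx.2
      have e1 := hp' x h1 h2
      have e2 := hq' x h1 h2
      simp only at e1 e2
      unfold PP
      rw [e1, e2, sub_eq_zero.mp hz]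

end

end Pool.Agent.H103.OS
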