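import Pool.Agent.H103.OS.Final

/-!
# The number of odd-order off-diagonally symmetric alternating sign matrices
-/

set_option autoImplicit false
set_option linter.unusedSectionVars false
set_option maxHeartbeats 4000000

open Filter Topology

namespace Pool.Agent.H103.OS

noncomputable section

/-- the real ratio whose limit is known -/
def RR (n : ℕ) (t : ℝ) : ℝ :=
  Matrix.det (Matrix.of (fun (i k : Fin (2 * n + 1 + 1)) =>
        if (i : ℕ) < 2 * n + 1 then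
          (t ^ ((i : ℕ) + 1)) ^ (3 * ((k : ℕ) : ℤ) - 3 * n - 2) -
          (t ^ ((i : ℕ) + 1)) ^ (-(3 * ((k : ℕ) : ℤ) - 3 * n - 2))
        else (((3 * ((k : ℕ) : ℤ) - 3 * n - 2 : ℤ) : ℝ) * (-1) ^ ((k : ℕ) + n)))) /
      ((∏ i : Fin (2 * n + 1), (t ^ ((i : ℕ) + 1) - (t ^ ((i : ℕ) + 1))⁻¹)) *
        ∏ i : Fin (2 * n + 1), ∏ j ∈ Finset.Ioi i,
          ((t ^ ((j : ℕ) + 1) + (t ^ ((j : ℕ) + 1))⁻¹) - (t ^ ((i : ℕ) + 1) + (t ^ ((i : ℕ) + 1))⁻¹)))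

/-- the parameters -/
def xx (t : ℝ) (i : ℕ) : ℂ := xz ((t ^ (i + 1) : ℝ) : ℂ)

/-- a factor with a nonzero limit -/
def HH (n : ℕ) (t : ℝ) : ℂ :=
  (-1) ^ n * 3 ^ (3 * n ^ 2 + n) *
    (∏ i : Fin (2 * n + 1), ∏ j ∈ Finset.Ioi i, (-(NN (xx t i) * NN (xx t j) / 3))) *
    ∏ i : Fin (2 * n + 1), (2 - xx t i)

theorem key_eq (n : ℕ) (t : ℝ) (ht : 1 < t) (hG : Gen (px n t)) :
    S (px n t) * HH n t = (∏ i : Fin (2 * n + 1), NN (xx t i)) ^ (3 * n + 1) * (RR n t : ℂ) := by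
  have hpos : ∀ i : ℕ, 0 < t ^ (i + 1) := fun i => by positivity
  have hne : ∀ i : ℕ, ((t ^ (i + 1) : ℝ) : ℂ) ≠ 0 := fun i => by
    exact_mod_cast (hpos i).ne'
  have hP := PP_gen n (px n t) (px_len n t) hG
  unfold PP lhs rhs at hP
  have hz := det_z n t ht
  have hpx : px n t = List.ofFn (fun i : Fin (2 * n + 1) => xx t i) := px_eq n t
  have hNN : ∀ i : Fin (2 * n + 1), NN (xx t i) ≠ 0 := by
    intro i
    apply small_NN
    exact (hG.1 (xx t i) (by rw [hpx, List.mem_ofFn']; exact ⟨i, rfl⟩)).2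
  have hy : ∀ i : ℕ, yv (xx t i) = ((t ^ (i + 1) + (t ^ (i + 1))⁻¹ : ℝ) : ℂ) := by
    intro i
    unfold xx
    rw [yv_xz _ (hne i) (den_ne _ (hpos i))]
    push_cast; ring
  have e1 : ((px n t).map NN).prod = ∏ i : Fin (2 * n + 1), NN (xx t i) := by
    rw [hpx, List.map_ofFn, List.prod_ofFn]; rfl
  have e2 : ((px n t).map (fun x => 2 - x)).prod = ∏ i : Fin (2 * n + 1), (2 - xx t i) := by
    rw [hpx, List.map_ofFn, List.prod_ofFn]; rfl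
  have e3 : Del (px n t) =
      ((∏ i : Fin (2 * n + 1), ∏ j ∈ Finset.Ioi i,
          ((t ^ ((j : ℕ) + 1) + (t ^ ((j : ℕ) + 1))⁻¹) -
            (t ^ ((i : ℕ) + 1) + (t ^ ((i : ℕ) + 1))⁻¹)) : ℝ) : ℂ) *
      ∏ i : Fin (2 * n + 1), ∏ j ∈ Finset.Ioi i, (-(NN (xx t i) * NN (xx t j) / 3)) := by
    rw [hpx, Del_ofFn, Complex.ofReal_prod, ← Finset.prod_mul_distrib]
    refine Finset.prod_congr rfl fun i _ => ?_
    rw [Complex.ofReal_prod, ← Finset.prod_mul_distrib]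
    refine Finset.prod_congr rfl fun j _ => ?_
    rw [del_eq _ _ (hNN i) (hNN j), hy, hy]
    push_cast
    ring
  have n1 : (∏ i : Fin (2 * n + 1), (t ^ ((i : ℕ) + 1) - (t ^ ((i : ℕ) + 1))⁻¹)) ≠ 0 := by
    refine Finset.prod_ne_zero_iff.mpr fun i _ => ?_
    have h1 : 1 < t ^ ((i : ℕ) + 1) := one_lt_pow₀ ht (by omega)
    have h2 : (t ^ ((i : ℕ) + 1))⁻¹ < 1 := inv_lt_one_of_one_lt₀ h1
    linarith
  have n2 : (∏ i : Fin (2 * n + 1), ∏ j ∈ Finset.Ioi i,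
          ((t ^ ((j : ℕ) + 1) + (t ^ ((j : ℕ) + 1))⁻¹) -
            (t ^ ((i : ℕ) + 1) + (t ^ ((i : ℕ) + 1))⁻¹))) ≠ 0 := by
    refine Finset.prod_ne_zero_iff.mpr fun i _ => Finset.prod_ne_zero_iff.mpr fun j hj => ?_
    have := yv_strict ht (Finset.mem_Ioi.mp hj : i < j)
    linarith
  rw [e1, e2, e3] at hP
  unfold RR HH
  set P1 := (∏ i : Fin (2 * n + 1), (t ^ ((i : ℕ) + 1) - (t ^ ((i : ℕ) + 1))⁻¹)) with hP1
  set P2 := (∏ i : Fin (2 * n + 1), ∏ j ∈ Finset.Ioi i,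
          ((t ^ ((j : ℕ) + 1) + (t ^ ((j : ℕ) + 1))⁻¹) -
            (t ^ ((i : ℕ) + 1) + (t ^ ((i : ℕ) + 1))⁻¹))) with hP2
  rw [Complex.ofReal_div, hz, Complex.ofReal_mul]
  have n1' : (P1 : ℂ) ≠ 0 := by exact_mod_cast n1
  have n2' : (P2 : ℂ) ≠ 0 := by exact_mod_cast n2
  set DM := detM (2 * n + 2) (-3 * n - 2) ((px n t).map yv ++ [-2])
  set N1 := (∏ i : Fin (2 * n + 1), NN (xx t i))
  set N2 := ∏ i : Fin (2 * n + 1), ∏ j ∈ Finset.Ioi i, (-(NN (xx t i) * NN (xx t j) / 3))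
  rw [mul_div_assoc', eq_div_iff (mul_ne_zero n1' n2')]
  linear_combination (-(P1 : ℂ)) * hP

theorem xx_lim (i : ℕ) : Tendsto (fun t => xx t i) (𝓝[>] 1) (𝓝 0) := by
  have h := (px_cont i).tendsto.mono_left (nhdsWithin_le_nhds (s := Set.Ioi (1 : ℝ)))
  have h1 : xz (((1 : ℝ) ^ (i + 1) : ℝ) : ℂ) = 0 := by simp [xz_one]
  rw [h1] at h
  exact h

theorem NN_lim (i : ℕ) : Tendsto (fun t => NN (xx t i)) (𝓝[>] 1) (𝓝 1) := by
  have h := xx_lim i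
  have : Tendsto (fun t => 1 - xx t i + xx t i ^ 2) (𝓝[>] 1) (𝓝 (1 - 0 + 0 ^ 2)) :=
    (tendsto_const_nhds.sub h).add (h.pow 2)
  simpa [NN] using this

theorem HH_lim (n : ℕ) : Tendsto (fun t => HH n t) (𝓝[>] 1)
    (𝓝 ((-1) ^ n * 3 ^ (3 * n ^ 2 + n) * (-(1 / 3)) ^ (n * (2 * n + 1)) * 2 ^ (2 * n + 1))) := by
  unfold HH
  refine Tendsto.mul (Tendsto.mul tendsto_const_nhds ?_) ?_
  · rw [← prod_Ioi_const_odd]
    refine tendsto_finsetProd _ fun i _ => tendsto_finsetProd _ fun j _ => ?_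
    have := (((NN_lim i).mul (NN_lim j)).div_const 3).neg
    simpa using this
  · have : (2 : ℂ) ^ (2 * n + 1) = ∏ _i : Fin (2 * n + 1), (2 : ℂ) := by simp
    rw [this]
    refine tendsto_finsetProd _ fun i _ => ?_
    have := (tendsto_const_nhds (x := (2 : ℂ))).sub (xx_lim i)
    simpa using this

theorem Q_value (n : ℕ) :
    Q (List.replicate (2 * n + 1) 0) =
      ((((2 : ℝ) ^ ((n : ℤ) - 1) * ((Nat.factorial (3 * n + 2) : ℕ) : ℝ)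
            / ((Nat.factorial (2 * n + 1) : ℕ) : ℝ)
          * ∏ i ∈ Finset.Icc 1 n,
              (((Nat.factorial (6 * i - 2) : ℕ) : ℝ)
                / ((Nat.factorial (2 * n + 2 * i + 1) : ℕ) : ℝ)) : ℝ)) : ℂ) := by
  have hR := lim_det (2 * n + 1) (fun k => 3 * ((k : ℕ) : ℤ) - 3 * n - 2)
    (fun k => (((3 * ((k : ℕ) : ℤ) - 3 * n - 2 : ℤ) : ℝ) * (-1) ^ ((k : ℕ) + n)))
  have hv := value_eq n
  set L : ℝ := ((∑ k : Fin (2 * n + 1 + 1), (-1) ^ ((k : ℕ) + (2 * n + 1)) *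
          (((3 * ((k : ℕ) : ℤ) - 3 * n - 2 : ℤ) : ℝ) * (-1) ^ ((k : ℕ) + n)) *
          ((∏ l : Fin (2 * n + 1), (2 * ((3 * (((k.succAbove l : Fin _) : ℕ) : ℤ) - 3 * n - 2 : ℤ) : ℝ))) *
            ∏ l : Fin (2 * n + 1), ∏ l' ∈ Finset.Ioi l,
              (((3 * (((k.succAbove l' : Fin _) : ℕ) : ℤ) - 3 * n - 2 : ℤ) : ℝ) ^ 2 -
                ((3 * (((k.succAbove l : Fin _) : ℕ) : ℤ) - 3 * n - 2 : ℤ) : ℝ) ^ 2))) /
        ((∏ i : Fin (2 * n + 1), (2 * ((i : ℕ) + 1 : ℝ))) *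
          ∏ i : Fin (2 * n + 1), ∏ j ∈ Finset.Ioi i, (((j : ℕ) + 1 : ℝ) ^ 2 - ((i : ℕ) + 1 : ℝ) ^ 2)))
    with hL
  have hR' : Tendsto (fun t => RR n t) (𝓝[>] 1) (𝓝 L) := hR
  have h1 : Tendsto (fun t => S (px n t) * HH n t) (𝓝[>] 1)
      (𝓝 (2 * Q (List.replicate (2 * n + 1) 0) *
        ((-1) ^ n * 3 ^ (3 * n ^ 2 + n) * (-(1 / 3)) ^ (n * (2 * n + 1)) * 2 ^ (2 * n + 1)))) :=
    (S_lim n).mul (HH_lim n)
  have h2 : Tendsto (fun t => (∏ i : Fin (2 * n + 1), NN (xx t i)) ^ (3 * n + 1) * (RR n t : ℂ))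
      (𝓝[>] 1) (𝓝 (1 * (L : ℂ))) := by
    refine Tendsto.mul ?_ ?_
    · have : Tendsto (fun t => (∏ i : Fin (2 * n + 1), NN (xx t i))) (𝓝[>] 1)
          (𝓝 (∏ _i : Fin (2 * n + 1), (1 : ℂ))) :=
        tendsto_finsetProd _ fun i _ => NN_lim i
      have := this.pow (3 * n + 1)
      simpa using this
    · exact (Complex.continuous_ofReal.tendsto L).comp hR'
  have h3 : (fun t => S (px n t) * HH n t) =ᶠ[𝓝[>] 1]
      (fun t => (∏ i : Fin (2 * n + 1), NN (xx t i)) ^ (3 * n + 1) * (RR n t : ℂ)) := by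
    filter_upwards [px_gen n, self_mem_nhdsWithin] with t ht ht1
    exact key_eq n t ht1 ht
  have h4 := tendsto_nhds_unique (h1.congr' h3) h2
  have hA : ((-1 : ℂ) ^ n * 3 ^ (3 * n ^ 2 + n) * 2 ^ (2 * n + 1)) ≠ 0 :=
    mul_ne_zero (mul_ne_zero (pow_ne_zero _ (by norm_num)) (pow_ne_zero _ (by norm_num)))
      (pow_ne_zero _ (by norm_num))
  have hE : (3 : ℂ) ^ (n * (2 * n + 1)) * (-1) ^ (n * (2 * n + 1)) *
      (-(1 / 3)) ^ (n * (2 * n + 1)) = 1 := by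
    rw [← mul_pow, ← mul_pow]; norm_num
  have h6 : 2 * Q (List.replicate (2 * n + 1) 0) =
      (((3 : ℝ) ^ (n * (2 * n + 1)) * (-1) ^ (n * (2 * n + 1)) /
        ((-1) ^ n * 3 ^ (3 * n ^ 2 + n) * 2 ^ (2 * n + 1)) * L : ℝ) : ℂ) := by
    rw [one_mul] at h4
    rw [Complex.ofReal_mul, ← h4]
    push_cast
    symm
    calc _ = ((3 : ℂ) ^ (n * (2 * n + 1)) * (-1) ^ (n * (2 * n + 1)) *
          (-(1 / 3)) ^ (n * (2 * n + 1))) * (2 * Q (List.replicate (2 * n + 1) 0)) *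
          (((-1 : ℂ) ^ n * 3 ^ (3 * n ^ 2 + n) * 2 ^ (2 * n + 1)) /
            ((-1 : ℂ) ^ n * 3 ^ (3 * n ^ 2 + n) * 2 ^ (2 * n + 1))) := by ring
      _ = _ := by rw [hE, div_self hA]; ring
  rw [hv] at h6
  push_cast at h6 ⊢
  linear_combination (1 / 2 : ℂ) * h6

/-- the ring homomorphism of dual numbers -/
def dmap : DualNumber ℤ →+* DualNumber ℂ where
  toFun x := TrivSqZeroExt.inl (x.fst : ℂ) + TrivSqZeroExt.inr (x.snd : ℂ)
  map_one' := by ext <;> simp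
  map_zero' := by ext <;> simp
  map_mul' x y := by
    ext
    · simp
    · simp
  map_add' x y := by
    ext <;> simp

theorem dmap_snd (x : DualNumber ℤ) : TrivSqZeroExt.snd (dmap x) = ((TrivSqZeroExt.snd x : ℤ) : ℂ) := by
  simp [dmap]

theorem dmap_fst (x : DualNumber ℤ) : TrivSqZeroExt.fst (dmap x) = ((TrivSqZeroExt.fst x : ℤ) : ℂ) := by
  simp [dmap]

theorem dmap_eps : dmap (DualNumber.eps : DualNumber ℤ) = DualNumber.eps := by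
  apply TrivSqZeroExt.ext
  · rw [dmap_fst, DualNumber.fst_eps, DualNumber.fst_eps]; simp
  · rw [dmap_snd, DualNumber.snd_eps, DualNumber.snd_eps]; simp

theorem Q_zero_eq (m : ℕ) :
    Q (List.replicate m 0) =
      ((TrivSqZeroExt.snd (Z0 (DualNumber.eps : DualNumber ℤ) (List.replicate m 0)) : ℤ) : ℂ) := by
  rw [← dmap_snd, Z0_map, dmap_eps]
  unfold Q
  simp

theorem osasm_count (n : ℕ) (hn : 1 ≤ n) :
      ((Nat.card {A : Matrix (Fin (2 * n + 1)) (Fin (2 * n + 1)) ℤ //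
          (∀ i j, A i j = -1 ∨ A i j = 0 ∨ A i j = 1) ∧
          (∀ i k, (∑ j ∈ Finset.Iic k, A i j) = 0 ∨ (∑ j ∈ Finset.Iic k, A i j) = 1) ∧
          (∀ i, (∑ j, A i j) = 1) ∧
          (∀ j k, (∑ i ∈ Finset.Iic k, A i j) = 0 ∨ (∑ i ∈ Finset.Iic k, A i j) = 1) ∧
          (∀ j, (∑ i, A i j) = 1) ∧
          (∀ i j, A i j = A j i) ∧
          (∃ d : Fin (2 * n + 1), ∀ i, i ≠ d → A i i = 0)} : ℕ) : ℚ)
        = (2 : ℚ) ^ (n - 1) * ((Nat.factorial (3 * n + 2) : ℕ) : ℚ)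
            / ((Nat.factorial (2 * n + 1) : ℕ) : ℚ)
          * ∏ i ∈ Finset.Icc 1 n,
              (((Nat.factorial (6 * i - 2) : ℕ) : ℚ)
                / ((Nat.factorial (2 * n + 2 * i + 1) : ℕ) : ℚ)) := by
  have h1 := count_eq n
  have h2 := Q_value n
  rw [Q_zero_eq, ← h1] at h2
  have h3 : ((2 : ℝ) ^ ((n : ℤ) - 1)) = 2 ^ (n - 1) := by
    rw [← zpow_natCast]
    congr 1
    omega
  rw [h3] at h2
  clear h1
  generalize (Nat.card {A : Matrix (Fin (2 * n + 1)) (Fin (2 * n + 1)) ℤ //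
          (∀ i j, A i j = -1 ∨ A i j = 0 ∨ A i j = 1) ∧
          (∀ i k, (∑ j ∈ Finset.Iic k, A i j) = 0 ∨ (∑ j ∈ Finset.Iic k, A i j) = 1) ∧
          (∀ i, (∑ j, A i j) = 1) ∧
          (∀ j k, (∑ i ∈ Finset.Iic k, A i j) = 0 ∨ (∑ i ∈ Finset.Iic k, A i j) = 1) ∧
          (∀ j, (∑ i, A i j) = 1) ∧
          (∀ i j, A i j = A j i) ∧
          (∃ d : Fin (2 * n + 1), ∀ i, i ≠ d → A i i = 0)}) = c at h2 ⊢
  have h4 : ((c : ℝ) : ℂ) = (((c : ℕ) : ℤ) : ℂ) := by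
    push_cast; rfl
  have h5 := Complex.ofReal_injective (h4.trans h2)
  have h6 := @Rat.cast_injective ℝ _ _
  apply h6
  push_cast
  push_cast at h5
  exact h5

end

end Pool.Agent.H103.OS
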