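import Pool.Agent.H103.OS.Cont

/-!
# The value at zero
-/

set_option autoImplicit false
set_option linter.unusedSectionVars false
set_option maxHeartbeats 4000000

open Filter Topology

namespace Pool.Agent.H103.OS

noncomputable section

/-- a primitive cube root of unity -/
def w : ℂ := ⟨-1 / 2, Real.sqrt 3 / 2⟩

theorem w_sq : w ^ 2 + w + 1 = 0 := by
  have h : Real.sqrt 3 * Real.sqrt 3 = 3 := Real.mul_self_sqrt (by norm_num)
  apply Complex.ext
  · simp only [w, pow_two, Complex.add_re, Complex.mul_re, Complex.one_re, Complex.zero_re]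
    nlinarith
  · simp only [w, pow_two, Complex.add_im, Complex.mul_im, Complex.one_im, Complex.zero_im]
    ring

/-- the parameter `x` of `z` -/
def xz (z : ℂ) : ℂ := (1 - z) / (w * z + 1 + w)

theorem den_ne (z : ℝ) (hz : 0 < z) : w * (z : ℂ) + 1 + w ≠ 0 := by
  intro h
  have h1 := congrArg Complex.im h
  simp only [w, Complex.add_im, Complex.mul_im, Complex.ofReal_re, Complex.ofReal_im,
    Complex.one_im, Complex.zero_im, mul_zero, zero_add, add_zero] at h1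
  have h3 : 0 < Real.sqrt 3 := Real.sqrt_pos.mpr (by norm_num)
  nlinarith [mul_pos h3 hz]

theorem NN_xz (z : ℂ) (h : w * z + 1 + w ≠ 0) :
    NN (xz z) = -3 * z / (w * z + 1 + w) ^ 2 := by
  have hw := w_sq
  obtain ⟨D, hD⟩ : ∃ D, D = w * z + 1 + w := ⟨_, rfl⟩
  unfold NN xz
  rw [← hD] at h ⊢
  have e : 1 - (1 - z) / D + ((1 - z) / D) ^ 2 = (D ^ 2 - (1 - z) * D + (1 - z) ^ 2) / D ^ 2 := by
    field_simp
  rw [e]
  congr 1
  rw [hD]
  linear_combination (z ^ 2 + 2 * z + 1) * hw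

theorem two_sub_xz (z : ℂ) (h : w * z + 1 + w ≠ 0) :
    2 - xz z = (1 + 2 * w) * (z + 1) / (w * z + 1 + w) := by
  obtain ⟨D, hD⟩ : ∃ D, D = w * z + 1 + w := ⟨_, rfl⟩
  unfold xz
  rw [← hD] at h ⊢
  have e : 2 - (1 - z) / D = (2 * D - (1 - z)) / D := by
    field_simp
  rw [e]
  congr 1
  rw [hD]
  ring

theorem yv_xz (z : ℂ) (hz : z ≠ 0) (h : w * z + 1 + w ≠ 0) : yv (xz z) = z + z⁻¹ := by
  have hw := w_sq
  have h1 := NN_xz z h
  unfold yv
  rw [h1]
  obtain ⟨D, hD⟩ : ∃ D, D = w * z + 1 + w := ⟨_, rfl⟩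
  unfold xz
  rw [← hD] at h ⊢
  have e : (2 - 2 * ((1 - z) / D) - ((1 - z) / D) ^ 2) =
      (2 * D ^ 2 - 2 * (1 - z) * D - (1 - z) ^ 2) / D ^ 2 := by
    field_simp
  have e2 : 2 * D ^ 2 - 2 * (1 - z) * D - (1 - z) ^ 2 = -3 * z * (z + z⁻¹) := by
    have : -3 * z * (z + z⁻¹) = -3 * (z ^ 2 + 1) := by field_simp
    rw [this, hD]
    linear_combination (2 * z ^ 2 + 4 * z + 2) * hw
  rw [e, e2]
  field_simp

theorem xz_ne_zero (z : ℂ) (hz : z ≠ 1) (h : w * z + 1 + w ≠ 0) : xz z ≠ 0 :=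
  div_ne_zero (sub_ne_zero.mpr (Ne.symm hz)) h

theorem xz_one : xz 1 = 0 := by simp [xz]

theorem xz_cont {X : Type*} [TopologicalSpace X] {a0 : X} {g : X → ℂ} (hg : ContinuousAt g a0)
    (h : w * g a0 + 1 + w ≠ 0) : ContinuousAt (fun a => xz (g a)) a0 := by
  unfold xz
  exact (continuousAt_const.sub hg).div (((continuousAt_const.mul hg).add
    continuousAt_const).add continuousAt_const) h

/-- Chebyshev functions in terms of `z` -/
theorem sv_z (z : ℂ) (hz : z ≠ 0) (μ : ℤ) :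
    sv (z + z⁻¹) μ * (z - z⁻¹) = z ^ μ - z ^ (-μ) := by
  have key : ∀ n : ℕ, sv (z + z⁻¹) n * (z - z⁻¹) = z ^ (n : ℤ) - z ^ (-(n : ℤ)) ∧
      sv (z + z⁻¹) ((n : ℤ) + 1) * (z - z⁻¹) = z ^ ((n : ℤ) + 1) - z ^ (-((n : ℤ) + 1)) := by
    intro n
    induction n with
    | zero => simp [sv_zero, sv_one]
    | succ n ih =>
      refine ⟨by simpa using ih.2, ?_⟩
      have h1 := sv_rec (z + z⁻¹) ((n : ℤ) + 1)
      rw [show (n : ℤ) + 1 - 1 = n by ring] at h1
      have h2 : sv (z + z⁻¹) ((n : ℤ) + 1 + 1) = (z + z⁻¹) * sv (z + z⁻¹) ((n : ℤ) + 1) -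
        sv (z + z⁻¹) n := by linear_combination h1
      push_cast
      rw [h2, sub_mul, mul_assoc, ih.1, ih.2]
      rw [show -((n : ℤ) + 1 + 1) = -((n : ℤ) + 1) - 1 by ring,
        zpow_add_one₀ hz ((n : ℤ) + 1), zpow_sub_one₀ hz, zpow_add_one₀ hz (n : ℤ),
        show -((n : ℤ) + 1) = -(n : ℤ) - 1 by ring, zpow_sub_one₀ hz]
      field_simp
      ring
  rcases le_total 0 μ with h | h
  · obtain ⟨n, rfl⟩ := Int.eq_ofNat_of_zero_le h
    exact (key n).1
  · obtain ⟨n, hn⟩ := Int.eq_ofNat_of_zero_le (neg_nonneg.mpr h)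
    have h1 : μ = -(n : ℤ) := by rw [← hn]; simp
    rw [h1, sv_neg, neg_neg]
    linear_combination -(key n).1

theorem sv_neg_two_eval (μ : ℤ) : sv (-2) μ = -((μ : ℂ) * (-1) ^ μ) := by
  unfold sv
  rw [Polynomial.Chebyshev.S_eval_neg_two]
  rw [Int.negOnePow_sub]
  rcases Int.even_or_odd μ with h | h
  · rw [Int.negOnePow_even _ h, h.neg_one_zpow]
    simp
  · rw [Int.negOnePow_odd _ h, h.neg_one_zpow]
    simp

theorem Del_ofFn (m : ℕ) (v : Fin m → ℂ) :
    Del (List.ofFn v) = ∏ i : Fin m, ∏ j ∈ Finset.Ioi i, del (v i) (v j) := by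
  induction m with
  | zero => simp [Del]
  | succ m ih =>
    rw [List.ofFn_succ, Del, ih, Fin.prod_univ_succ]
    congr 1
    · rw [List.map_ofFn, List.prod_ofFn, Fin.prod_Ioi_zero]
      rfl
    · refine Finset.prod_congr rfl fun i _ => ?_
      rw [Fin.prod_Ioi_succ]

theorem del_eq (a b : ℂ) (ha : NN a ≠ 0) (hb : NN b ≠ 0) :
    del a b = -(yv b - yv a) * (NN a * NN b / 3) := by
  unfold yv del
  field_simp
  unfold NN
  ring

end

end Pool.Agent.H103.OS
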