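import Pool.Agent.H103.OS.Rec

/-!
# The odd partition function `Q` and its symmetrisation `S`
-/

set_option autoImplicit false
set_option linter.unusedSectionVars false
set_option maxHeartbeats 4000000

namespace Pool.Agent.H103.OS

open TrivSqZeroExt

noncomputable section

/-- the embedding of `ℂ` in the dual numbers -/
abbrev inl' : ℂ →+* DualNumber ℂ := TrivSqZeroExt.inlHom ℂ ℂ

/-- coefficient of `t` in the partition function -/
def Q (xs : List ℂ) : ℂ := TrivSqZeroExt.snd (Z0 (DualNumber.eps : DualNumber ℂ) (xs.map inl'))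

theorem snd_inl'_mul (a : ℂ) (z : DualNumber ℂ) :
    TrivSqZeroExt.snd (inl' a * z) = a * TrivSqZeroExt.snd z := by
  simp [inl', TrivSqZeroExt.snd_mul]

theorem Q_perm {xs ys : List ℂ} (h : xs.Perm ys) : Q xs = Q ys := by
  unfold Q
  rw [Z0_perm _ (h.map inl')]

theorem Q_single (x : ℂ) : Q [x] = 1 := by
  unfold Q Z0
  simp only [List.map_cons, List.map_nil, List.length_cons, List.length_nil, zero_add]
  rw [Z_succ]
  simp only [row_nil]
  simp only [Fintype.sum_bool, W_ffff, W_ffft, W_fftf, W_fftt, W_ftff, W_ftft, W_fttf, W_fttt,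
      W_tfff, W_tfft, W_tftf, W_tftt, W_ttff, W_ttft, W_tttf, W_tttt, V_ffff, V_ffft,
      V_fftf, V_fftt, V_ftff, V_ftft, V_fttf, V_fttt, V_tfff, V_tfft, V_tftf, V_tftt,
      V_ttff, V_ttft, V_tttf, V_tttt, K_ff, K_ft, K_tf, K_tt, mul_zero, zero_mul,
      add_zero, zero_add, mul_one, one_mul]
  simp [Z]

theorem inl'_prod (l : List ℂ) (f : ℂ → ℂ) :
    (l.map (fun z => inl' (f z))).prod = inl' ((l.map f).prod) := by
  rw [map_list_prod, List.map_map]
  rfl

theorem Q_A (x y : ℂ) (l : List ℂ) (h : x * y = 1) :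
    Q (x :: y :: l) = (1 + x) * (1 + y) *
      (l.map (fun z => (1 - x - z) * (1 - y - z))).prod * Q l := by
  unfold Q
  simp only [List.map_cons]
  rw [Z0_A _ _ _ _ (by rw [← map_mul, h, map_one])]
  have e1 : (DualNumber.eps : DualNumber ℂ) ^ 2 = 0 := by
    rw [pow_two, DualNumber.eps_mul_eps]
  rw [e1, zero_mul, add_zero]
  have e2 : (List.map (fun z => (1 - inl' x - z) * (1 - inl' y - z)) (List.map inl' l)).prod =
      inl' ((l.map (fun z => (1 - x - z) * (1 - y - z))).prod) := by
    rw [← inl'_prod, List.map_map]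
    congr 1
    refine List.map_congr_left fun z _ => ?_
    simp [Function.comp]
  rw [e2]
  have e3 : (1 + inl' x) * (1 + inl' y) = inl' ((1 + x) * (1 + y)) := by simp
  rw [e3, ← map_mul, snd_inl'_mul]

theorem Q_B (x y : ℂ) (l : List ℂ) (h : x + y = 1) :
    Q (x :: y :: l) = (1 + x) * (1 + y) *
      (l.map (fun z => (1 - x * z) * (1 - y * z))).prod * Q l := by
  unfold Q
  simp only [List.map_cons]
  rw [Z0_B _ _ _ _ (by rw [← map_add, h, map_one])]
  have e2 : (List.map (fun z => (1 - inl' x * z) * (1 - inl' y * z)) (List.map inl' l)).prod =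
      inl' ((l.map (fun z => (1 - x * z) * (1 - y * z))).prod) := by
    rw [← inl'_prod, List.map_map]
    congr 1
    refine List.map_congr_left fun z _ => ?_
    simp [Function.comp]
  rw [e2]
  have e3 : (1 + inl' x) * (1 + inl' y) = inl' ((1 + x) * (1 + y)) := by simp
  rw [e3, ← map_mul, snd_inl'_mul]

theorem Q_deg (l : List ℂ) : PolyFun l.length (fun x => Q (x :: l)) := by
  obtain ⟨p, hp, hp'⟩ := Z0_deg (DualNumber.eps : DualNumber ℂ) (l.map inl')
  refine ⟨∑ k ∈ Finset.range (l.length + 1),
    Polynomial.C (TrivSqZeroExt.snd (p.coeff k)) * Polynomial.X ^ k, ?_, ?_⟩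
  · refine Polynomial.natDegree_sum_le_of_forall_le _ _ fun k hk => ?_
    refine (Polynomial.natDegree_C_mul_X_pow_le _ _).trans ?_
    have := Finset.mem_range.mp hk
    omega
  · intro x
    have hx := hp' (inl' x)
    simp only at hx
    simp only [Q, List.map_cons]
    rw [hx, Polynomial.eval_eq_sum_range' (n := l.length + 1)]
    · rw [Polynomial.eval_finsetSum, TrivSqZeroExt.snd_sum]
      refine Finset.sum_congr rfl fun k _ => ?_
      rw [← map_pow, mul_comm, snd_inl'_mul]
      simp only [Polynomial.eval_mul, Polynomial.eval_C, Polynomial.eval_pow, Polynomial.eval_X]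
      ring
    · have : p.natDegree ≤ l.length := by simpa using hp
      omega

/-- the involution `x ↦ x/(x-1)` -/
def tau (x : ℂ) : ℂ := x / (x - 1)

/-- the symmetrised function -/
def S (xs : List ℂ) : ℂ :=
  (xs.map (fun x => 1 - 2 * x)).prod * Q xs +
    (xs.map (fun x => (1 + x) * (1 - x) ^ (xs.length - 1))).prod * Q (xs.map tau)

theorem S_perm {xs ys : List ℂ} (h : xs.Perm ys) : S xs = S ys := by
  unfold S
  rw [(h.map _).prod_eq, Q_perm h, h.length_eq, (h.map _).prod_eq, Q_perm (h.map tau)]

theorem S_single (x : ℂ) : S [x] = 2 - x := by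
  unfold S
  simp only [List.map_cons, List.map_nil, Q_single, List.prod_cons, List.prod_nil,
    List.length_cons, List.length_nil]
  ring

theorem prod_map_const_mul (l : List ℂ) (c : ℂ) (g : ℂ → ℂ) :
    (l.map (fun z => c * g z)).prod = c ^ l.length * (l.map g).prod := by
  induction l with
  | nil => simp
  | cons a l ih => simp only [List.map_cons, List.prod_cons, ih, List.length_cons]; ring

/-- the common computation of the two recursions of `S` -/
theorem S_step (x y : ℂ) (l : List ℂ) (k : ℕ) (hk : l.length = k + 1) (hx : x ≠ 1) (hy : y ≠ 1)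
    (hl : ∀ z ∈ l, z ≠ 1) (F G : ℂ → ℂ)
    (hF : ∀ z ∈ l, G (tau z) * ((1 - x) * (1 - y)) * (1 - z) ^ 2 = F z) :
    ((1 + x) * (1 - x) ^ (k + 2)) * (((1 + y) * (1 - y) ^ (k + 2)) *
      (l.map (fun z => (1 + z) * (1 - z) ^ (k + 2))).prod) *
      ((1 + tau x) * (1 + tau y) * ((l.map tau).map G).prod) =
    (1 - 2 * x) * (1 - 2 * y) * (1 + x) * (1 + y) * (l.map F).prod *
      (l.map (fun z => (1 + z) * (1 - z) ^ k)).prod := by
  have hx1 : x - 1 ≠ 0 := sub_ne_zero.mpr hx
  have hy1 : y - 1 ≠ 0 := sub_ne_zero.mpr hy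
  have e1 : (1 + tau x) * (1 - x) = 1 - 2 * x := by
    unfold tau; field_simp; ring
  have e2 : (1 + tau y) * (1 - y) = 1 - 2 * y := by
    unfold tau; field_simp; ring
  have e3 : ((1 - x) * (1 - y)) ^ (k + 1) *
      ((l.map (fun z => (1 + z) * (1 - z) ^ (k + 2))).prod * ((l.map tau).map G).prod) =
      (l.map F).prod * (l.map (fun z => (1 + z) * (1 - z) ^ k)).prod := by
    rw [List.map_map, ← List.prod_map_mul, ← hk, ← prod_map_const_mul, ← List.prod_map_mul]
    congr 1
    refine List.map_congr_left fun z hz => ?_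
    rw [← hF z hz]
    simp only [Function.comp]
    ring
  calc _ = (((1 + tau x) * (1 - x)) * ((1 + tau y) * (1 - y))) * ((1 + x) * (1 + y)) *
        (((1 - x) * (1 - y)) ^ (k + 1) *
      ((l.map (fun z => (1 + z) * (1 - z) ^ (k + 2))).prod * ((l.map tau).map G).prod)) := by
        rw [mul_pow]; ring
    _ = _ := by rw [e1, e2, e3]; ring

theorem S_A (x y : ℂ) (l : List ℂ) (h : x * y = 1) (hx : x ≠ 1)
    (hl : ∀ z ∈ l, z ≠ 1) (hodd : 1 ≤ l.length) :
    S (x :: y :: l) = (1 - 2 * x) * (1 - 2 * y) * (1 + x) * (1 + y) *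
      (l.map (fun z => (1 - x - z) * (1 - y - z))).prod * S l := by
  have hx0 : x ≠ 0 := by rintro rfl; simp at h
  have hy : y ≠ 1 := by rintro rfl; apply hx; simpa using h
  have hx1 : x - 1 ≠ 0 := sub_ne_zero.mpr hx
  have hy1 : y - 1 ≠ 0 := sub_ne_zero.mpr hy
  obtain ⟨k, hk⟩ : ∃ k, l.length = k + 1 := ⟨l.length - 1, by omega⟩
  unfold S
  rw [Q_A x y l h]
  simp only [List.map_cons, List.prod_cons, List.length_cons]
  rw [Q_B (tau x) (tau y) (l.map tau) (by
    unfold tau; field_simp; linear_combination h)]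
  have hs := S_step x y l k hk hx hy hl (fun z => (1 - x - z) * (1 - y - z))
    (fun z => (1 - tau x * z) * (1 - tau y * z)) (by
      intro z hz
      have hz1 : z - 1 ≠ 0 := sub_ne_zero.mpr (hl z hz)
      unfold tau
      field_simp
      ring)
  rw [hk]
  simp only [Nat.add_sub_cancel]
  linear_combination (Q (l.map tau)) * hs

theorem S_B (x y : ℂ) (l : List ℂ) (h : x + y = 1) (hx : x ≠ 1) (hy : y ≠ 1)
    (hl : ∀ z ∈ l, z ≠ 1) (hodd : 1 ≤ l.length) :
    S (x :: y :: l) = (1 - 2 * x) * (1 - 2 * y) * (1 + x) * (1 + y) *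
      (l.map (fun z => (1 - x * z) * (1 - y * z))).prod * S l := by
  have hx1 : x - 1 ≠ 0 := sub_ne_zero.mpr hx
  have hy1 : y - 1 ≠ 0 := sub_ne_zero.mpr hy
  obtain ⟨k, hk⟩ : ∃ k, l.length = k + 1 := ⟨l.length - 1, by omega⟩
  unfold S
  rw [Q_B x y l h]
  simp only [List.map_cons, List.prod_cons, List.length_cons]
  rw [Q_A (tau x) (tau y) (l.map tau) (by
    unfold tau; field_simp; linear_combination h)]
  have hs := S_step x y l k hk hx hy hl (fun z => (1 - x * z) * (1 - y * z))
    (fun z => (1 - tau x - z) * (1 - tau y - z)) (by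
      intro z hz
      have hz1 : z - 1 ≠ 0 := sub_ne_zero.mpr (hl z hz)
      unfold tau
      field_simp
      ring)
  rw [hk]
  simp only [Nat.add_sub_cancel]
  linear_combination (Q (l.map tau)) * hs

/-- for fixed other arguments `S` is a polynomial function away from `1` -/
theorem S_deg (l : List ℂ) : ∃ p : Polynomial ℂ, p.natDegree ≤ l.length + 1 ∧
    ∀ x, x ≠ 1 → S (x :: l) = p.eval x := by
  obtain ⟨q, hq, hq'⟩ := Q_deg l
  obtain ⟨q2, hq2, hq2'⟩ := Q_deg (l.map tau)
  rw [List.length_map] at hq2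
  set c1 := (l.map (fun x => 1 - 2 * x)).prod
  set c2 := (l.map (fun x => (1 + x) * (1 - x) ^ l.length)).prod
  refine ⟨(Polynomial.C 1 - Polynomial.C 2 * Polynomial.X) * (Polynomial.C c1 * q) +
    (Polynomial.C 1 + Polynomial.C 1 * Polynomial.X) * (Polynomial.C c2 *
      ∑ k ∈ Finset.range (l.length + 1), Polynomial.C (q2.coeff k) *
        ((-Polynomial.X) ^ k * (Polynomial.C 1 - Polynomial.X) ^ (l.length - k))), ?_, ?_⟩
  · refine (Polynomial.natDegree_add_le _ _).trans (max_le ?_ ?_)
    · refine Polynomial.natDegree_mul_le.trans ?_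
      have h1 : (Polynomial.C 1 - Polynomial.C 2 * Polynomial.X : Polynomial ℂ).natDegree ≤ 1 := by
        compute_degree
      have h2 : (Polynomial.C c1 * q).natDegree ≤ l.length :=
        (Polynomial.natDegree_C_mul_le _ _).trans hq
      omega
    · refine Polynomial.natDegree_mul_le.trans ?_
      have h1 : (Polynomial.C 1 + Polynomial.C 1 * Polynomial.X : Polynomial ℂ).natDegree ≤ 1 := by
        compute_degree
      have h2 : (Polynomial.C c2 *
        ∑ k ∈ Finset.range (l.length + 1), Polynomial.C (q2.coeff k) *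
        ((-Polynomial.X) ^ k * (Polynomial.C 1 - Polynomial.X) ^ (l.length - k))).natDegree
          ≤ l.length := by
        refine (Polynomial.natDegree_C_mul_le _ _).trans ?_
        refine Polynomial.natDegree_sum_le_of_forall_le _ _ fun k hk => ?_
        refine (Polynomial.natDegree_C_mul_le _ _).trans ?_
        have hk' := Finset.mem_range.mp hk
        refine Polynomial.natDegree_mul_le.trans ?_
        have h3 : ((-Polynomial.X : Polynomial ℂ) ^ k).natDegree ≤ k := by
          refine Polynomial.natDegree_pow_le.trans ?_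
          simp
        have h4 : ((Polynomial.C 1 - Polynomial.X : Polynomial ℂ) ^ (l.length - k)).natDegree
            ≤ l.length - k := by
          refine Polynomial.natDegree_pow_le.trans ?_
          have : (Polynomial.C 1 - Polynomial.X : Polynomial ℂ).natDegree ≤ 1 := by
            compute_degree
          nlinarith
        omega
      omega
  · intro x hx
    have hx1 : x - 1 ≠ 0 := sub_ne_zero.mpr hx
    simp only [S, List.map_cons, List.prod_cons, List.length_cons, Nat.add_sub_cancel]
    have h1 := hq' x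
    have h2 := hq2' (tau x)
    simp only at h1 h2
    rw [h1, h2]
    have h3 : q2.eval (tau x) * (1 - x) ^ l.length =
        ∑ k ∈ Finset.range (l.length + 1), q2.coeff k * ((-x) ^ k * (1 - x) ^ (l.length - k)) := by
      rw [Polynomial.eval_eq_sum_range' (n := l.length + 1) (by omega), Finset.sum_mul]
      refine Finset.sum_congr rfl fun k hk => ?_
      have hk' := Finset.mem_range.mp hk
      have e1 : (1 - x) ^ l.length = (1 - x) ^ k * (1 - x) ^ (l.length - k) := by
        rw [← pow_add]; congr 1; omega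
      have e2 : tau x * (1 - x) = -x := by
        unfold tau; field_simp; ring
      rw [e1, ← e2, mul_pow]
      ring
    simp only [Polynomial.eval_add, Polynomial.eval_mul, Polynomial.eval_sub, Polynomial.eval_C,
      Polynomial.eval_X, Polynomial.eval_finsetSum, Polynomial.eval_pow, Polynomial.eval_neg]
    rw [← h3]
    ring

theorem tau_zero : tau 0 = 0 := by simp [tau]

theorem S_zero (n : ℕ) : S (List.replicate n 0) = 2 * Q (List.replicate n 0) := by
  unfold S
  simp [tau_zero]
  ring

end

end Pool.Agent.H103.OS
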