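import Pool.Agent.H103.OS.Six

/-!
# Recursions for the partition function
-/

set_option autoImplicit false
set_option linter.unusedSectionVars false
set_option maxHeartbeats 4000000

namespace Pool.Agent.H103.OS

variable {R : Type*} [CommRing R]

/-- parameters with zero bits -/
def zb (l : List R) : List (R × Bool) := l.map (fun x => (x, false))

@[simp] theorem zb_nil : zb ([] : List R) = [] := rfl
@[simp] theorem zb_cons (x : R) (l : List R) : zb (x :: l) = (x, false) :: zb l := rfl
@[simp] theorem zb_append (l l' : List R) : zb (l ++ l') = zb l ++ zb l' := by simp [zb]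
@[simp] theorem zb_length (l : List R) : (zb l).length = l.length := by simp [zb]

theorem Z0_def (t : R) (l : List R) : Z0 t l = Z t l.length (zb l) := rfl

theorem row_congr' (x : R) (f g : List (R × Bool) → R) (r : Bool) (l : List (R × Bool))
    (h : ∀ l' : List (R × Bool), l'.map Prod.fst = l.map Prod.fst → f l' = g l') :
    row x f r l = row x g r l := by
  induction l generalizing f g r with
  | nil => simp only [row_nil, h [] rfl]
  | cons p l ih =>
    obtain ⟨y, c⟩ := p
    simp only [row_cons]
    refine Finset.sum_congr rfl fun r' _ => Finset.sum_congr rfl fun c' _ => ?_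
    rw [ih _ (fun l' => g ((y, c') :: l')) r' (fun l' hl' => h _ (by simp [hl']))]

/-- a row which starts with bit `1` over zero bits is frozen -/
theorem row_true (x : R) (f : List (R × Bool) → R) (l : List R) :
    row x f true (zb l) = (l.map (fun z => 1 - x - z)).prod * f (zb l) := by
  induction l generalizing f with
  | nil => simp [row_nil]
  | cons z l ih =>
    simp only [zb_cons, row_cons, List.map_cons, List.prod_cons]
    simp only [Fintype.sum_bool, W_ffff, W_ffft, W_fftf, W_fftt, W_ftff, W_ftft, W_fttf, W_fttt,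
        W_tfff, W_tfft, W_tftf, W_tftt, W_ttff, W_ttft, W_tttf, W_tttt, V_ffff, V_ffft,
        V_fftf, V_fftt, V_ftff, V_ftft, V_fttf, V_fttt, V_tfff, V_tfft, V_tftf, V_tftt,
        V_ttff, V_ttft, V_tttf, V_tttt, K_ff, K_ft, K_tf, K_tt, mul_zero, zero_mul,
        add_zero, zero_add, mul_one, one_mul]
    rw [ih]; ring

theorem row2_true (x y : R) (f : List (R × Bool) → R) (l : List R) :
    row2 x y f true true (zb l) =
      (l.map (fun z => (1 - x - z) * (1 - y - z))).prod * f (zb l) := by
  unfold row2
  rw [row_true, row_true, List.prod_map_mul]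
  ring

/-- recursion at `x y = 1` -/
theorem Z0_A (t x y : R) (l : List R) (h : x * y = 1) :
    Z0 t (x :: y :: l) = ((1 + x) * (1 + y) + t ^ 2 * (1 - x - y)) *
      (l.map (fun z => (1 - x - z) * (1 - y - z))).prod * Z0 t l := by
  rw [Z0_def, Z0_def]
  simp only [List.length_cons, zb_cons]
  rw [Z_two]
  have e0 : ∀ s, G t x y false false false s = 0 := by
    intro s
    unfold G
    cases s <;> simp only [Fintype.sum_bool, W_ffff, W_ffft, W_fftf, W_fftt, W_ftff, W_ftft, W_fttf, W_fttt,
        W_tfff, W_tfft, W_tftf, W_tftt, W_ttff, W_ttft, W_tttf, W_tttt, V_ffff, V_ffft,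
        V_fftf, V_fftt, V_ftff, V_ftft, V_fttf, V_fttt, V_tfff, V_tfft, V_tftf, V_tftt,
        V_ttff, V_ttft, V_tttf, V_tttt, K_ff, K_ft, K_tf, K_tt, mul_zero, zero_mul,
        add_zero, zero_add, mul_one, one_mul] <;> rw [h] <;> ring
  have e1 : G t x y false false true false = 0 := by
    unfold G
    simp only [Fintype.sum_bool, W_ffff, W_ffft, W_fftf, W_fftt, W_ftff, W_ftft, W_fttf, W_fttt,
        W_tfff, W_tfft, W_tftf, W_tftt, W_ttff, W_ttft, W_tttf, W_tttt, V_ffff, V_ffft,
        V_fftf, V_fftt, V_ftff, V_ftft, V_fttf, V_fttt, V_tfff, V_tfft, V_tftf, V_tftt,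
        V_ttff, V_ttft, V_tttf, V_tttt, K_ff, K_ft, K_tf, K_tt, mul_zero, zero_mul,
        add_zero, zero_add, mul_one, one_mul]
    simp only [NN]
    linear_combination (-t * (2 - y)) * h
  have e2 : G t x y false false true true = (1 + x) * (1 + y) + t ^ 2 * (1 - x - y) := by
    unfold G
    simp only [Fintype.sum_bool, W_ffff, W_ffft, W_fftf, W_fftt, W_ftff, W_ftft, W_fttf, W_fttt,
        W_tfff, W_tfft, W_tftf, W_tftt, W_ttff, W_ttft, W_tttf, W_tttt, V_ffff, V_ffft,
        V_fftf, V_fftt, V_ftff, V_ftft, V_fttf, V_fttt, V_tfff, V_tfft, V_tftf, V_tftt,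
        V_ttff, V_ttft, V_tttf, V_tttt, K_ff, K_ft, K_tf, K_tt, mul_zero, zero_mul,
        add_zero, zero_add, mul_one, one_mul]
    ring
  simp only [Fintype.sum_bool, e0, e1, e2, row2_true]
  ring

/-- first row of the recursion at `x + y = 1` -/
theorem row_false_last (x y : R) (f : List (R × Bool) → R) (l : List R) (h : x + y = 1) :
    row x f false (zb l ++ [(y, false)]) =
      (l.map (fun z => 1 - x * z)).prod * f (zb l ++ [(y, true)]) := by
  induction l generalizing f with
  | nil =>
    simp only [zb_nil, List.nil_append, row_cons, row_nil]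
    simp only [Fintype.sum_bool, W_ffff, W_ffft, W_fftf, W_fftt, W_ftff, W_ftft, W_fttf, W_fttt,
        W_tfff, W_tfft, W_tftf, W_tftt, W_ttff, W_ttft, W_tttf, W_tttt, V_ffff, V_ffft,
        V_fftf, V_fftt, V_ftff, V_ftft, V_fttf, V_fttt, V_tfff, V_tfft, V_tftf, V_tftt,
        V_ttff, V_ttft, V_tttf, V_tttt, K_ff, K_ft, K_tf, K_tt, mul_zero, zero_mul,
        add_zero, zero_add, mul_one, one_mul]
    simp
  | cons z l ih =>
    simp only [zb_cons, List.cons_append, row_cons, List.map_cons, List.prod_cons]
    simp only [Fintype.sum_bool, W_ffff, W_ffft, W_fftf, W_fftt, W_ftff, W_ftft, W_fttf, W_fttt,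
        W_tfff, W_tfft, W_tftf, W_tftt, W_ttff, W_ttft, W_tttf, W_tttt, V_ffff, V_ffft,
        V_fftf, V_fftt, V_ftff, V_ftft, V_fttf, V_fttt, V_tfff, V_tfft, V_tftf, V_tftt,
        V_ttff, V_ttft, V_tttf, V_tttt, K_ff, K_ft, K_tf, K_tt, mul_zero, zero_mul,
        add_zero, zero_add, mul_one, one_mul]
    rw [ih]
    have : zb l ++ [(y, false)] = zb (l ++ [y]) := by simp
    rw [this, row_true]
    have h0 : ((l ++ [y]).map (fun z => 1 - x - z)).prod = 0 := by
      rw [List.map_append, List.prod_append]
      simp only [List.map_cons, List.map_nil, List.prod_cons, List.prod_nil, mul_one]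
      have : (1 - x - y) = 0 := by linear_combination -h
      rw [this, mul_zero]
    rw [h0]; ring

/-- a row over a list whose last bit is `1` -/
theorem row_last_true (z y : R) (f : List (R × Bool) → R) (r : Bool) (l : List (R × Bool)) :
    row z f r (l ++ [(y, true)]) =
      (1 - z * y) * row z (fun l' => f (l' ++ [(y, true)])) r l := by
  induction l generalizing f r with
  | nil =>
    simp only [List.nil_append, row_cons, row_nil]
    cases r <;> simp only [Fintype.sum_bool, W_ffff, W_ffft, W_fftf, W_fftt, W_ftff, W_ftft, W_fttf, W_fttt,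
        W_tfff, W_tfft, W_tftf, W_tftt, W_ttff, W_ttft, W_tttf, W_tttt, V_ffff, V_ffft,
        V_fftf, V_fftt, V_ftff, V_ftft, V_fttf, V_fttt, V_tfff, V_tfft, V_tftf, V_tftt,
        V_ttff, V_ttft, V_tttf, V_tttt, K_ff, K_ft, K_tf, K_tt, mul_zero, zero_mul,
        add_zero, zero_add, mul_one, one_mul] <;> simp
  | cons p l ih =>
    obtain ⟨u, c⟩ := p
    simp only [List.cons_append, row_cons, ih, Finset.mul_sum]
    refine Finset.sum_congr rfl fun r' _ => Finset.sum_congr rfl fun c' _ => ?_
    ring

/-- a last column with top bit `1` factors out -/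
theorem Z_last_true (t y : R) (n : ℕ) (l : List (R × Bool)) (hl : l.length = n) :
    Z t (n + 1) (l ++ [(y, true)]) =
      (l.map (fun p => 1 - p.1 * y)).prod * (1 + y) * Z t n l := by
  induction n generalizing l with
  | zero =>
    obtain rfl : l = [] := List.length_eq_zero_iff.mp hl
    simp only [List.nil_append, Z_succ, row_nil]
    simp only [Fintype.sum_bool, W_ffff, W_ffft, W_fftf, W_fftt, W_ftff, W_ftft, W_fttf, W_fttt,
        W_tfff, W_tfft, W_tftf, W_tftt, W_ttff, W_ttft, W_tttf, W_tttt, V_ffff, V_ffft,
        V_fftf, V_fftt, V_ftff, V_ftft, V_fttf, V_fttt, V_tfff, V_tfft, V_tftf, V_tftt,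
        V_ttff, V_ttft, V_tttf, V_tttt, K_ff, K_ft, K_tf, K_tt, mul_zero, zero_mul,
        add_zero, zero_add, mul_one, one_mul]
    simp [Z]
  | succ n ih =>
    cases l with
    | nil => simp at hl
    | cons p l =>
      obtain ⟨z, c⟩ := p
      simp only [List.length_cons, add_left_inj] at hl
      simp only [List.cons_append, Z_succ, row_last_true]
      have h1 : ∀ r : Bool, row z (fun l' => Z t (n + 1) (l' ++ [(y, true)])) r l =
          (l.map (fun p => 1 - p.1 * y)).prod * (1 + y) * row z (Z t n) r l := by
        intro r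
        rw [← row_mul]
        apply row_congr'
        intro l' hl'
        have hlen : l'.length = n := by
          have := congrArg List.length hl'
          simp only [List.length_map] at this
          omega
        rw [ih l' hlen]
        have : l'.map (fun p => 1 - p.1 * y) = l.map (fun p => 1 - p.1 * y) := by
          have := congrArg (List.map (fun a : R => 1 - a * y)) hl'
          simpa [List.map_map, Function.comp_def] using this
        rw [this]
      simp only [h1, List.map_cons, List.prod_cons, Fintype.sum_bool]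
      ring

/-- recursion at `x + y = 1` -/
theorem Z0_B (t x y : R) (l : List R) (h : x + y = 1) :
    Z0 t (x :: y :: l) = (1 + x) * (1 + y) *
      (l.map (fun z => (1 - x * z) * (1 - y * z))).prod * Z0 t l := by
  have hp : (x :: y :: l).Perm (x :: (l ++ [y])) :=
    List.Perm.cons x (by simpa using (List.perm_append_comm (l₁ := [y]) (l₂ := l)))
  rw [Z0_perm t hp, Z0_def, Z0_def]
  simp only [List.length_cons, zb_cons, zb_append, List.length_append, List.length_nil, zero_add,
    zb_nil]
  rw [Z_succ]
  simp only [Fintype.sum_bool, row_false_last x y _ l h]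
  have e1 : row x (Z t (l.length + 1)) true (zb l ++ [(y, false)]) = 0 := by
    have : zb l ++ [(y, false)] = zb (l ++ [y]) := by simp
    rw [this, row_true]
    have h0 : ((l ++ [y]).map (fun z => 1 - x - z)).prod = 0 := by
      rw [List.map_append, List.prod_append]
      simp only [List.map_cons, List.map_nil, List.prod_cons, List.prod_nil, mul_one]
      have : (1 - x - y) = 0 := by linear_combination -h
      rw [this, mul_zero]
    rw [h0, zero_mul]
  rw [e1, Z_last_true t y l.length (zb l) (by simp), List.prod_map_mul]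
  have e2 : (zb l).map (fun p => 1 - p.1 * y) = l.map (fun z => 1 - y * z) := by
    simp only [zb, List.map_map, Function.comp_def]
    refine List.map_congr_left fun z _ => by ring
  rw [e2]
  simp only [Fintype.sum_bool, W_ffff, W_ffft, W_fftf, W_fftt, W_ftff, W_ftft, W_fttf, W_fttt,
      W_tfff, W_tfft, W_tftf, W_tftt, W_ttff, W_ttft, W_tttf, W_tttt, V_ffff, V_ffft,
      V_fftf, V_fftt, V_ftff, V_ftft, V_fttf, V_fttt, V_tfff, V_tfft, V_tftf, V_tftt,
      V_ttff, V_ttft, V_tttf, V_tttt, K_ff, K_ft, K_tf, K_tt, mul_zero, zero_mul,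
      add_zero, zero_add, mul_one, one_mul]
  ring

/-! ### Degrees -/

/-- `g` is a polynomial function with coefficients `a` of degree at most `d` -/
def PolyFun (d : ℕ) (g : R → R) : Prop :=
  ∃ p : Polynomial R, p.natDegree ≤ d ∧ ∀ x, g x = p.eval x

theorem PolyFun.add {d : ℕ} {g h : R → R} (hg : PolyFun d g) (hh : PolyFun d h) :
    PolyFun d (fun x => g x + h x) := by
  obtain ⟨p, hp, hp'⟩ := hg
  obtain ⟨q, hq, hq'⟩ := hh
  exact ⟨p + q, (Polynomial.natDegree_add_le _ _).trans (max_le hp hq), fun x => by
    simp [hp', hq']⟩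

theorem PolyFun.mul {d e : ℕ} {g h : R → R} (hg : PolyFun d g) (hh : PolyFun e h) :
    PolyFun (d + e) (fun x => g x * h x) := by
  obtain ⟨p, hp, hp'⟩ := hg
  obtain ⟨q, hq, hq'⟩ := hh
  exact ⟨p * q, (Polynomial.natDegree_mul_le).trans (by omega), fun x => by
    simp [hp', hq']⟩

theorem PolyFun.const (d : ℕ) (a : R) : PolyFun d (fun _ : R => a) :=
  ⟨Polynomial.C a, by simp, fun x => by simp⟩

theorem PolyFun.mono {d e : ℕ} {g : R → R} (hg : PolyFun d g) (h : d ≤ e) : PolyFun e g := by
  obtain ⟨p, hp, hp'⟩ := hg
  exact ⟨p, hp.trans h, hp'⟩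

theorem PolyFun.linear (a b : R) : PolyFun 1 (fun x : R => a + b * x) :=
  ⟨Polynomial.C a + Polynomial.C b * Polynomial.X, by
    refine (Polynomial.natDegree_add_le _ _).trans ?_
    simp only [Polynomial.natDegree_C]
    exact max_le (by omega) (Polynomial.natDegree_C_mul_le _ _ |>.trans Polynomial.natDegree_X_le),
    fun x => by simp⟩

theorem PolyFun.list_prod {ι : Type*} (l : List ι) (g : ι → R → R)
    (h : ∀ i ∈ l, PolyFun 1 (g i)) :
    PolyFun l.length (fun x => (l.map (fun i => g i x)).prod) := by
  induction l with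
  | nil => simpa using PolyFun.const 0 (1 : R)
  | cons i l ih =>
    simp only [List.map_cons, List.prod_cons, List.length_cons]
    have := (h i (by simp)).mul (ih (fun j hj => h j (by simp [hj])))
    exact this.mono (by omega)

theorem row_true_deg (f : List (R × Bool) → R) (l : List R) :
    PolyFun l.length (fun x => row x f true (zb l)) := by
  simp only [row_true]
  have h1 := PolyFun.list_prod l (fun z (x : R) => 1 - x - z) (fun z _ => by
    have := PolyFun.linear (1 - z) (-1 : R)
    convert this using 2
    ring)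
  exact (h1.mul (PolyFun.const 0 (f (zb l)))).mono (by omega)

theorem row_false_deg (f : List (R × Bool) → R) (l : List R) :
    PolyFun (l.length - 1) (fun x => row x f false (zb l)) := by
  induction l generalizing f with
  | nil => simpa [row_nil] using PolyFun.const 0 (0 : R)
  | cons z l ih =>
    have e : (fun x : R => row x f false (zb (z :: l))) =
        fun x => (1 - x * z) * row x (fun l' => f ((z, false) :: l')) false (zb l) +
          row x (fun l' => f ((z, true) :: l')) true (zb l) := by
      funext x
      simp only [zb_cons, row_cons]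
      simp only [Fintype.sum_bool, W_ffff, W_ffft, W_fftf, W_fftt, W_ftff, W_ftft, W_fttf, W_fttt,
          W_tfff, W_tfft, W_tftf, W_tftt, W_ttff, W_ttft, W_tttf, W_tttt, V_ffff, V_ffft,
          V_fftf, V_fftt, V_ftff, V_ftft, V_fttf, V_fttt, V_tfff, V_tfft, V_tftf, V_tftt,
          V_ttff, V_ttft, V_tttf, V_tttt, K_ff, K_ft, K_tf, K_tt, mul_zero, zero_mul,
          add_zero, zero_add, mul_one, one_mul]
      ring
    rw [e]
    simp only [List.length_cons, Nat.add_sub_cancel]
    refine PolyFun.add ?_ (row_true_deg _ l)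
    cases l with
    | nil => simpa [row_nil] using PolyFun.const 0 (0 : R)
    | cons u l =>
      have h1 : PolyFun 1 (fun x : R => 1 - x * z) := by
        have := PolyFun.linear (1 : R) (-z)
        convert this using 2
        ring
      have := h1.mul (ih (fun l' => f ((z, false) :: l')))
      simp only [List.length_cons, Nat.add_sub_cancel] at this
      exact this.mono (by simp; omega)

theorem Z0_deg (t : R) (l : List R) : PolyFun l.length (fun x => Z0 t (x :: l)) := by
  have e : (fun x : R => Z0 t (x :: l)) = fun x =>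
      (1 + x) * row x (Z t l.length) false (zb l) + t * row x (Z t l.length) true (zb l) := by
    funext x
    rw [Z0_def]
    simp only [List.length_cons, zb_cons, Z_succ]
    simp only [Fintype.sum_bool, W_ffff, W_ffft, W_fftf, W_fftt, W_ftff, W_ftft, W_fttf, W_fttt,
        W_tfff, W_tfft, W_tftf, W_tftt, W_ttff, W_ttft, W_tttf, W_tttt, V_ffff, V_ffft,
        V_fftf, V_fftt, V_ftff, V_ftft, V_fttf, V_fttt, V_tfff, V_tfft, V_tftf, V_tftt,
        V_ttff, V_ttft, V_tttf, V_tttt, K_ff, K_ft, K_tf, K_tt, mul_zero, zero_mul,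
        add_zero, zero_add, mul_one, one_mul]
    ring
  rw [e]
  refine PolyFun.add ?_ ?_
  · cases l with
    | nil => simpa [row_nil] using PolyFun.const 0 (0 : R)
    | cons u l =>
      have h1 : PolyFun 1 (fun x : R => 1 + x) := by
        have := PolyFun.linear (1 : R) (1 : R)
        simpa using this
      have := h1.mul (row_false_deg (Z t (u :: l).length) (u :: l))
      exact this.mono (by simp; omega)
  · exact ((PolyFun.const 0 t).mul (row_true_deg _ l)).mono (by omega)

end Pool.Agent.H103.OS
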