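import Pool.Agent.H103.OS.Defs

/-!
# Symmetry of the partition function

Yang-Baxter equations, reflection equation, and the exchange relation for the partition function.
-/

set_option autoImplicit false
set_option maxHeartbeats 4000000

namespace Pool.Agent.H103.OS

variable {R : Type*} [CommRing R]

theorem W_ffff (x y : R) : W x y false false false false = 1 - x * y := rfl
theorem W_ffft (x y : R) : W x y false false false true = 0 := rfl
theorem W_fftf (x y : R) : W x y false false true false = 0 := rfl
theorem W_fftt (x y : R) : W x y false false true true = 1 := rfl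
theorem W_ftff (x y : R) : W x y false true false false = 0 := rfl
theorem W_ftft (x y : R) : W x y false true false true = 1 - x - y := rfl
theorem W_fttf (x y : R) : W x y false true true false = 0 := rfl
theorem W_fttt (x y : R) : W x y false true true true = 0 := rfl
theorem W_tfff (x y : R) : W x y true false false false = 0 := rfl
theorem W_tfft (x y : R) : W x y true false false true = 0 := rfl
theorem W_tftf (x y : R) : W x y true false true false = 1 - x - y := rfl
theorem W_tftt (x y : R) : W x y true false true true = 0 := rfl
theorem W_ttff (x y : R) : W x y true true false false = NN x * NN y := rfl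
theorem W_ttft (x y : R) : W x y true true false true = 0 := rfl
theorem W_tttf (x y : R) : W x y true true true false = 0 := rfl
theorem W_tttt (x y : R) : W x y true true true true = 1 - x * y := rfl
theorem V_ffff (x y : R) : V x y false false false false = 1 - x + x * y := rfl
theorem V_ffft (x y : R) : V x y false false false true = 0 := rfl
theorem V_fftf (x y : R) : V x y false false true false = 0 := rfl
theorem V_fftt (x y : R) : V x y false false true true = 0 := rfl
theorem V_ftff (x y : R) : V x y false true false false = 0 := rfl
theorem V_ftft (x y : R) : V x y false true false true = NN y := rfl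
theorem V_fttf (x y : R) : V x y false true true false = y - x := rfl
theorem V_fttt (x y : R) : V x y false true true true = 0 := rfl
theorem V_tfff (x y : R) : V x y true false false false = 0 := rfl
theorem V_tfft (x y : R) : V x y true false false true = y - x := rfl
theorem V_tftf (x y : R) : V x y true false true false = NN x := rfl
theorem V_tftt (x y : R) : V x y true false true true = 0 := rfl
theorem V_ttff (x y : R) : V x y true true false false = 0 := rfl
theorem V_ttft (x y : R) : V x y true true false true = 0 := rfl
theorem V_tttf (x y : R) : V x y true true true false = 0 := rfl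
theorem V_tttt (x y : R) : V x y true true true true = 1 - x + x * y := rfl
theorem K_ff (t x : R) : K t x false false = 1 + x := rfl
theorem K_ft (t x : R) : K t x false true = t := rfl
theorem K_tf (t x : R) : K t x true false = t * NN x := rfl
theorem K_tt (t x : R) : K t x true true = 1 + x := rfl


theorem ybe_v (x y w : R) (r c d r2 c2 d2 : Bool) :
    (∑ a : Bool, ∑ b : Bool, ∑ r1 : Bool,
      V x y c d a b * (W w y r a r1 c2 * W w x r1 b r2 d2)) =
    ∑ a : Bool, ∑ b : Bool, ∑ r1 : Bool,
      (W w x r c r1 a * W w y r1 d r2 b) * V x y a b c2 d2 := by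
  cases r <;> cases c <;> cases d <;> cases r2 <;> cases c2 <;> cases d2 <;>
    simp only [Fintype.sum_bool, W_ffff, W_ffft, W_fftf, W_fftt, W_ftff, W_ftft, W_fttf, W_fttt,
        W_tfff, W_tfft, W_tftf, W_tftt, W_ttff, W_ttft, W_tttf, W_tttt, V_ffff, V_ffft,
        V_fftf, V_fftt, V_ftff, V_ftft, V_fttf, V_fttt, V_tfff, V_tfft, V_tftf, V_tftt,
        V_ttff, V_ttft, V_tttf, V_tttt, K_ff, K_ft, K_tf, K_tt, mul_zero, zero_mul,
        add_zero, zero_add, mul_one, one_mul] <;> (try simp only [NN]) <;> ring

theorem ybe_h (x y w : R) (r s c r2 s2 c2 : Bool) :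
    (∑ a : Bool, ∑ b : Bool, ∑ c1 : Bool,
      (W x w r c a c1 * W y w s c1 b c2) * V x y a b r2 s2) =
    ∑ a : Bool, ∑ b : Bool, ∑ c1 : Bool,
      V x y r s a b * (W y w a c r2 c1 * W x w b c1 s2 c2) := by
  cases r <;> cases s <;> cases c <;> cases r2 <;> cases s2 <;> cases c2 <;>
    simp only [Fintype.sum_bool, W_ffff, W_ffft, W_fftf, W_fftt, W_ftff, W_ftft, W_fttf, W_fttt,
        W_tfff, W_tfft, W_tftf, W_tftt, W_ttff, W_ttft, W_tttf, W_tttt, V_ffff, V_ffft,
        V_fftf, V_fftt, V_ftff, V_ftft, V_fttf, V_fttt, V_tfff, V_tfft, V_tftf, V_tftt,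
        V_ttff, V_ttft, V_tttf, V_tttt, K_ff, K_ft, K_tf, K_tt, mul_zero, zero_mul,
        add_zero, zero_add, mul_one, one_mul] <;> (try simp only [NN]) <;> ring

/-- two diagonal vertices and the crossing between them -/
def G (t x y : R) (c d r s : Bool) : R :=
  ∑ r0 : Bool, ∑ d0 : Bool, K t x c r0 * W x y r0 d r d0 * K t y d0 s

theorem refl (t x y : R) (c d r s : Bool) :
    (∑ a : Bool, ∑ b : Bool, V x y c d a b * G t y x a b r s) =
    ∑ a : Bool, ∑ b : Bool, G t x y c d a b * V x y a b r s := by
  unfold G
  cases c <;> cases d <;> cases r <;> cases s <;>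
    simp only [Fintype.sum_bool, W_ffff, W_ffft, W_fftf, W_fftt, W_ftff, W_ftft, W_fttf, W_fttt,
        W_tfff, W_tfft, W_tftf, W_tftt, W_ttff, W_ttft, W_tttf, W_tttt, V_ffff, V_ffft,
        V_fftf, V_fftt, V_ftff, V_ftft, V_fttf, V_fttt, V_tfff, V_tfft, V_tftf, V_tftt,
        V_ttff, V_ttft, V_tttf, V_tttt, K_ff, K_ft, K_tf, K_tt, mul_zero, zero_mul,
        add_zero, zero_add, mul_one, one_mul] <;> (try simp only [NN]) <;> ring

theorem row_nil (x : R) (f : List (R × Bool) → R) (r : Bool) :
    row x f r [] = if r then f [] else 0 := rfl

theorem row_cons (x y : R) (c : Bool) (f : List (R × Bool) → R) (r : Bool)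
    (l : List (R × Bool)) :
    row x f r ((y, c) :: l) =
      ∑ r' : Bool, ∑ c' : Bool, W x y r c r' c' * row x (fun l' => f ((y, c') :: l')) r' l := rfl

theorem row_congr (x : R) (f g : List (R × Bool) → R) (r : Bool) (l : List (R × Bool))
    (h : ∀ l' : List (R × Bool), l'.length = l.length → f l' = g l') :
    row x f r l = row x g r l := by
  induction l generalizing f g r with
  | nil => simp only [row_nil, h [] rfl]
  | cons p l ih =>
    obtain ⟨y, c⟩ := p
    simp only [row_cons]
    refine Finset.sum_congr rfl fun r' _ => Finset.sum_congr rfl fun c' _ => ?_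
    rw [ih _ (fun l' => g ((y, c') :: l')) r' (fun l' hl' => h _ (by simp [hl']))]

theorem row_add (x : R) (f g : List (R × Bool) → R) (r : Bool) (l : List (R × Bool)) :
    row x (fun l' => f l' + g l') r l = row x f r l + row x g r l := by
  induction l generalizing f g r with
  | nil => cases r <;> simp [row_nil]
  | cons p l ih =>
    obtain ⟨y, c⟩ := p
    simp only [row_cons, ← Finset.sum_add_distrib]
    refine Finset.sum_congr rfl fun r' _ => Finset.sum_congr rfl fun c' _ => ?_
    rw [ih, mul_add]

theorem row_mul (x a : R) (f : List (R × Bool) → R) (r : Bool) (l : List (R × Bool)) :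
    row x (fun l' => a * f l') r l = a * row x f r l := by
  induction l generalizing f r with
  | nil => cases r <;> simp [row_nil]
  | cons p l ih =>
    obtain ⟨y, c⟩ := p
    simp only [row_cons, Finset.mul_sum]
    refine Finset.sum_congr rfl fun r' _ => Finset.sum_congr rfl fun c' _ => ?_
    rw [ih]; ring

theorem row_zero (x : R) (r : Bool) (l : List (R × Bool)) :
    row x (fun _ => 0) r l = 0 := by
  have := row_mul x 0 (fun _ => 0) r l
  simpa using this

theorem row_sum {ι : Type*} (s : Finset ι) (x : R) (f : ι → List (R × Bool) → R) (r : Bool)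
    (l : List (R × Bool)) :
    row x (fun l' => ∑ i ∈ s, f i l') r l = ∑ i ∈ s, row x (f i) r l := by
  classical
  induction s using Finset.induction_on with
  | empty => simpa using row_zero x r l
  | insert a s ha ih =>
    simp only [Finset.sum_insert ha]
    rw [row_add, ih]

/-- exchange relation for a function on lists of length `n` -/
def Exch (n : ℕ) (f : List (R × Bool) → R) : Prop :=
  ∀ (l1 : List (R × Bool)) (x y : R) (c d : Bool) (l2 : List (R × Bool)),
    l1.length + l2.length + 2 = n →
    (1 - x + x * y) * f (l1 ++ (x, c) :: (y, d) :: l2) =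
      ∑ a : Bool, ∑ b : Bool, V x y c d a b * f (l1 ++ (y, a) :: (x, b) :: l2)

theorem row_exch (w : R) (n : ℕ) (f : List (R × Bool) → R) (r : Bool) (hf : Exch n f) :
    Exch n (row w f r) := by
  intro l1 x y c d l2 hn
  induction l1 generalizing f n r with
  | nil =>
    simp only [List.nil_append, row_cons]
    -- left side
    have e1 : ∀ (r2 c1 d1 : Bool),
        (1 - x + x * y) * row w (fun l' => f ((x, c1) :: (y, d1) :: l')) r2 l2 =
          ∑ c2 : Bool, ∑ d2 : Bool, V x y c1 d1 c2 d2 *
            row w (fun l' => f ((y, c2) :: (x, d2) :: l')) r2 l2 := by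
      intro r2 c1 d1
      rw [← row_mul]
      rw [row_congr w _ (fun l' => ∑ c2 : Bool, ∑ d2 : Bool, V x y c1 d1 c2 d2 *
        f ((y, c2) :: (x, d2) :: l')) r2 l2 (fun l' hl' => by
          have := hf [] x y c1 d1 l' (by simpa [hl'] using hn)
          simpa using this)]
      rw [row_sum]
      refine Finset.sum_congr rfl fun c2 _ => ?_
      rw [row_sum]
      refine Finset.sum_congr rfl fun d2 _ => ?_
      rw [row_mul]
    have e2 : (1 - x + x * y) * ∑ r' : Bool, ∑ c' : Bool, W w x r c r' c' *
        ∑ r'' : Bool, ∑ c'' : Bool, W w y r' d r'' c'' *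
          row w (fun l' => f ((x, c') :: (y, c'') :: l')) r'' l2 =
        ∑ r2 : Bool, ∑ c2 : Bool, ∑ d2 : Bool,
          (∑ a : Bool, ∑ b : Bool, ∑ r1 : Bool,
            (W w x r c r1 a * W w y r1 d r2 b) * V x y a b c2 d2) *
          row w (fun l' => f ((y, c2) :: (x, d2) :: l')) r2 l2 := by
      have h1 := e1 true true true
      have h2 := e1 true true false
      have h3 := e1 true false true
      have h4 := e1 true false false
      have h5 := e1 false true true
      have h6 := e1 false true false
      have h7 := e1 false false true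
      have h8 := e1 false false false
      simp only [Fintype.sum_bool] at h1 h2 h3 h4 h5 h6 h7 h8 ⊢
      linear_combination
        (W w x r c true true * W w y true d true true +
          W w x r c false true * W w y false d true true) * h1 +
        (W w x r c true true * W w y true d true false +
          W w x r c false true * W w y false d true false) * h2 +
        (W w x r c true false * W w y true d true true +
          W w x r c false false * W w y false d true true) * h3 +
        (W w x r c true false * W w y true d true false +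
          W w x r c false false * W w y false d true false) * h4 +
        (W w x r c true true * W w y true d false true +
          W w x r c false true * W w y false d false true) * h5 +
        (W w x r c true true * W w y true d false false +
          W w x r c false true * W w y false d false false) * h6 +
        (W w x r c true false * W w y true d false true +
          W w x r c false false * W w y false d false true) * h7 +
        (W w x r c true false * W w y true d false false +
          W w x r c false false * W w y false d false false) * h8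
    rw [e2]
    have e3 : (∑ a : Bool, ∑ b : Bool, V x y c d a b *
        ∑ r' : Bool, ∑ c' : Bool, W w y r a r' c' *
          ∑ r'' : Bool, ∑ c'' : Bool, W w x r' b r'' c'' *
            row w (fun l' => f ((y, c') :: (x, c'') :: l')) r'' l2) =
        ∑ r2 : Bool, ∑ c2 : Bool, ∑ d2 : Bool,
          (∑ a : Bool, ∑ b : Bool, ∑ r1 : Bool,
            V x y c d a b * (W w y r a r1 c2 * W w x r1 b r2 d2)) *
          row w (fun l' => f ((y, c2) :: (x, d2) :: l')) r2 l2 := by
      simp only [Fintype.sum_bool]
      ring
    rw [e3]
    refine Finset.sum_congr rfl fun r2 _ => Finset.sum_congr rfl fun c2 _ =>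
      Finset.sum_congr rfl fun d2 _ => ?_
    rw [ybe_v]
  | cons p l1 ih =>
    obtain ⟨z, e⟩ := p
    obtain ⟨k, rfl⟩ : ∃ k, n = k + 1 := ⟨n - 1, by simp at hn; omega⟩
    have hc : ∀ e' : Bool, Exch k (fun l' => f ((z, e') :: l')) := by
      intro e' l1' x' y' c' d' l2' hk
      have := hf ((z, e') :: l1') x' y' c' d' l2' (by simp; omega)
      simpa using this
    have h1 := fun (r' e' : Bool) => ih k (fun l' => f ((z, e') :: l')) r' (hc e')
      (by simp at hn; omega)
    simp only [List.cons_append, row_cons]
    have h11 := h1 true true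
    have h12 := h1 true false
    have h13 := h1 false true
    have h14 := h1 false false
    simp only [Fintype.sum_bool] at h11 h12 h13 h14 ⊢
    linear_combination W w z r e true true * h11 + W w z r e true false * h12 +
      W w z r e false true * h13 + W w z r e false false * h14

/-- two consecutive rows -/
def row2 (x y : R) (f : List (R × Bool) → R) (r s : Bool) (l : List (R × Bool)) : R :=
  row x (fun l' => row y f s l') r l

theorem row2_cons (x y z : R) (c : Bool) (f : List (R × Bool) → R) (r s : Bool)
    (l : List (R × Bool)) :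
    row2 x y f r s ((z, c) :: l) =
      ∑ r1 : Bool, ∑ c1 : Bool, W x z r c r1 c1 *
        ∑ s1 : Bool, ∑ c2 : Bool, W y z s c1 s1 c2 *
          row2 x y (fun l' => f ((z, c2) :: l')) r1 s1 l := by
  unfold row2
  rw [row_cons]
  refine Finset.sum_congr rfl fun r1 _ => Finset.sum_congr rfl fun c1 _ => ?_
  congr 1
  simp only [row_cons]
  rw [row_sum]
  refine Finset.sum_congr rfl fun s1 _ => ?_
  rw [row_sum]
  refine Finset.sum_congr rfl fun c2 _ => ?_
  rw [row_mul]

theorem row2_exch (x y : R) (f : List (R × Bool) → R) (r s : Bool) (l : List (R × Bool)) :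
    (1 - x + x * y) * row2 x y f r s l =
      ∑ a : Bool, ∑ b : Bool, V x y r s a b * row2 y x f a b l := by
  induction l generalizing f r s with
  | nil =>
    unfold row2
    cases r <;> cases s <;> simp [row_nil, V_tttt, V_fftt, V_fttt, V_tftt]
  | cons p l ih =>
    obtain ⟨z, c⟩ := p
    simp only [row2_cons]
    have e1 : (1 - x + x * y) * (∑ r1 : Bool, ∑ c1 : Bool, W x z r c r1 c1 *
        ∑ s1 : Bool, ∑ c2 : Bool, W y z s c1 s1 c2 *
          row2 x y (fun l' => f ((z, c2) :: l')) r1 s1 l) =
        ∑ r2 : Bool, ∑ s2 : Bool, ∑ c2 : Bool,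
          (∑ a : Bool, ∑ b : Bool, ∑ c1 : Bool,
            (W x z r c a c1 * W y z s c1 b c2) * V x y a b r2 s2) *
          row2 y x (fun l' => f ((z, c2) :: l')) r2 s2 l := by
      have h1 := ih (fun l' => f ((z, true) :: l')) true true
      have h2 := ih (fun l' => f ((z, true) :: l')) true false
      have h3 := ih (fun l' => f ((z, true) :: l')) false true
      have h4 := ih (fun l' => f ((z, true) :: l')) false false
      have h5 := ih (fun l' => f ((z, false) :: l')) true true
      have h6 := ih (fun l' => f ((z, false) :: l')) true false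
      have h7 := ih (fun l' => f ((z, false) :: l')) false true
      have h8 := ih (fun l' => f ((z, false) :: l')) false false
      simp only [Fintype.sum_bool] at h1 h2 h3 h4 h5 h6 h7 h8 ⊢
      linear_combination
        (W x z r c true true * W y z s true true true +
          W x z r c true false * W y z s false true true) * h1 +
        (W x z r c true true * W y z s true false true +
          W x z r c true false * W y z s false false true) * h2 +
        (W x z r c false true * W y z s true true true +
          W x z r c false false * W y z s false true true) * h3 +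
        (W x z r c false true * W y z s true false true +
          W x z r c false false * W y z s false false true) * h4 +
        (W x z r c true true * W y z s true true false +
          W x z r c true false * W y z s false true false) * h5 +
        (W x z r c true true * W y z s true false false +
          W x z r c true false * W y z s false false false) * h6 +
        (W x z r c false true * W y z s true true false +
          W x z r c false false * W y z s false true false) * h7 +
        (W x z r c false true * W y z s true false false +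
          W x z r c false false * W y z s false false false) * h8
    rw [e1]
    have e3 : (∑ a : Bool, ∑ b : Bool, V x y r s a b *
        ∑ r1 : Bool, ∑ c1 : Bool, W y z a c r1 c1 *
          ∑ s1 : Bool, ∑ c2 : Bool, W x z b c1 s1 c2 *
            row2 y x (fun l' => f ((z, c2) :: l')) r1 s1 l) =
        ∑ r2 : Bool, ∑ s2 : Bool, ∑ c2 : Bool,
          (∑ a : Bool, ∑ b : Bool, ∑ c1 : Bool,
            V x y r s a b * (W y z a c r2 c1 * W x z b c1 s2 c2)) *
          row2 y x (fun l' => f ((z, c2) :: l')) r2 s2 l := by
      simp only [Fintype.sum_bool]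
      ring
    rw [e3]
    refine Finset.sum_congr rfl fun r2 _ => Finset.sum_congr rfl fun s2 _ =>
      Finset.sum_congr rfl fun c2 _ => ?_
    rw [ybe_h]

theorem Z_succ (t : R) (n : ℕ) (x : R) (c : Bool) (l : List (R × Bool)) :
    Z t (n + 1) ((x, c) :: l) = ∑ r : Bool, K t x c r * row x (Z t n) r l := rfl

theorem Z_two (t : R) (n : ℕ) (x y : R) (c d : Bool) (l : List (R × Bool)) :
    Z t (n + 2) ((x, c) :: (y, d) :: l) =
      ∑ r : Bool, ∑ s : Bool, G t x y c d r s * row2 x y (Z t n) r s l := by
  have h : ∀ r' d' : Bool, row x (fun l' => Z t (n + 1) ((y, d') :: l')) r' l =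
      ∑ s : Bool, K t y d' s * row2 x y (Z t n) r' s l := by
    intro r' d'
    simp only [Z_succ]
    rw [row_sum]
    refine Finset.sum_congr rfl fun s _ => ?_
    rw [row_mul]
    rfl
  rw [show n + 2 = (n + 1) + 1 from rfl, Z_succ]
  simp only [row_cons, h, G, Fintype.sum_bool]
  ring

theorem Z_exch (t : R) (n : ℕ) : Exch n (Z t n) := by
  induction n with
  | zero => intro l1 x y c d l2 h; omega
  | succ n ih =>
    intro l1 x y c d l2 h
    cases l1 with
    | nil =>
      obtain ⟨k, rfl⟩ : ∃ k, n = k + 1 := ⟨n - 1, by simp at h; omega⟩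
      simp only [List.nil_append]
      rw [Z_two]
      have e1 : (1 - x + x * y) * (∑ r : Bool, ∑ s : Bool,
          G t x y c d r s * row2 x y (Z t k) r s l2) =
          ∑ r2 : Bool, ∑ s2 : Bool, (∑ a : Bool, ∑ b : Bool, G t x y c d a b * V x y a b r2 s2) *
            row2 y x (Z t k) r2 s2 l2 := by
        have h1 := row2_exch x y (Z t k) true true l2
        have h2 := row2_exch x y (Z t k) true false l2
        have h3 := row2_exch x y (Z t k) false true l2
        have h4 := row2_exch x y (Z t k) false false l2
        simp only [Fintype.sum_bool] at h1 h2 h3 h4 ⊢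
        linear_combination G t x y c d true true * h1 + G t x y c d true false * h2 +
          G t x y c d false true * h3 + G t x y c d false false * h4
      rw [e1]
      have e3 : (∑ a : Bool, ∑ b : Bool, V x y c d a b *
          Z t (k + 1 + 1) ((y, a) :: (x, b) :: l2)) =
          ∑ r2 : Bool, ∑ s2 : Bool, (∑ a : Bool, ∑ b : Bool, V x y c d a b * G t y x a b r2 s2) *
            row2 y x (Z t k) r2 s2 l2 := by
        simp only [Z_two, Fintype.sum_bool]
        ring
      rw [e3]
      refine Finset.sum_congr rfl fun r2 _ => Finset.sum_congr rfl fun s2 _ => ?_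
      rw [refl]
    | cons p l1 =>
      obtain ⟨z, e⟩ := p
      simp only [List.cons_append, Z_succ]
      have h1 := row_exch z n (Z t n) true ih l1 x y c d l2 (by simp at h; omega)
      have h2 := row_exch z n (Z t n) false ih l1 x y c d l2 (by simp at h; omega)
      simp only [Fintype.sum_bool] at h1 h2 ⊢
      linear_combination K t z e true * h1 + K t z e false * h2

/-! ### The partition function with zero top bits is symmetric -/

theorem Z0_swap_mul (t : R) (l1 : List R) (x y : R) (l2 : List R) :
    (1 - x + x * y) * Z0 t (l1 ++ x :: y :: l2) = (1 - x + x * y) * Z0 t (l1 ++ y :: x :: l2) := by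
  unfold Z0
  have h := Z_exch t (l1.length + l2.length + 2) (l1.map (fun x => (x, false))) x y false false
    (l2.map (fun x => (x, false))) (by simp)
  have e : ∀ u v : R, (l1 ++ u :: v :: l2).length = l1.length + l2.length + 2 := by
    intro u v; simp; omega
  rw [e, e]
  simp only [List.map_append, List.map_cons]
  rw [h]
  simp [V_ffft, V_ffff, V_fftf, V_fftt]

theorem NN_map {S : Type*} [CommRing S] (φ : R →+* S) (x : R) : φ (NN x) = NN (φ x) := by
  simp [NN]

theorem W_map {S : Type*} [CommRing S] (φ : R →+* S) (x y : R) (r c r' c' : Bool) :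
    φ (W x y r c r' c') = W (φ x) (φ y) r c r' c' := by
  cases r <;> cases c <;> cases r' <;> cases c' <;> simp only [Fintype.sum_bool, W_ffff, W_ffft, W_fftf, W_fftt, W_ftff, W_ftft, W_fttf, W_fttt,
      W_tfff, W_tfft, W_tftf, W_tftt, W_ttff, W_ttft, W_tttf, W_tttt, V_ffff, V_ffft,
      V_fftf, V_fftt, V_ftff, V_ftft, V_fttf, V_fttt, V_tfff, V_tfft, V_tftf, V_tftt,
      V_ttff, V_ttft, V_tttf, V_tttt, K_ff, K_ft, K_tf, K_tt, mul_zero, zero_mul,
      add_zero, zero_add, mul_one, one_mul] <;> simp [NN_map]

theorem K_map {S : Type*} [CommRing S] (φ : R →+* S) (t x : R) (c r : Bool) :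
    φ (K t x c r) = K (φ t) (φ x) c r := by
  cases r <;> cases c <;> simp only [Fintype.sum_bool, W_ffff, W_ffft, W_fftf, W_fftt, W_ftff, W_ftft, W_fttf, W_fttt,
      W_tfff, W_tfft, W_tftf, W_tftt, W_ttff, W_ttft, W_tttf, W_tttt, V_ffff, V_ffft,
      V_fftf, V_fftt, V_ftff, V_ftft, V_fttf, V_fttt, V_tfff, V_tfft, V_tftf, V_tftt,
      V_ttff, V_ttft, V_tttf, V_tttt, K_ff, K_ft, K_tf, K_tt, mul_zero, zero_mul,
      add_zero, zero_add, mul_one, one_mul] <;> simp [NN_map]

theorem row_map {S : Type*} [CommRing S] (φ : R →+* S) (x : R)
    (f : List (R × Bool) → R) (g : List (S × Bool) → S)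
    (r : Bool) (l : List (R × Bool))
    (hfg : ∀ l' : List (R × Bool), φ (f l') = g (l'.map (Prod.map φ id))) :
    φ (row x f r l) = row (φ x) g r (l.map (Prod.map φ id)) := by
  induction l generalizing f g r with
  | nil =>
    have := hfg []
    cases r <;> simp [row_nil] <;> simpa using this
  | cons p l ih =>
    obtain ⟨y, c⟩ := p
    simp only [List.map_cons, Prod.map_apply, id_eq, row_cons, map_sum, map_mul, W_map]
    refine Finset.sum_congr rfl fun r' _ => Finset.sum_congr rfl fun c' _ => ?_
    rw [ih (fun l' => f ((y, c') :: l')) (fun l' => g ((φ y, c') :: l')) r']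
    intro l'
    rw [hfg]; simp

theorem Z_map {S : Type*} [CommRing S] (φ : R →+* S) (t : R) (n : ℕ) (l : List (R × Bool)) :
    φ (Z t n l) = Z (φ t) n (l.map (Prod.map φ id)) := by
  induction n generalizing l with
  | zero => simp [Z]
  | succ n ih =>
    cases l with
    | nil => simp [Z]
    | cons p l =>
      obtain ⟨y, c⟩ := p
      simp only [List.map_cons, Prod.map_apply, id_eq, Z_succ, map_sum, map_mul, K_map]
      refine Finset.sum_congr rfl fun r' _ => ?_
      rw [row_map φ y (Z t n) (Z (φ t) n) r' l ih]

theorem Z0_map {S : Type*} [CommRing S] (φ : R →+* S) (t : R) (xs : List R) :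
    φ (Z0 t xs) = Z0 (φ t) (xs.map φ) := by
  unfold Z0
  rw [Z_map]
  simp [List.map_map, Function.comp_def, Prod.map_apply]

theorem Z0_swap_X (k : ℕ) (i : List ℕ) (a b : ℕ) (j : List ℕ) :
    Z0 (MvPolynomial.X k : MvPolynomial ℕ ℤ)
      (i.map MvPolynomial.X ++ MvPolynomial.X a :: MvPolynomial.X b :: j.map MvPolynomial.X) =
    Z0 (MvPolynomial.X k : MvPolynomial ℕ ℤ)
      (i.map MvPolynomial.X ++ MvPolynomial.X b :: MvPolynomial.X a :: j.map MvPolynomial.X) := by
  have h := Z0_swap_mul (MvPolynomial.X k : MvPolynomial ℕ ℤ) (i.map MvPolynomial.X)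
    (MvPolynomial.X a) (MvPolynomial.X b) (j.map MvPolynomial.X)
  refine mul_left_cancel₀ ?_ h
  intro h0
  have := congrArg (MvPolynomial.eval (fun _ => (0 : ℤ))) h0
  simp at this

theorem Z0_swap (t : R) (l1 : List R) (x y : R) (l2 : List R) :
    Z0 t (l1 ++ x :: y :: l2) = Z0 t (l1 ++ y :: x :: l2) := by
  set big : List R := t :: x :: y :: (l1 ++ l2) with hbig
  set φ : MvPolynomial ℕ ℤ →+* R :=
    (MvPolynomial.aeval (fun i => big.getD i 0)).toRingHom with hφ
  have hX : ∀ i, φ (MvPolynomial.X i) = big.getD i 0 := by
    intro i; simp [hφ]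
  have h := congrArg φ (Z0_swap_X 0 ((List.range l1.length).map (· + 3)) 1 2
    ((List.range l2.length).map (· + 3 + l1.length)))
  rw [Z0_map, Z0_map] at h
  simp only [List.map_append, List.map_cons, List.map_map] at h
  have e0 : φ (MvPolynomial.X 0) = t := by rw [hX]; simp [hbig]
  have e1 : φ (MvPolynomial.X 1) = x := by rw [hX]; simp [hbig]
  have e2 : φ (MvPolynomial.X 2) = y := by rw [hX]; simp [hbig]
  have e3 : (List.range l1.length).map (φ ∘ (MvPolynomial.X ∘ fun x => x + 3)) = l1 := by
    apply List.ext_getElem
    · simp
    · intro i h1 h2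
      simp only [List.getElem_map, List.getElem_range, Function.comp_apply]
      rw [hX]
      simp only [hbig]
      simp [List.getD_eq_getElem?_getD, List.getElem?_append_left h2, h2]
  have e4 : (List.range l2.length).map (φ ∘ (MvPolynomial.X ∘ fun x => x + 3 + l1.length)) = l2 := by
    apply List.ext_getElem
    · simp
    · intro i h1 h2
      simp only [List.getElem_map, List.getElem_range, Function.comp_apply]
      rw [hX]
      simp only [hbig]
      rw [show i + 3 + l1.length = (l1.length + i) + 1 + 1 + 1 by ring]
      simp [List.getD_eq_getElem?_getD, h2]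
  rw [e0, e1, e2, e3, e4] at h
  exact h

theorem Z0_perm (t : R) {xs ys : List R} (h : xs.Perm ys) : Z0 t xs = Z0 t ys := by
  -- reduce to adjacent transpositions
  have key : ∀ (l : List R), Z0 t (l ++ xs) = Z0 t (l ++ ys) := by
    induction h with
    | nil => intro l; rfl
    | cons x _ ih =>
      intro l
      have := ih (l ++ [x])
      simpa using this
    | swap x y l' => intro l; exact Z0_swap t l y x l'
    | trans _ _ ih1 ih2 => intro l; rw [ih1, ih2]
  simpa using key []

end Pool.Agent.H103.OS
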