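import Pool.Agent.H103.OS.Det

/-!
# The determinant formula: invariance and recursion steps
-/

set_option autoImplicit false
set_option linter.unusedSectionVars false
set_option maxHeartbeats 4000000

namespace Pool.Agent.H103.OS

noncomputable section

/-- `Y = z + z⁻¹` as a function of `x` -/
def yv (x : ℂ) : ℂ := (2 - 2 * x - x ^ 2) / NN x

/-- the elementary antisymmetric factor -/
def del (a b : ℂ) : ℂ := (b - a) * (a + b - a * b)

/-- product of `del` over pairs -/
def Del : List ℂ → ℂ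
  | [] => 1
  | x :: l => (l.map (del x)).prod * Del l

theorem del_anti (a b : ℂ) : del a b = - del b a := by unfold del; ring

theorem Del_swap (l1 : List ℂ) (x y : ℂ) (l2 : List ℂ) :
    Del (l1 ++ x :: y :: l2) = - Del (l1 ++ y :: x :: l2) := by
  induction l1 with
  | nil =>
    simp only [List.nil_append, Del, List.map_cons, List.prod_cons]
    rw [del_anti x y]; ring
  | cons z l1 ih =>
    simp only [List.cons_append, Del, ih, List.map_append, List.map_cons, List.prod_append,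
      List.prod_cons]
    ring

/-- left side of the determinant formula -/
def lhs (n : ℕ) (xs : List ℂ) : ℂ :=
  -((xs.map NN).prod) ^ (3 * n + 1) * detM (2 * n + 2) (-3 * n - 2) (xs.map yv ++ [-2])

/-- right side of the determinant formula -/
def rhs (n : ℕ) (xs : List ℂ) : ℂ :=
  (-1) ^ n * 3 ^ (3 * n ^ 2 + n) * S xs * Del xs * (xs.map (fun x => 2 - x)).prod

/-- the determinant formula -/
def PP (n : ℕ) (xs : List ℂ) : Prop := lhs n xs = rhs n xs

theorem PP_swap (n : ℕ) (l1 : List ℂ) (x y : ℂ) (l2 : List ℂ)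
    (hm : l1.length + l2.length + 2 = 2 * n + 1) :
    PP n (l1 ++ x :: y :: l2) ↔ PP n (l1 ++ y :: x :: l2) := by
  have hp : (l1 ++ x :: y :: l2).Perm (l1 ++ y :: x :: l2) :=
    List.Perm.append_left l1 (List.Perm.swap _ _ _)
  have e1 : lhs n (l1 ++ x :: y :: l2) = - lhs n (l1 ++ y :: x :: l2) := by
    unfold lhs
    rw [(hp.map NN).prod_eq]
    have := detM_swap (2 * n + 2) (-3 * n - 2) (l1.map yv) (yv x) (yv y) (l2.map yv ++ [-2])
      (by simp; omega)
    simp only [List.map_append, List.map_cons, List.append_assoc, List.cons_append]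
    rw [this]; ring
  have e2 : rhs n (l1 ++ x :: y :: l2) = - rhs n (l1 ++ y :: x :: l2) := by
    unfold rhs
    rw [S_perm hp, Del_swap, (hp.map (fun x => 2 - x)).prod_eq]; ring
  unfold PP
  rw [e1, e2]
  constructor
  · intro h; linear_combination -h
  · intro h; linear_combination -h

theorem PP_perm (n : ℕ) {xs ys : List ℂ} (h : xs.Perm ys) (hl : xs.length = 2 * n + 1) :
    PP n xs ↔ PP n ys := by
  have key : ∀ (l : List ℂ), l.length + xs.length = 2 * n + 1 →
      (PP n (l ++ xs) ↔ PP n (l ++ ys)) := by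
    clear hl
    induction h with
    | nil => intro l _; rfl
    | cons x _ ih =>
      intro l hl
      have := ih (l ++ [x]) (by simp at hl ⊢; omega)
      simpa using this
    | swap x y l' =>
      intro l hl
      exact PP_swap n l y x l' (by simp at hl; omega)
    | trans h1 _ ih1 ih2 =>
      intro l hl
      rw [ih1 l hl, ih2 l (by rw [← h1.length_eq]; exact hl)]
  simpa using key [] (by simpa using hl)

theorem PP_eq (n : ℕ) (x : ℂ) (l : List ℂ) (hn : 1 ≤ n) : PP n (x :: x :: l) := by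
  unfold PP lhs rhs
  simp only [List.map_cons, List.cons_append, Del, List.prod_cons]
  rw [detM_eq_rows _ _ _ _ (by omega)]
  have : del x x = 0 := by unfold del; ring
  rw [this]; ring

theorem yv_tau (x : ℂ) (hx : x ≠ 1) (hN : NN x ≠ 0) : yv (tau x) = yv x := by
  have hx1 : x - 1 ≠ 0 := sub_ne_zero.mpr hx
  have h : NN (tau x) = NN x / (x - 1) ^ 2 := by
    unfold NN tau; field_simp; ring
  unfold yv
  rw [h]
  unfold tau
  field_simp
  ring

theorem PP_tau (n : ℕ) (x : ℂ) (l : List ℂ) (hn : 1 ≤ n) (hx : x ≠ 1) (hN : NN x ≠ 0) :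
    PP n (tau x :: x :: l) := by
  have hx1 : x - 1 ≠ 0 := sub_ne_zero.mpr hx
  unfold PP lhs rhs
  simp only [List.map_cons, List.cons_append, Del, List.prod_cons]
  rw [yv_tau x hx hN, detM_eq_rows _ _ _ _ (by omega)]
  have : del (tau x) x = 0 := by unfold del tau; field_simp; ring
  rw [this]; ring

theorem yv_two : yv 2 = -2 := by unfold yv NN; norm_num

theorem PP_two (n : ℕ) (l : List ℂ) (hl : l.length = 2 * n) : PP n (2 :: l) := by
  unfold PP lhs rhs
  simp only [List.map_cons, List.cons_append, List.prod_cons]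
  rw [yv_two, detM_eq_first_last _ _ _ _ (by simp; omega)]
  ring

theorem prod_map_cube (l : List ℂ) (f : ℂ → ℂ) :
    (l.map f).prod ^ 3 = (l.map (fun c => f c ^ 3)).prod := by
  induction l with
  | nil => simp
  | cons a l ih => simp only [List.map_cons, List.prod_cons, ← ih]; ring

/-- common part of the recursion steps -/
theorem PP_step (n : ℕ) (a b : ℂ) (l : List ℂ) (hl : l.length = 2 * n + 1) (g e : ℂ)
    (T : ℂ → ℂ)
    (hk : (yv a) ^ 3 - 3 * (yv a) = (yv b) ^ 3 - 3 * (yv b))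
    (hT : ∀ c ∈ l, NN c ^ 3 * (((yv c) ^ 3 - 3 * (yv c)) - ((yv a) ^ 3 - 3 * (yv a))) =
      g * (T c * (del a c * del b c)))
    (hS : S (a :: b :: l) = e * (l.map T).prod * S l)
    (he : (NN a * NN b) ^ (3 * n + 4) * (yv b - yv a) *
      ((-2 : ℂ) - ((yv a) ^ 3 - 3 * (yv a))) * g ^ (2 * n + 1) =
      -3 ^ (6 * n + 4) * (e * del a b * ((2 - a) * (2 - b))))
    (hP : PP n l) : PP (n + 1) (a :: b :: l) := by
  unfold PP lhs rhs at *
  simp only [List.map_cons, List.cons_append, Del, List.prod_cons]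
  have h1 : detM (2 * (n + 1) + 2) (-3 * ((n + 1 : ℕ) : ℤ) - 2) (yv a :: yv b :: (l.map yv ++ [-2])) =
      detM (2 * n + 2 + 2) (-3 * n - 5) (yv a :: yv b :: (l.map yv ++ [-2])) := by
    congr 1
    push_cast; ring
  rw [h1, detM_rec (2 * n + 2) n _ _ _ (by simp; omega) hk]
  rw [List.map_append, List.prod_append, List.map_cons, List.map_nil, List.prod_cons,
    List.prod_nil, mul_one, List.map_map]
  have h2 : (l.map NN).prod ^ 3 * (l.map ((fun c => (c ^ 3 - 3 * c) -
      ((yv a) ^ 3 - 3 * (yv a))) ∘ yv)).prod =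
      g ^ (2 * n + 1) * ((l.map T).prod * ((l.map (del a)).prod * (l.map (del b)).prod)) := by
    rw [← hl, ← List.prod_map_mul, ← List.prod_map_mul, ← prod_map_const_mul]
    have : (l.map NN).prod ^ 3 = (l.map (fun c => NN c ^ 3)).prod := by
      rw [prod_map_cube]
    rw [this, ← List.prod_map_mul]
    congr 1
    refine List.map_congr_left fun c hc => ?_
    rw [← hT c hc]
    rfl
  rw [hS]
  have h3 : ((-2 : ℂ)) ^ 3 - 3 * (-2) = -2 := by norm_num
  rw [h3]
  set A := (l.map NN).prod with hA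
  set P := (l.map ((fun c => (c ^ 3 - 3 * c) - ((yv a) ^ 3 - 3 * (yv a))) ∘ yv)).prod with hPdef
  set D := detM (2 * n + 2) (-3 * n - 2) (l.map yv ++ [-2]) with hD
  set U := (l.map T).prod * ((l.map (del a)).prod * (l.map (del b)).prod) with hU
  calc -(NN a * (NN b * A)) ^ (3 * (n + 1) + 1) * ((yv b - yv a) *
        (P * (-2 - (yv a ^ 3 - 3 * yv a))) * D)
      = ((NN a * NN b) ^ (3 * n + 4) * (yv b - yv a) *
          ((-2 : ℂ) - ((yv a) ^ 3 - 3 * (yv a)))) * (A ^ 3 * P) * (-A ^ (3 * n + 1) * D) := by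
        ring
    _ = ((NN a * NN b) ^ (3 * n + 4) * (yv b - yv a) *
          ((-2 : ℂ) - ((yv a) ^ 3 - 3 * (yv a))) * g ^ (2 * n + 1)) * U *
          (-A ^ (3 * n + 1) * D) := by rw [h2]; ring
    _ = (-3 ^ (6 * n + 4) * (e * del a b * ((2 - a) * (2 - b)))) * U *
          ((-1) ^ n * 3 ^ (3 * n ^ 2 + n) * S l * Del l * (l.map (fun x => 2 - x)).prod) := by
        rw [he, hP]
    _ = _ := by
        rw [hU, show 3 * (n + 1) ^ 2 + (n + 1) = (3 * n ^ 2 + n) + (6 * n + 4) by ring,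
          pow_add, pow_succ]
        ring

theorem kap_eq (x : ℂ) (hN : NN x ≠ 0) :
    (-2 : ℂ) - ((yv x) ^ 3 - 3 * (yv x)) =
      -((1 - 2 * x) ^ 2 * (1 + x) ^ 2 * (2 - x) ^ 2) / NN x ^ 3 := by
  unfold yv
  field_simp
  unfold NN
  ring

theorem PP_A (n : ℕ) (a b : ℂ) (l : List ℂ) (hl : l.length = 2 * n + 1) (h : a * b = 1)
    (ha : a ≠ 1) (hNa : NN a ≠ 0) (hl1 : ∀ z ∈ l, z ≠ 1) (hlN : ∀ z ∈ l, NN z ≠ 0)
    (hP : PP n l) : PP (n + 1) (a :: b :: l) := by
  have ha0 : a ≠ 0 := by rintro rfl; simp at h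
  have hb : b = 1 / a := by field_simp; linear_combination h
  have hNb' : NN b = NN a / a ^ 2 := by
    rw [hb]; unfold NN; field_simp; ring
  have hNb : NN b ≠ 0 := by rw [hNb']; positivity
  have hyb : yv b = (2 * a ^ 2 - 2 * a - 1) / NN a := by
    unfold yv; rw [hNb', hb]; field_simp
  refine PP_step n a b l hl (-27 * (a / NN a) ^ 3)
    ((1 - 2 * a) * (1 - 2 * b) * (1 + a) * (1 + b))
    (fun z => (1 - a - z) * (1 - b - z)) ?_ ?_ (S_A a b l h ha hl1 (by omega)) ?_ hP
  · rw [hyb]; unfold yv; field_simp; unfold NN; ring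
  · intro c hc
    have hNc := hlN c hc
    unfold yv del
    rw [hb]
    field_simp
    unfold NN
    ring
  · rw [kap_eq a hNa]
    set u := NN a / a with hu
    have hu0 : u ≠ 0 := div_ne_zero hNa ha0
    have e1 : NN a * NN b = u ^ 2 := by rw [hNb', hu]; field_simp
    have e2 : a / NN a = u⁻¹ := by rw [hu, inv_div]
    have e3 : yv b - yv a = -3 * del a b / u ^ 2 := by
      rw [hyb, hu]
      unfold yv del
      rw [hb]
      field_simp
      unfold NN
      ring
    have e4 : (u ^ 2) ^ (3 * n + 4) = u ^ (6 * n + 3) * u ^ 5 := by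
      rw [← pow_mul, ← pow_add]; congr 1; ring
    have e5 : (-27 * u⁻¹ ^ 3) ^ (2 * n + 1) * u ^ (6 * n + 3) = -3 ^ (6 * n + 3) := by
      rw [mul_pow, ← pow_mul, show 3 * (2 * n + 1) = 6 * n + 3 by ring, mul_assoc, ← mul_pow,
        inv_mul_cancel₀ hu0, one_pow, mul_one,
        Odd.neg_pow ⟨n, rfl⟩, show (27 : ℂ) = 3 ^ 3 by norm_num, ← pow_mul]
      congr 2; ring
    have e6 : (1 - 2 * a) * (1 - 2 * b) * (1 + a) * (1 + b) * ((2 - a) * (2 - b)) =
        ((1 - 2 * a) ^ 2 * (1 + a) ^ 2 * (2 - a) ^ 2) / a ^ 3 := by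
      rw [hb]; field_simp; ring
    have e7 : NN a = u * a := by rw [hu]; field_simp
    rw [e1, e2, e3, e4]
    calc _ = ((-27 * u⁻¹ ^ 3) ^ (2 * n + 1) * u ^ (6 * n + 3)) * (u ^ 5 * (-3 * del a b / u ^ 2) *
          (-((1 - 2 * a) ^ 2 * (1 + a) ^ 2 * (2 - a) ^ 2) / NN a ^ 3)) := by ring
      _ = (-3 ^ (6 * n + 3)) * (u ^ 5 * (-3 * del a b / u ^ 2) *
          (-((1 - 2 * a) ^ 2 * (1 + a) ^ 2 * (2 - a) ^ 2) / NN a ^ 3)) := by rw [e5]
      _ = -3 ^ (6 * n + 4) * (del a b *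
          (((1 - 2 * a) ^ 2 * (1 + a) ^ 2 * (2 - a) ^ 2) / a ^ 3)) := by
        rw [e7]
        have : (3 : ℂ) ^ (6 * n + 4) = 3 ^ (6 * n + 3) * 3 := by rw [← pow_succ]
        rw [this]
        field_simp
      _ = _ := by rw [← e6]; ring

theorem PP_B (n : ℕ) (a b : ℂ) (l : List ℂ) (hl : l.length = 2 * n + 1) (h : a + b = 1)
    (ha : a ≠ 1) (hb1 : b ≠ 1) (hNa : NN a ≠ 0) (hl1 : ∀ z ∈ l, z ≠ 1)
    (hlN : ∀ z ∈ l, NN z ≠ 0) (hP : PP n l) : PP (n + 1) (a :: b :: l) := by
  have hb : b = 1 - a := by linear_combination h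
  have hNb' : NN b = NN a := by
    rw [hb]; unfold NN; ring
  have hNb : NN b ≠ 0 := by rw [hNb']; exact hNa
  have hyb : yv b = (-1 + 4 * a - a ^ 2) / NN a := by
    unfold yv; rw [hNb', hb]; congr 1; ring
  refine PP_step n a b l hl (27 / NN a ^ 3)
    ((1 - 2 * a) * (1 - 2 * b) * (1 + a) * (1 + b))
    (fun z => (1 - a * z) * (1 - b * z)) ?_ ?_ (S_B a b l h ha hb1 hl1 (by omega)) ?_ hP
  · rw [hyb]; unfold yv; field_simp; unfold NN; ring
  · intro c hc
    have hNc := hlN c hc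
    unfold yv del
    rw [hb]
    field_simp
    unfold NN
    ring
  · rw [kap_eq a hNa]
    have e3 : yv b - yv a = -3 * del a b / NN a ^ 2 := by
      rw [hyb]
      unfold yv del
      rw [hb]
      field_simp
      unfold NN
      ring
    have e4 : (NN a * NN b) ^ (3 * n + 4) = NN a ^ (6 * n + 3) * NN a ^ 5 := by
      rw [hNb', ← pow_two, ← pow_mul, ← pow_add]; congr 1; ring
    have e5 : (27 / NN a ^ 3) ^ (2 * n + 1) * NN a ^ (6 * n + 3) = 3 ^ (6 * n + 3) := by
      rw [div_pow, ← pow_mul, show 3 * (2 * n + 1) = 6 * n + 3 by ring,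
        div_mul_cancel₀ _ (pow_ne_zero _ hNa), show (27 : ℂ) = 3 ^ 3 by norm_num, ← pow_mul]
      congr 1; ring
    have e6 : (1 - 2 * a) * (1 - 2 * b) * (1 + a) * (1 + b) * ((2 - a) * (2 - b)) =
        -((1 - 2 * a) ^ 2 * (1 + a) ^ 2 * (2 - a) ^ 2) := by
      rw [hb]; ring
    rw [e3, e4]
    calc _ = ((27 / NN a ^ 3) ^ (2 * n + 1) * NN a ^ (6 * n + 3)) *
          (NN a ^ 5 * (-3 * del a b / NN a ^ 2) *
          (-((1 - 2 * a) ^ 2 * (1 + a) ^ 2 * (2 - a) ^ 2) / NN a ^ 3)) := by ring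
      _ = (3 ^ (6 * n + 3)) * (NN a ^ 5 * (-3 * del a b / NN a ^ 2) *
          (-((1 - 2 * a) ^ 2 * (1 + a) ^ 2 * (2 - a) ^ 2) / NN a ^ 3)) := by rw [e5]
      _ = -3 ^ (6 * n + 4) * (del a b *
          (-((1 - 2 * a) ^ 2 * (1 + a) ^ 2 * (2 - a) ^ 2))) := by
        have : (3 : ℂ) ^ (6 * n + 4) = 3 ^ (6 * n + 3) * 3 := by rw [← pow_succ]
        rw [this]
        field_simp
      _ = _ := by rw [← e6]; ring

theorem PP_base (x : ℂ) (hN : NN x ≠ 0) : PP 0 [x] := by
  unfold PP lhs rhs detM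
  simp only [List.map_cons, List.map_nil, List.prod_cons, List.prod_nil, Del, S_single]
  rw [Matrix.det_fin_two]
  simp only [Matrix.of_apply]
  norm_num
  rw [sv_neg_two, sv_one, sv_one, sv_neg_two]
  unfold yv
  field_simp
  unfold NN
  ring

end

end Pool.Agent.H103.OS
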